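import Pool.Agent.R910.Mu.Quad

/-!
# Totally real fields
-/

set_option autoImplicit false

namespace Pool.Agent.R910.Mu

variable {p : ℕ} [Fact p.Prime]

/-- A complex conjugation: the automorphism of the algebraic closure induced by complex
conjugation under some embedding in the complex numbers. -/
def IsConj (c : Gal) : Prop := ∃ σ : Om →+* ℂ, ∀ x : Om, σ (c x) = starRingEnd ℂ (σ x)

/-- A field is totally real if all its embeddings (equivalently, all embeddings of the algebraic
closure) have real values on it. -/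
def IsTotReal (F : IntermediateField ℚ Om) : Prop :=
  ∀ (σ : Om →+* ℂ), ∀ x ∈ F, starRingEnd ℂ (σ x) = σ x

theorem exists_conj (σ : Om →+* ℂ) : ∃ c : Gal, ∀ x : Om, σ (c x) = starRingEnd ℂ (σ x) := by
  letI : Algebra Om ℂ := σ.toAlgebra
  haveI : IsScalarTower ℚ Om ℂ := IsScalarTower.of_algebraMap_eq fun x => by
    simp
  let s : ℂ ≃ₐ[ℚ] ℂ := Complex.conjAe.restrictScalars ℚ
  refine ⟨s.restrictNormal Om, fun x => ?_⟩
  exact AlgEquiv.restrictNormal_commutes s Om x

theorem IsConj.sq {c : Gal} (hc : IsConj c) : c * c = 1 := by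
  obtain ⟨σ, hσ⟩ := hc
  ext x
  apply σ.injective
  rw [AlgEquiv.mul_apply, hσ, hσ]
  simp

theorem isTotReal_iff (F : IntermediateField ℚ Om) :
    IsTotReal F ↔ ∀ c : Gal, IsConj c → c ∈ F.fixingSubgroup := by
  constructor
  · rintro hF c ⟨σ, hσ⟩
    rw [IntermediateField.mem_fixingSubgroup_iff]
    intro x hx
    apply σ.injective
    rw [hσ, hF σ x hx]
  · intro h σ x hx
    obtain ⟨c, hc⟩ := exists_conj σ
    have := h c ⟨σ, hc⟩
    rw [IntermediateField.mem_fixingSubgroup_iff] at this
    rw [← hc, this x hx]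

theorem IsConj.conjugate {c : Gal} (hc : IsConj c) (g : Gal) : IsConj (g * c * g⁻¹) := by
  obtain ⟨σ, hσ⟩ := hc
  refine ⟨σ.comp (g⁻¹ : Gal).toRingEquiv.toRingHom, fun x => ?_⟩
  change σ (g⁻¹ ((g * c * g⁻¹) x)) = starRingEnd ℂ (σ (g⁻¹ x))
  rw [← hσ]
  congr 1
  rw [AlgEquiv.mul_apply, AlgEquiv.mul_apply, ← AlgEquiv.mul_apply, inv_mul_cancel]
  rfl

/-- The complex conjugations act trivially on the module. -/
def IsEven (V : GMod p Gal) : Prop := ∀ c : Gal, IsConj c → ∀ v : V.carrier, c • v = v

theorem isEven_fieldMod {F : IntermediateField ℚ Om} (hF : FiniteDimensional ℚ F)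
    (hr : IsTotReal F) : IsEven (fieldMod p F hF) := by
  intro c hc f
  rw [isTotReal_iff] at hr
  change (fun d : Gal ⧸ F.fixingSubgroup => f (c⁻¹ • d)) = f
  funext d
  congr 1
  induction d using QuotientGroup.induction_on with
  | H g =>
    change ((c⁻¹ * g : Gal) : Gal ⧸ F.fixingSubgroup) = g
    rw [QuotientGroup.eq]
    have := hr _ (hc.conjugate g⁻¹)
    simpa [mul_assoc] using this

/-- The zeros of a crossed homomorphism with values in an even module contain the complex
conjugations, for `p` odd. -/
theorem conj_mem_zeroSub (hp : p ≠ 2) {V : GMod p Gal} (hV : IsEven V) {z : Gal → V.carrier}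
    (hz : ∀ g h : Gal, z (g * h) = z g + g • z h) {c : Gal} (hc : IsConj c) :
    c ∈ zeroSub hz := by
  have h1 : z 1 = 0 := by
    have := hz 1 1
    simpa using this
  have h := hz c c
  rw [hc.sq, h1, hV c hc] at h
  have h2 : (2 : ZMod p) • z c = 0 := by
    rw [two_smul]
    exact h.symm
  have h3 : (2 : ZMod p) ≠ 0 := by
    intro h0
    have : ((2 : ℕ) : ZMod p) = 0 := by exact_mod_cast h0
    rw [ZMod.natCast_eq_zero_iff] at this
    exact hp ((Nat.prime_dvd_prime_iff_eq Fact.out Nat.prime_two).mp this)
  exact (smul_eq_zero.mp h2).resolve_left h3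

theorem isTotReal_fixedField {H : Subgroup Gal} (hH : IsOpen (H : Set Gal))
    (h : ∀ c : Gal, IsConj c → c ∈ H) : IsTotReal (IntermediateField.fixedField H) := by
  rw [isTotReal_iff, exists_field H hH]
  exact h

/-- **Devissage with a condition.** -/
theorem h2_eq_zero_of_irred_of {G : Type} [Group G] [TopologicalSpace G] [IsTopologicalGroup G]
    (T : LocalizedCohomology p G) (P : GMod p G → Prop)
    (hP : ∀ (W : GMod p G) (S : Submodule (ZMod p) W.carrier)
      (hS : ∀ (g : G), ∀ a ∈ S, g • a ∈ S), P W → P (W.sub S hS) ∧ P (W.quot S hS)) (N : ℕ)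
    (h : ∀ V : GMod p G, P V → IsIrred V → Nat.card V.carrier ≤ N → T.h2 V = 0) :
    ∀ W : GMod p G, P W → Nat.card W.carrier ≤ N → T.h2 W = 0 := by
  have key : ∀ n : ℕ, ∀ W : GMod p G, P W → Nat.card W.carrier ≤ n → Nat.card W.carrier ≤ N →
      T.h2 W = 0 := by
    intro n
    induction n with
    | zero =>
      intro W _ hW _
      exact absurd hW (by have := Nat.card_pos (α := W.carrier); omega)
    | succ n ih =>
      intro W hPW hW hN
      rcases subsingleton_or_nontrivial W.carrier with h0 | h0
      · exact h2_subsingleton T W h0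
      · by_cases hirr : IsIrred W
        · exact h W hPW hirr hN
        · have : ∃ S : Submodule (ZMod p) W.carrier, (∀ (g : G), ∀ a ∈ S, g • a ∈ S) ∧
              S ≠ ⊥ ∧ S ≠ ⊤ := by
            by_contra hcon
            push Not at hcon
            refine hirr ⟨h0, fun S hS => ?_⟩
            by_cases hb : S = ⊥
            · exact Or.inl hb
            · exact Or.inr (hcon S hS hb)
          obtain ⟨S, hS, hb, ht⟩ := this
          have hc : Nat.card W.carrier = Nat.card S * Nat.card (W.carrier ⧸ S) :=
            Submodule.card_eq_card_quotient_mul_card S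
          have hS1 : 1 < Nat.card S := by
            haveI : Nontrivial S := (Submodule.nontrivial_iff_ne_bot).mpr hb
            exact Finite.one_lt_card
          have hQ1 : 1 < Nat.card (W.carrier ⧸ S) := by
            haveI : Nontrivial (W.carrier ⧸ S) := Submodule.Quotient.nontrivial_iff.mpr ht
            haveI : Finite (W.carrier ⧸ S) := Finite.of_surjective _ (Submodule.mkQ_surjective S)
            exact Finite.one_lt_card
          have e1 : Nat.card S < Nat.card W.carrier := by
            rw [hc]; nlinarith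
          have e2 : Nat.card (W.carrier ⧸ S) < Nat.card W.carrier := by
            rw [hc]; nlinarith
          have h1 := ih (W.sub S hS) (hP W S hS hPW).1 (by change Nat.card S ≤ n; omega)
            (by change Nat.card S ≤ N; omega)
          have h2 := ih (W.quot S hS) (hP W S hS hPW).2
            (by change Nat.card (W.carrier ⧸ S) ≤ n; omega)
            (by change Nat.card (W.carrier ⧸ S) ≤ N; omega)
          have := h2_le_add T (subquot_exact W S hS)
          omega
  exact fun W hPW hW => key _ W hPW le_rfl hW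

theorem isEven_sub_quot (W : GMod p Gal) (S : Submodule (ZMod p) W.carrier)
    (hS : ∀ (g : Gal), ∀ a ∈ S, g • a ∈ S) (h : IsEven W) :
    IsEven (W.sub S hS) ∧ IsEven (W.quot S hS) := by
  refine ⟨fun c hc v => Subtype.ext (h c hc v.1), fun c hc v => ?_⟩
  induction v using Submodule.Quotient.induction_on with
  | H a => exact congrArg Submodule.Quotient.mk (h c hc a)

/-- **Primitive totally real fields of `p`-power degree suffice.** -/
theorem muRank_eq_zero_of_totReal (hp : p ≠ 2) (hsol : HasSplitSolutions p Gal)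
    (T : LocalizedCohomology p Gal) (h1 : T.h1 (triv p Gal) = 0)
    (F : IntermediateField ℚ Om) (hF : FiniteDimensional ℚ F) (hr : IsTotReal F)
    (h : ∀ (F' : IntermediateField ℚ Om) (hF' : FiniteDimensional ℚ F') (n : ℕ),
      IsTotReal F' → IsPrimitive F' →
      Module.finrank ℚ F' = p ^ n → n ≤ Module.finrank ℚ F → muRank T F' hF' = 0) :
    muRank T F hF = 0 := by
  have hp1 : 1 < p := (Fact.out : p.Prime).one_lt
  refine h2_eq_zero_of_irred_of T IsEven isEven_sub_quot (p ^ Module.finrank ℚ F) ?_
    (fieldMod p F hF) (isEven_fieldMod hF hr) (card_fieldMod F hF).le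
  intro W hev hW hcard
  obtain ⟨z, hz, ho, hs⟩ := hsol W
  have hs' : Function.Surjective z := fun v => by
    obtain ⟨g, _, hg⟩ := hs v
    exact ⟨g, hg⟩
  have hi := index_zeroSub hz hs'
  haveI hfin : (zeroSub hz).FiniteIndex := by
    constructor
    rw [hi]
    exact Nat.card_pos.ne'
  have hH : IsOpen (zeroSub hz : Set Gal) := ho
  have hle := h2_le_perm T hz ho hs' (zeroSub hz) hH (fun h hh => hh)
  obtain ⟨n, hn⟩ : ∃ n : ℕ, Nat.card W.carrier = p ^ n := by
    refine ⟨Module.finrank (ZMod p) W.carrier, ?_⟩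
    have := Module.natCard_eq_pow_finrank (K := ZMod p) (V := W.carrier)
    rwa [Nat.card_zmod] at this
  have hnle : n ≤ Module.finrank ℚ F := by
    rw [hn] at hcard
    exact (Nat.pow_le_pow_iff_right hp1).mp hcard
  have hfix := exists_field (zeroSub hz) hH
  have hdeg : Module.finrank ℚ (IntermediateField.fixedField (zeroSub hz)) = p ^ n := by
    rw [IntermediateField.finrank_eq_fixingSubgroup_index, hfix, hi, hn]
  have hzero := h (IntermediateField.fixedField (zeroSub hz)) (finite_fixedField _ hH) n
    (isTotReal_fixedField hH fun c hc => conj_mem_zeroSub hp hev hz hc)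
    (isPrimitive_fixedField hH (isCoatom_zeroSub hW hz hs)) hdeg hnle
  unfold muRank at hzero
  rw [h2_fieldMod_fixedField T _ hH] at hzero
  omega

/-- **The inequality for totally real fields.** -/
theorem exists_totReal (hp : p ≠ 2) (hsol : HasSplitSolutions p Gal)
    (T : LocalizedCohomology p Gal) (h1 : T.h1 (triv p Gal) = 0)
    (F : IntermediateField ℚ Om) (hF : FiniteDimensional ℚ F) (hr : IsTotReal F) :
    ∃ (F' : IntermediateField ℚ Om) (hF' : FiniteDimensional ℚ F'), IsTotReal F' ∧
      Module.finrank ℚ F' = p ^ Module.finrank ℚ F ∧ muRank T F hF ≤ muRank T F' hF' := by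
  obtain ⟨z, hz, ho, hs⟩ := hsol (fieldMod p F hF)
  have hs' : Function.Surjective z := fun v => by
    obtain ⟨g, _, hg⟩ := hs v
    exact ⟨g, hg⟩
  have hi := index_zeroSub hz hs'
  haveI hfin : (zeroSub hz).FiniteIndex := by
    constructor
    rw [hi]
    exact Nat.card_pos.ne'
  have hH : IsOpen (zeroSub hz : Set Gal) := ho
  have hle := h2_le_perm T hz ho hs' (zeroSub hz) hH (fun h hh => hh)
  refine ⟨IntermediateField.fixedField (zeroSub hz), finite_fixedField _ hH,
    isTotReal_fixedField hH fun c hc => conj_mem_zeroSub hp (isEven_fieldMod hF hr) hz hc,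
    ?_, ?_⟩
  · rw [IntermediateField.finrank_eq_fixingSubgroup_index, exists_field _ hH, hi, card_fieldMod]
  · unfold muRank
    rw [h2_fieldMod_fixedField T _ hH]
    omega

end Pool.Agent.R910.Mu
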