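import Pool.Agent.R910.Mu.Rel
import Pool.Agent.R910.Mu.Real

/-!
# Irreducible modules on which the group acts through an abelian quotient
-/

set_option autoImplicit false

namespace Pool.Agent.R910.Mu

variable {p : ℕ} [Fact p.Prime] {G : Type} [Group G] [TopologicalSpace G]

/-- The group acts through an abelian quotient. -/
def ActsComm (W : GMod p G) : Prop := ∀ (g h : G) (w : W.carrier), (g * h) • w = (h * g) • w

/-- The elements acting trivially. -/
def kerAct (W : GMod p G) : Subgroup G where
  carrier := {g | ∀ w : W.carrier, g • w = w}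
  mul_mem' := by
    intro a b ha hb w
    rw [mul_smul, hb, ha]
  one_mem' := fun w => one_smul _ w
  inv_mem' := by
    intro a ha w
    rw [inv_smul_eq_iff, ha]

theorem mem_kerAct {W : GMod p G} {g : G} : g ∈ kerAct W ↔ ∀ w : W.carrier, g • w = w := Iff.rfl

theorem kerAct_open (W : GMod p G) : IsOpen (kerAct W : Set G) := by
  have : (kerAct W : Set G) = ⋂ w : W.carrier, {g : G | g • w = w} := by
    ext g
    simp [mem_kerAct]
  rw [this]
  exact isOpen_iInter_of_finite fun w => W.stab_open w

theorem kerAct_normal (W : GMod p G) : (kerAct W).Normal := by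
  constructor
  intro n hn g w
  rw [mul_smul, mul_smul, hn, smul_inv_smul]

/-- An irreducible module on which the group acts through an abelian quotient: the quotient is
cyclic. -/
theorem exists_cyclic {W : GMod p G} (hW : IsIrred W) (hc : ActsComm W) :
    ∃ d : ℕ, d ∣ Nat.card W.carrier - 1 ∧ ∃ ψ : G →* Multiplicative (ZMod d),
      Function.Surjective ψ ∧ ∀ g, ψ g = 1 ↔ g ∈ kerAct W := by
  let ρ : G →* Module.End (ZMod p) W.carrier := DistribMulAction.toModuleEnd (ZMod p) W.carrier
  have hρ : ∀ g w, ρ g w = g • w := fun _ _ => rfl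
  have hcomm : ∀ a ∈ Set.range ρ, ∀ b ∈ Set.range ρ, a * b = b * a := by
    rintro _ ⟨g, rfl⟩ _ ⟨h, rfl⟩
    rw [← map_mul, ← map_mul]
    ext w
    exact hc g h w
  let R := Algebra.adjoin (ZMod p) (Set.range ρ)
  letI : CommRing R := Algebra.adjoinCommRingOfComm (ZMod p) hcomm
  have hmem : ∀ g, ρ g ∈ R := fun g => Algebra.subset_adjoin ⟨g, rfl⟩
  have hgc : ∀ (a : R) (g : G) (w : W.carrier), a.1 (g • w) = g • a.1 w := by
    intro a g w
    have h1 : a * (⟨ρ g, hmem g⟩ : R) = (⟨ρ g, hmem g⟩ : R) * a := mul_comm _ _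
    have h2 : a.1 * ρ g = ρ g * a.1 := congrArg Subtype.val h1
    exact LinearMap.congr_fun h2 w
  -- nonzero elements are injective
  have hinj : ∀ a : R, a ≠ 0 → ∀ w : W.carrier, a.1 w = 0 → w = 0 := by
    intro a ha w hw
    rcases hW.2 (LinearMap.ker a.1) (fun g v hv => by
      rw [LinearMap.mem_ker] at hv ⊢
      rw [hgc, hv, smul_zero]) with h | h
    · have : w ∈ LinearMap.ker a.1 := hw
      rwa [h] at this
    · exact absurd (Subtype.ext (LinearMap.ker_eq_top.mp h)) ha
  haveI hnt := hW.1
  haveI : Nontrivial R := by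
    refine ⟨0, 1, fun h01 => ?_⟩
    obtain ⟨w, hw⟩ := exists_ne (0 : W.carrier)
    have h2 : ((0 : R).1 : Module.End (ZMod p) W.carrier) w = (1 : R).1 w := by rw [h01]
    exact hw h2.symm
  haveI : NoZeroDivisors R := by
    constructor
    intro a b hab
    by_cases ha : a = 0
    · exact Or.inl ha
    · right
      apply Subtype.ext
      ext w
      refine hinj a ha _ ?_
      have h2 : (a * b).1 w = (0 : R).1 w := by rw [hab]
      exact h2
  haveI : IsDomain R := NoZeroDivisors.to_isDomain R
  obtain ⟨w₀, hw₀⟩ := exists_ne (0 : W.carrier)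
  -- evaluation at a vector
  have hbij : Function.Bijective (fun a : R => a.1 w₀) := by
    constructor
    · intro a b hab
      by_contra hne
      refine hw₀ (hinj (a - b) (sub_ne_zero.mpr hne) w₀ ?_)
      have h2 : (a - b).1 w₀ = a.1 w₀ - b.1 w₀ := rfl
      rw [h2]
      exact sub_eq_zero.mpr hab
    · let S : Submodule (ZMod p) W.carrier :=
        { carrier := Set.range (fun a : R => a.1 w₀)
          add_mem' := by
            rintro _ _ ⟨a, rfl⟩ ⟨b, rfl⟩
            exact ⟨a + b, rfl⟩
          zero_mem' := ⟨0, rfl⟩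
          smul_mem' := by
            rintro c _ ⟨a, rfl⟩
            exact ⟨c • a, rfl⟩ }
      have hS : ∀ (g : G), ∀ a ∈ S, g • a ∈ S := by
        rintro g _ ⟨a, rfl⟩
        exact ⟨(⟨ρ g, hmem g⟩ : R) * a, rfl⟩
      rcases hW.2 S hS with h | h
      · exfalso
        have h1 : w₀ ∈ S := ⟨1, rfl⟩
        rw [h] at h1
        exact hw₀ h1
      · intro w
        have : w ∈ S := h ▸ Submodule.mem_top
        exact this
  haveI : Finite R := Finite.of_injective _ hbij.1
  have hcard : Nat.card R = Nat.card W.carrier := Nat.card_congr (Equiv.ofBijective _ hbij)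
  let ρ₁ : G →* R :=
    { toFun := fun g => ⟨ρ g, hmem g⟩
      map_one' := Subtype.ext (map_one ρ)
      map_mul' := fun g h => Subtype.ext (map_mul ρ g h) }
  let ρ' : G →* Rˣ := ρ₁.toHomUnits
  have hρ' : ∀ g, ρ' g = 1 ↔ g ∈ kerAct W := by
    intro g
    rw [Units.ext_iff]
    have h1 : ((ρ' g : Rˣ) : R) = ρ₁ g := rfl
    rw [h1]
    constructor
    · intro h w
      have h2 : (ρ₁ g).1 w = (1 : R).1 w := by rw [h]; rfl
      exact h2
    · intro h
      apply Subtype.ext
      ext w
      exact h w
  haveI : Finite Rˣ := inferInstance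
  have hcardU : Nat.card Rˣ = Nat.card W.carrier - 1 := by
    rw [← hcard]
    letI := (Finite.isField_of_domain R).toField
    exact Nat.card_units R
  refine ⟨Nat.card ρ'.range, ?_, ?_⟩
  · rw [← hcardU]
    exact Subgroup.card_subgroup_dvd_card _
  · haveI : IsCyclic ρ'.range := inferInstance
    let e := (zmodCyclicMulEquiv (G := ρ'.range) inferInstance).symm
    refine ⟨e.toMonoidHom.comp ρ'.rangeRestrict, ?_, fun g => ?_⟩
    · exact e.surjective.comp ρ'.rangeRestrict_surjective
    · rw [← hρ']
      change e (ρ'.rangeRestrict g) = 1 ↔ _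
      rw [map_eq_one_iff e e.injective]
      rw [Subtype.ext_iff]
      rfl

theorem actsComm_sub_quot [IsTopologicalGroup G] (W : GMod p G)
    (S : Submodule (ZMod p) W.carrier) (hS : ∀ (g : G), ∀ a ∈ S, g • a ∈ S) (h : ActsComm W) :
    ActsComm (W.sub S hS) ∧ ActsComm (W.quot S hS) := by
  refine ⟨fun g k v => Subtype.ext (h g k v.1), fun g k v => ?_⟩
  induction v using Submodule.Quotient.induction_on with
  | H a => exact congrArg Submodule.Quotient.mk (h g k a)

theorem kerAct_sub_quot [IsTopologicalGroup G] (C : Subgroup G) (W : GMod p G)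
    (S : Submodule (ZMod p) W.carrier) (hS : ∀ (g : G), ∀ a ∈ S, g • a ∈ S)
    (h : C ≤ kerAct W) : C ≤ kerAct (W.sub S hS) ∧ C ≤ kerAct (W.quot S hS) := by
  refine ⟨fun g hg v => Subtype.ext (h hg v.1), fun g hg v => ?_⟩
  induction v using Submodule.Quotient.induction_on with
  | H a => exact congrArg Submodule.Quotient.mk (h hg a)

/-- The `p`-th powers of the elements of the subgroup `C` act trivially. -/
def PowTriv (C : Subgroup G) (W : GMod p G) : Prop :=
  ∀ g ∈ C, ∀ w : W.carrier, (g ^ p) • w = w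

theorem powTriv_sub_quot [IsTopologicalGroup G] (C : Subgroup G) (W : GMod p G)
    (S : Submodule (ZMod p) W.carrier) (hS : ∀ (g : G), ∀ a ∈ S, g • a ∈ S)
    (h : PowTriv C W) : PowTriv C (W.sub S hS) ∧ PowTriv C (W.quot S hS) := by
  refine ⟨fun g hg v => Subtype.ext (h g hg v.1), fun g hg v => ?_⟩
  induction v using Submodule.Quotient.induction_on with
  | H a => exact congrArg Submodule.Quotient.mk (h g hg a)

/-- A normal subgroup with `PowTriv` acts trivially on irreducible modules. -/
theorem acts_trivially {C : Subgroup G} (hC : C.Normal) {W : GMod p G} (hW : IsIrred W)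
    (h : PowTriv C W) : ∀ g ∈ C, ∀ w : W.carrier, g • w = w := by
  -- the image of `C` in the permutations of `W`
  let φ : C →* Equiv.Perm W.carrier := (MulAction.toPermHom G W.carrier).comp C.subtype
  have hφ : ∀ (g : C) (w : W.carrier), φ g w = (g : G) • w := fun _ _ => rfl
  have hpg : IsPGroup p φ.range := by
    rintro ⟨_, ⟨g, rfl⟩⟩
    refine ⟨1, ?_⟩
    apply Subtype.ext
    rw [pow_one]
    change (φ g) ^ p = 1
    rw [← map_pow]
    ext w
    change ((g ^ p : C) : G) • w = w
    rw [Subgroup.coe_pow]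
    exact h g g.2 w
  haveI hnt := hW.1
  have hdvd : p ∣ Nat.card W.carrier := by
    have h1 := Module.natCard_eq_pow_finrank (K := ZMod p) (V := W.carrier)
    rw [Nat.card_zmod] at h1
    rw [h1]
    refine dvd_pow_self p ?_
    exact Module.finrank_pos.ne'
  haveI : Finite φ.range := inferInstance
  obtain ⟨w, hw, hw0⟩ := hpg.exists_fixed_point_of_prime_dvd_card_of_fixed_point W.carrier hdvd
    (a := 0) (by
      rintro ⟨_, ⟨g, rfl⟩⟩
      change (g : G) • (0 : W.carrier) = 0
      exact smul_zero _)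
  let S : Submodule (ZMod p) W.carrier :=
    { carrier := {v | ∀ g ∈ C, g • v = v}
      add_mem' := by
        intro a b ha hb g hg
        rw [smul_add, ha g hg, hb g hg]
      zero_mem' := fun g _ => smul_zero g
      smul_mem' := by
        intro c v hv g hg
        rw [smul_comm, hv g hg] }
  have hS : ∀ (g : G), ∀ a ∈ S, g • a ∈ S := by
    intro g a ha k hk
    have h1 : g⁻¹ * k * g ∈ C := by
      have := hC.conj_mem k hk g⁻¹
      rwa [inv_inv] at this
    have h2 := ha _ h1
    rw [mul_smul, mul_smul, inv_smul_eq_iff] at h2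
    exact h2
  have hwS : w ∈ S := fun g hg => hw ⟨φ ⟨g, hg⟩, ⟨⟨g, hg⟩, rfl⟩⟩
  rcases hW.2 S hS with h1 | h1
  · rw [h1] at hwS
    exact absurd ((Submodule.mem_bot (ZMod p)).mp hwS).symm hw0
  · intro g hg v
    have : v ∈ S := h1 ▸ Submodule.mem_top
    exact this g hg

/-- An irreducible module on which `C` acts trivially is a quotient of the functions on the
cosets of `C`. -/
theorem exists_surj_of_trivial [IsTopologicalGroup G]
    (C : Subgroup G) [C.FiniteIndex] (hCo : IsOpen (C : Set G)) {W : GMod p G} (hW : IsIrred W)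
    (h : ∀ g ∈ C, ∀ w : W.carrier, g • w = w) :
    ∃ q : GHom (perm p C hCo) W, Function.Surjective q.lin := by
  haveI : Finite (G ⧸ C) := inferInstance
  letI : Fintype (G ⧸ C) := Fintype.ofFinite _
  haveI hnt := hW.1
  obtain ⟨w₀, hw₀⟩ := exists_ne (0 : W.carrier)
  have hout : ∀ (g : G) (c : G ⧸ C), (g • c).out • w₀ = g • (c.out • w₀) := by
    intro g c
    have h1 : ((g • c).out : G ⧸ C) = ((g * c.out : G) : G ⧸ C) := by
      rw [QuotientGroup.out_eq']
      conv_lhs => rw [← QuotientGroup.out_eq' c]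
      rfl
    have h2 := QuotientGroup.eq.mp h1
    have h3 := h _ h2 w₀
    rw [mul_smul, inv_smul_eq_iff, mul_smul] at h3
    exact h3.symm
  let q : GHom (perm p C hCo) W :=
    { lin :=
        { toFun := fun f => ∑ c : G ⧸ C, (f : G ⧸ C → ZMod p) c • (c.out • w₀)
          map_add' := by
            intro f f'
            rw [← Finset.sum_add_distrib]
            refine Finset.sum_congr rfl fun c _ => ?_
            exact add_smul _ _ _
          map_smul' := by
            intro a f
            rw [RingHom.id_apply, Finset.smul_sum]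
            refine Finset.sum_congr rfl fun c _ => ?_
            exact mul_smul _ _ _ }
      equi := by
        intro g f
        change ∑ c : G ⧸ C, (f : G ⧸ C → ZMod p) (g⁻¹ • c) • (c.out • w₀) =
          g • ∑ c : G ⧸ C, (f : G ⧸ C → ZMod p) c • (c.out • w₀)
        rw [Finset.smul_sum]
        refine Fintype.sum_equiv (MulAction.toPerm g⁻¹) _ _ fun c => ?_
        change (f : G ⧸ C → ZMod p) (g⁻¹ • c) • (c.out • w₀) =
          g • ((f : G ⧸ C → ZMod p) (g⁻¹ • c) • ((g⁻¹ • c).out • w₀))
        have h5 : ∀ (a : ZMod p), a • (c.out • w₀) = g • (a • (g⁻¹ • (c.out • w₀))) := by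
          intro a
          rw [smul_comm g a, smul_inv_smul]
        rw [hout]
        exact h5 _ }
  refine ⟨q, ?_⟩
  have hr : ∀ (g : G), ∀ a ∈ LinearMap.range q.lin, g • a ∈ LinearMap.range q.lin := by
    rintro g _ ⟨f, rfl⟩
    exact ⟨g • f, q.equi g f⟩
  rcases hW.2 (LinearMap.range q.lin) hr with h1 | h1
  · exfalso
    classical
    have h2 : q.lin (Pi.single ((1 : G) : G ⧸ C) (1 : ZMod p) : G ⧸ C → ZMod p) ∈
        LinearMap.range q.lin := ⟨_, rfl⟩
    rw [h1, Submodule.mem_bot] at h2
    have h3 : q.lin (Pi.single ((1 : G) : G ⧸ C) (1 : ZMod p) : G ⧸ C → ZMod p) =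
        ((1 : G) : G ⧸ C).out • w₀ := by
      change ∑ c : G ⧸ C, (Pi.single ((1 : G) : G ⧸ C) (1 : ZMod p) : G ⧸ C → ZMod p) c •
        (c.out • w₀) = _
      rw [Finset.sum_eq_single ((1 : G) : G ⧸ C)]
      · rw [Pi.single_eq_same, one_smul]
      · intro c _ hc
        rw [Pi.single_eq_of_ne hc, zero_smul]
      · intro hc
        exact absurd (Finset.mem_univ _) hc
    rw [h3, smul_eq_zero_iff_eq] at h2
    exact hw₀ h2
  · exact LinearMap.range_eq_top.mp h1

theorem h2_le_of_trivial [IsTopologicalGroup G] (T : LocalizedCohomology p G)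
    (C : Subgroup G) [C.FiniteIndex] (hCo : IsOpen (C : Set G)) {W : GMod p G} (hW : IsIrred W)
    (h : ∀ g ∈ C, ∀ w : W.carrier, g • w = w) : T.h2 W ≤ T.h2 (perm p C hCo) := by
  obtain ⟨q, hq⟩ := exists_surj_of_trivial C hCo hW h
  exact h2_le_of_surjective T q hq

theorem finrank_le_of_cyclic [IsTopologicalGroup G] {W : GMod p G} (hW : IsIrred W) {d : ℕ}
    (hd : d ≠ 0) (ψ : G →* Multiplicative (ZMod d)) (hs : Function.Surjective ψ)
    (hψ : ∀ g, ψ g = 1 ↔ g ∈ kerAct W) : Module.finrank (ZMod p) W.carrier ≤ d := by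
  have hker : ψ.ker = kerAct W := by
    ext g
    rw [MonoidHom.mem_ker, hψ]
  have hidx : (kerAct W).index = d := by
    rw [← hker, Subgroup.index_ker, MonoidHom.range_eq_top.mpr hs]
    have h1 : Nat.card (⊤ : Subgroup (Multiplicative (ZMod d))) =
        Nat.card (Multiplicative (ZMod d)) := Subgroup.card_top
    rw [h1]
    exact Nat.card_zmod d
  haveI hfin : (kerAct W).FiniteIndex := ⟨by rw [hidx]; exact hd⟩
  obtain ⟨q, hq⟩ := exists_surj_of_trivial (kerAct W) (kerAct_open W) hW (fun g hg => hg)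
  haveI : Finite (G ⧸ kerAct W) := inferInstance
  have h1 : Nat.card W.carrier ≤ Nat.card (G ⧸ kerAct W → ZMod p) :=
    Nat.card_le_card_of_surjective (fun f : G ⧸ kerAct W → ZMod p => q.lin f) hq
  have h2 : Nat.card (G ⧸ kerAct W → ZMod p) = p ^ d := by
    rw [Nat.card_fun, Nat.card_zmod]
    congr 1
  have h3 := Module.natCard_eq_pow_finrank (K := ZMod p) (V := W.carrier)
  rw [Nat.card_zmod] at h3
  rw [h2, h3] at h1
  exact (Nat.pow_le_pow_iff_right (Fact.out : p.Prime).one_lt).mp h1

/-- **Modules with `PowTriv`** have no second cohomology if the functions on the cosets of a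
subgroup of `C` have none. -/
theorem h2_eq_zero_of_powTriv [IsTopologicalGroup G] (T : LocalizedCohomology p G)
    (C : Subgroup G) (hC : C.Normal) (D : Subgroup G) (hDC : D ≤ C) [D.FiniteIndex]
    (hDo : IsOpen (D : Set G)) (h0 : T.h2 (perm p D hDo) = 0) (W : GMod p G)
    (hW : PowTriv C W) : T.h2 W = 0 := by
  refine h2_eq_zero_of_irred_of T (PowTriv C) (powTriv_sub_quot C) (Nat.card W.carrier) ?_ W hW
    le_rfl
  intro V hV hirr _
  have := h2_le_of_trivial T D hDo hirr
    (fun g hg => acts_trivially hC hirr hV g (hDC hg))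
  omega

end Pool.Agent.R910.Mu
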