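import Pool.Agent.R910.Mu.Defs

/-!
# Dimension counts, twists, and the affine module of a crossed homomorphism
-/

set_option autoImplicit false

namespace Pool.Agent.R910.Mu

variable {p : ℕ} [Fact p.Prime] {G : Type} [Group G] [TopologicalSpace G]

section ranks

variable (T : LocalizedCohomology p G)

theorem h2_le_of_surj {A B : GMod p G} (q : GHom A B) (hq : Function.Surjective (T.map q)) :
    T.h2 B ≤ T.h2 A := by
  have := T.finite_two A
  have := T.finite_two B
  have e := LinearMap.finrank_range_le (T.map q)
  rw [LinearMap.range_eq_top.mpr hq, finrank_top] at e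
  exact e

variable {A B C : GMod p G} {i : GHom A B} {q : GHom B C}

theorem h2_quot_le (h : IsShortExact i q) : T.h2 C ≤ T.h2 B := by
  obtain ⟨d, _, _, h3⟩ := T.long_exact i q h
  exact h2_le_of_surj T q h3

theorem h2_sub_le (h : IsShortExact i q) : T.h2 A ≤ T.h2 B + T.h1 C := by
  obtain ⟨d, h1, _, _⟩ := T.long_exact i q h
  have := T.finite_two A
  have := T.finite_two B
  have := T.finite_one C
  have e1 := LinearMap.finrank_range_add_finrank_ker (T.map i)
  have e2 : Module.finrank (LaurentSeries (ZMod p)) (LinearMap.range (T.map i)) ≤ T.h2 B :=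
    Submodule.finrank_le _
  have e3 : Module.finrank (LaurentSeries (ZMod p)) (LinearMap.ker (T.map i)) ≤ T.h1 C := by
    rw [LinearMap.exact_iff.mp h1]
    exact LinearMap.finrank_range_le d
  unfold LocalizedCohomology.h2 at *
  omega

theorem h2_le_add (h : IsShortExact i q) : T.h2 B ≤ T.h2 A + T.h2 C := by
  obtain ⟨d, _, h2, _⟩ := T.long_exact i q h
  have := T.finite_two A
  have := T.finite_two B
  have := T.finite_two C
  have e1 := LinearMap.finrank_range_add_finrank_ker (T.map q)
  have e2 : Module.finrank (LaurentSeries (ZMod p)) (LinearMap.range (T.map q)) ≤ T.h2 C :=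
    Submodule.finrank_le _
  have e3 : Module.finrank (LaurentSeries (ZMod p)) (LinearMap.ker (T.map q)) ≤ T.h2 A := by
    rw [LinearMap.exact_iff.mp h2]
    exact LinearMap.finrank_range_le (T.map i)
  unfold LocalizedCohomology.h2 at *
  omega

/-- If `i` has a retraction then the dimensions add. -/
theorem h2_split (h : IsShortExact i q) (r : GHom B A) (hr : r.comp i = GHom.id A) :
    T.h2 B = T.h2 A + T.h2 C := by
  obtain ⟨d, _, h2, h3⟩ := T.long_exact i q h
  have := T.finite_two A
  have := T.finite_two B
  have := T.finite_two C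
  have e1 := LinearMap.finrank_range_add_finrank_ker (T.map q)
  rw [LinearMap.range_eq_top.mpr h3, finrank_top, LinearMap.exact_iff.mp h2] at e1
  have hinj : Function.Injective (T.map i) := by
    have : (T.map r).comp (T.map i) = LinearMap.id := by
      rw [← T.map_comp, hr, T.map_id]
    intro x y hxy
    have h := congrArg (T.map r) hxy
    have hx : (T.map r) ((T.map i) x) = x := by
      rw [← LinearMap.comp_apply, this]; rfl
    have hy : (T.map r) ((T.map i) y) = y := by
      rw [← LinearMap.comp_apply, this]; rfl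
    rw [hx, hy] at h
    exact h
  rw [LinearMap.finrank_range_of_inj hinj] at e1
  unfold LocalizedCohomology.h2
  omega

end ranks

/-- Isomorphic modules have the same second cohomology. -/
theorem h2_le_of_iso (T : LocalizedCohomology p G) {A B : GMod p G} (q : GHom A B) (r : GHom B A)
    (h : q.comp r = GHom.id B) : T.h2 B ≤ T.h2 A := by
  refine h2_le_of_surj T q fun y => ⟨T.map r y, ?_⟩
  rw [← LinearMap.comp_apply, ← T.map_comp, h, T.map_id]
  rfl

/-- The product. -/
def GMod.prod (A B : GMod p G) : GMod p G where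
  carrier := A.carrier × B.carrier
  stab_open := fun v => by
    have : {g : G | g • v = v} = {g : G | g • v.1 = v.1} ∩ {g : G | g • v.2 = v.2} := by
      ext g
      simp [Prod.ext_iff]
    rw [this]
    exact (A.stab_open v.1).inter (B.stab_open v.2)

theorem h2_prod (T : LocalizedCohomology p G) (A B : GMod p G) :
    T.h2 (A.prod B) = T.h2 A + T.h2 B := by
  let i : GHom A (A.prod B) :=
    ⟨LinearMap.inl (ZMod p) A.carrier B.carrier, fun g a => by
      change ((g • a, (0 : B.carrier)) : A.carrier × B.carrier) = g • (a, (0 : B.carrier))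
      rw [Prod.smul_mk, smul_zero]⟩
  let q : GHom (A.prod B) B := ⟨LinearMap.snd (ZMod p) A.carrier B.carrier, fun g a => rfl⟩
  let r : GHom (A.prod B) A := ⟨LinearMap.fst (ZMod p) A.carrier B.carrier, fun g a => rfl⟩
  refine h2_split T (i := i) (q := q) ⟨?_, ?_, ?_⟩ r ?_
  · exact LinearMap.inl_injective
  · intro x
    constructor
    · intro h
      refine ⟨x.1, ?_⟩
      change ((x.1, 0) : A.carrier × B.carrier) = x
      exact Prod.ext rfl h.symm
    · rintro ⟨a, rfl⟩
      rfl
  · exact LinearMap.snd_surjective
  · rfl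

/-- The powers of a module. -/
def GMod.pow (A : GMod p G) : ℕ → GMod p G
  | 0 => A
  | m + 1 => A.prod (A.pow m)

theorem h2_pow (T : LocalizedCohomology p G) (A : GMod p G) (m : ℕ) :
    T.h2 (A.pow m) = (m + 1) * T.h2 A := by
  induction m with
  | zero => simp [GMod.pow]
  | succ m ih => rw [GMod.pow, h2_prod, ih]; ring

theorem card_pow (A : GMod p G) (m : ℕ) :
    Nat.card (A.pow m).carrier = Nat.card A.carrier ^ (m + 1) := by
  induction m with
  | zero => simp [GMod.pow]
  | succ m ih =>
    rw [GMod.pow]
    change Nat.card (A.carrier × (A.pow m).carrier) = _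
    rw [Nat.card_prod, ih, pow_succ' _ (m + 1)]

/-! ### Twists -/

/-- The twisted action. -/
def twistAct (χ : G →* (ZMod p)ˣ) (A : GMod p G) : DistribMulAction G A.carrier where
  smul := fun g a => (χ g : ZMod p) • (g • a)
  one_smul := fun a => by change ((χ 1 : (ZMod p)ˣ) : ZMod p) • ((1 : G) • a) = a; simp
  mul_smul := fun g h a => by
    change ((χ (g * h) : (ZMod p)ˣ) : ZMod p) • ((g * h) • a) =
      (χ g : ZMod p) • (g • ((χ h : ZMod p) • (h • a)))
    rw [map_mul, Units.val_mul, mul_smul, mul_smul, smul_comm g (χ h : ZMod p)]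
  smul_zero := fun g => by change (χ g : ZMod p) • (g • (0 : A.carrier)) = 0; simp
  smul_add := fun g a b => by
    change (χ g : ZMod p) • (g • (a + b)) = (χ g : ZMod p) • (g • a) + (χ g : ZMod p) • (g • b)
    rw [smul_add, smul_add]

theorem twist_comm (χ : G →* (ZMod p)ˣ) (A : GMod p G) :
    letI := twistAct χ A
    SMulCommClass G (ZMod p) A.carrier := by
  letI := twistAct χ A
  constructor
  intro g c a
  have h : (χ g : ZMod p) • (A.act.smul g (c • a)) = c • ((χ g : ZMod p) • (A.act.smul g a)) := by
    have := @smul_comm G (ZMod p) A.carrier A.act.toSMul _ A.comm g c a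
    have h' : A.act.smul g (c • a) = c • A.act.smul g a := this
    rw [h', smul_comm (χ g : ZMod p) c]
  exact h

theorem twist_stab_open [IsTopologicalGroup G] (χ : G →* (ZMod p)ˣ)
    (hχ : IsOpen (χ.ker : Set G)) (A : GMod p G) (v : A.carrier) :
    letI := twistAct χ A
    IsOpen {g : G | g • v = v} := by
  letI := twistAct χ A
  have hst : {g : G | g • v = v} = (MulAction.stabilizer G v : Set G) := by
    ext g
    simp [MulAction.mem_stabilizer_iff]
  rw [hst]
  refine Subgroup.isOpen_of_mem_nhds (g := 1) _ ?_
  have h1 : {g : G | A.act.smul g v = v} ∈ nhds (1 : G) := by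
    refine (A.stab_open v).mem_nhds ?_
    exact A.act.one_smul v
  refine Filter.mem_of_superset (Filter.inter_mem (hχ.mem_nhds (Subgroup.one_mem _)) h1) ?_
  rintro g ⟨hg1, hg2⟩
  simp only [SetLike.mem_coe, MulAction.mem_stabilizer_iff]
  change (χ g : ZMod p) • (A.act.smul g v) = v
  have h1 : χ g = 1 := hg1
  have h2 : A.act.smul g v = v := hg2
  rw [h1, h2]
  simp

/-- The twist of a module by a character with open kernel. -/
def GMod.twist [IsTopologicalGroup G] (χ : G →* (ZMod p)ˣ) (hχ : IsOpen (χ.ker : Set G))
    (A : GMod p G) : GMod p G :=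
  @GMod.mk p _ G _ _ A.carrier A.grp A.mod A.fin (twistAct χ A) (twist_comm χ A)
    (twist_stab_open χ hχ A)

/-- The twist of a morphism. -/
def GHom.twist [IsTopologicalGroup G] (χ : G →* (ZMod p)ˣ) (hχ : IsOpen (χ.ker : Set G))
    {A B : GMod p G} (i : GHom A B) : GHom (A.twist χ hχ) (B.twist χ hχ) where
  lin := i.lin
  equi := fun g a => by
    have h1 : i.lin ((χ g : ZMod p) • A.act.smul g a) =
        (χ g : ZMod p) • B.act.smul g (i.lin a) := by
      rw [map_smul]
      congr 1
      exact i.equi g a
    exact h1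

theorem IsShortExact.twist [IsTopologicalGroup G] (χ : G →* (ZMod p)ˣ)
    (hχ : IsOpen (χ.ker : Set G)) {A B C : GMod p G} {i : GHom A B} {q : GHom B C}
    (h : IsShortExact i q) : IsShortExact (i.twist χ hχ) (q.twist χ hχ) := h

/-! ### The affine module of a crossed homomorphism -/

variable (V : GMod p G) (z : G → V.carrier)

/-- The action `g (a, v) = (a, g v + a z(g))`. -/
def affAct (hz : ∀ g h : G, z (g * h) = z g + g • z h) :
    DistribMulAction G (ZMod p × V.carrier) where
  smul := fun g x => (x.1, g • x.2 + x.1 • z g)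
  one_smul := fun x => by
    have h1 : z 1 = 0 := by
      have := hz 1 1
      simpa using this
    change (x.1, (1 : G) • x.2 + x.1 • z 1) = x
    rw [h1, one_smul, smul_zero, add_zero]
  mul_smul := fun g h x => by
    change (x.1, (g * h) • x.2 + x.1 • z (g * h)) =
      (x.1, g • (h • x.2 + x.1 • z h) + x.1 • z g)
    rw [hz, mul_smul, smul_add, smul_add, smul_comm g x.1 (z h)]
    congr 1
    abel
  smul_zero := fun g => by
    change ((0 : ZMod p), g • (0 : V.carrier) + (0 : ZMod p) • z g) = 0
    rw [smul_zero, zero_smul, add_zero]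
    rfl
  smul_add := fun g x y => by
    change (x.1 + y.1, g • (x.2 + y.2) + (x.1 + y.1) • z g) =
      (x.1, g • x.2 + x.1 • z g) + (y.1, g • y.2 + y.1 • z g)
    rw [smul_add, add_smul, Prod.mk_add_mk]
    congr 1
    abel

theorem aff_comm (hz : ∀ g h : G, z (g * h) = z g + g • z h) :
    letI := affAct V z hz
    SMulCommClass G (ZMod p) (ZMod p × V.carrier) := by
  letI := affAct V z hz
  constructor
  intro g c x
  change (c • x.1, g • (c • x.2) + (c • x.1) • z g) = (c • x.1, c • (g • x.2 + x.1 • z g))
  rw [smul_add, smul_comm g c, smul_assoc]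

theorem aff_stab_open [IsTopologicalGroup G] (hz : ∀ g h : G, z (g * h) = z g + g • z h)
    (ho : IsOpen {g : G | z g = 0}) (x : ZMod p × V.carrier) :
    letI := affAct V z hz
    IsOpen {g : G | g • x = x} := by
  letI := affAct V z hz
  have hst : {g : G | g • x = x} = (MulAction.stabilizer G x : Set G) := by
    ext g
    simp [MulAction.mem_stabilizer_iff]
  rw [hst]
  refine Subgroup.isOpen_of_mem_nhds (g := 1) _ ?_
  have h0 : z 1 = 0 := by
    have := hz 1 1
    simpa using this
  refine Filter.mem_of_superset (Filter.inter_mem (ho.mem_nhds h0)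
    ((V.stab_open x.2).mem_nhds (one_smul G x.2))) ?_
  rintro g ⟨hg1, hg2⟩
  simp only [SetLike.mem_coe, MulAction.mem_stabilizer_iff]
  change (x.1, g • x.2 + x.1 • z g) = x
  have h1 : z g = 0 := hg1
  have h2 : g • x.2 = x.2 := hg2
  rw [h1, h2, smul_zero, add_zero]

/-- The affine module: the extension of the trivial module by `V` defined by the crossed
homomorphism `z`. -/
def aff [IsTopologicalGroup G] (hz : ∀ g h : G, z (g * h) = z g + g • z h)
    (ho : IsOpen {g : G | z g = 0}) : GMod p G :=
  letI := affAct V z hz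
  { carrier := ZMod p × V.carrier
    comm := aff_comm V z hz
    stab_open := aff_stab_open V z hz ho }

/-- The inclusion of `V` into the affine module. -/
def affInl [IsTopologicalGroup G] (hz : ∀ g h : G, z (g * h) = z g + g • z h)
    (ho : IsOpen {g : G | z g = 0}) : GHom V (aff V z hz ho) where
  lin := LinearMap.inr (ZMod p) (ZMod p) V.carrier
  equi := fun g v => by
    change ((0 : ZMod p), g • v) = ((0 : ZMod p), g • v + (0 : ZMod p) • z g)
    rw [zero_smul, add_zero]

/-- The projection of the affine module to the trivial module. -/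
def affProj [IsTopologicalGroup G] (hz : ∀ g h : G, z (g * h) = z g + g • z h)
    (ho : IsOpen {g : G | z g = 0}) : GHom (aff V z hz ho) (triv p G) where
  lin := LinearMap.fst (ZMod p) (ZMod p) V.carrier
  equi := fun g v => rfl

theorem aff_exact [IsTopologicalGroup G] (hz : ∀ g h : G, z (g * h) = z g + g • z h)
    (ho : IsOpen {g : G | z g = 0}) : IsShortExact (affInl V z hz ho) (affProj V z hz ho) := by
  refine ⟨LinearMap.inr_injective, ?_, fun c => ⟨((c : ZMod p), (0 : V.carrier)), rfl⟩⟩
  intro x
  constructor
  · intro h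
    refine ⟨x.2, ?_⟩
    change (((0 : ZMod p), x.2) : ZMod p × V.carrier) = x
    exact Prod.ext h.symm rfl
  · rintro ⟨a, rfl⟩
    rfl

end Pool.Agent.R910.Mu
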