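import Pool.Agent.R910.Mu.Companion

/-!
# Companion fields of totally real fields
-/

set_option autoImplicit false

namespace Pool.Agent.R910.Mu

variable {p : ℕ} [Fact p.Prime]

/-- An elementary abelian `p`-extension of a totally real field is totally real, `p` odd. -/
theorem isTotReal_of_elem (hp : p ≠ 2) {K M : IntermediateField ℚ Om} {b : ℕ}
    (hK : IsTotReal K) (hel : IsElemOver p K M b) : IsTotReal M := by
  rw [isTotReal_iff] at hK ⊢
  intro c hc
  obtain ⟨_, z, hz, _, hk⟩ := hel
  let c' : GalRel K := ⟨c, hK c hc⟩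
  have h1 : z 1 = 0 := by
    have := hz 1 1
    simpa using this
  have hcc : c' * c' = 1 := Subtype.ext hc.sq
  have h2 : (2 : ZMod p) • z c' = 0 := by
    have := hz c' c'
    rw [hcc, h1] at this
    rw [two_smul]
    exact this.symm
  have h3 : (2 : ZMod p) ≠ 0 := by
    intro h0
    have : ((2 : ℕ) : ZMod p) = 0 := by exact_mod_cast h0
    rw [ZMod.natCast_eq_zero_iff] at this
    exact hp ((Nat.prime_dvd_prime_iff_eq Fact.out Nat.prime_two).mp this)
  have h4 : z c' = 0 := (smul_eq_zero.mp h2).resolve_left h3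
  exact (hk c').mpr h4

theorem IsTotReal.mono {F M : IntermediateField ℚ Om} (h : F ≤ M) (hM : IsTotReal M) :
    IsTotReal F := fun σ x hx => hM σ x (h hx)

end Pool.Agent.R910.Mu
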