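import Pool.Agent.R910.Mu.RelGrowth

/-!
# Companion fields of Galois extensions
-/

set_option autoImplicit false

namespace Pool.Agent.R910.Mu

variable {p : ℕ} [Fact p.Prime]

section pow

variable {G : Type} [Group G] [TopologicalSpace G]

theorem kerAct_pow (W : GMod p G) (m : ℕ) : kerAct (W.pow m) = kerAct W := by
  induction m with
  | zero => rfl
  | succ m ih =>
    ext g
    constructor
    · intro h w
      exact congrArg Prod.fst (h ((w, (0 : (W.pow m).carrier)) : W.carrier × (W.pow m).carrier))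
    · intro h v
      have h2 : g ∈ kerAct (W.pow m) := ih ▸ h
      exact Prod.ext (h v.1) (h2 v.2)

/-- The functions on the cosets map onto the trivial module. -/
theorem h2_triv_le [IsTopologicalGroup G] (T : LocalizedCohomology p G) (H : Subgroup G)
    [H.FiniteIndex] (hH : IsOpen (H : Set G)) : T.h2 (triv p G) ≤ T.h2 (perm p H hH) := by
  haveI : Finite (G ⧸ H) := inferInstance
  letI : Fintype (G ⧸ H) := Fintype.ofFinite _
  let q : GHom (perm p H hH) (triv p G) :=
    { lin :=
        { toFun := fun f => ∑ c : G ⧸ H, (f : G ⧸ H → ZMod p) c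
          map_add' := fun f f' => Finset.sum_add_distrib
          map_smul' := fun a f => by
            change ∑ c : G ⧸ H, a * (f : G ⧸ H → ZMod p) c = a * ∑ c : G ⧸ H, _
            rw [Finset.mul_sum] }
      equi := fun g f => by
        change ∑ c : G ⧸ H, (f : G ⧸ H → ZMod p) (g⁻¹ • c) = ∑ c : G ⧸ H, _
        exact Fintype.sum_equiv (MulAction.toPerm g⁻¹) _ _ fun c => rfl }
  refine h2_le_of_surjective T q ?_
  classical
  intro a
  refine ⟨(Pi.single ((1 : G) : G ⧸ H) a : G ⧸ H → ZMod p), ?_⟩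
  change ∑ c : G ⧸ H, (Pi.single ((1 : G) : G ⧸ H) a : G ⧸ H → ZMod p) c = a
  rw [Finset.sum_pi_single']
  simp

end pow

theorem kerAct_permRel_eq {k K : IntermediateField ℚ Om} (hK : FiniteDimensional ℚ K)
    (hn : (relSub k K).Normal) : kerAct (permRel p k K hK) = relSub k K := by
  refine le_antisymm ?_ (kerAct_permRel hK hn)
  classical
  intro g hg
  have h1 := hg (Pi.single ((1 : GalRel k) : GalRel k ⧸ relSub k K) (1 : ZMod p) :
    GalRel k ⧸ relSub k K → ZMod p)
  have h2 := congrFun (f := (fun c : GalRel k ⧸ relSub k K =>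
    (Pi.single ((1 : GalRel k) : GalRel k ⧸ relSub k K) (1 : ZMod p) :
      GalRel k ⧸ relSub k K → ZMod p) (g⁻¹ • c))) h1 ((g : GalRel k) : GalRel k ⧸ relSub k K)
  have h3 : (g⁻¹ • ((g : GalRel k) : GalRel k ⧸ relSub k K)) = ((1 : GalRel k) :
      GalRel k ⧸ relSub k K) := by
    change ((g⁻¹ * g : GalRel k) : GalRel k ⧸ relSub k K) = _
    rw [inv_mul_cancel]
  simp only [h3, Pi.single_eq_same] at h2
  by_contra hgK
  have hne : ((g : GalRel k) : GalRel k ⧸ relSub k K) ≠ ((1 : GalRel k) :
      GalRel k ⧸ relSub k K) := by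
    intro h
    have := QuotientGroup.eq.mp h
    rw [mul_one] at this
    exact hgK (inv_mem_iff.mp this)
  rw [Pi.single_eq_of_ne hne] at h2
  exact one_ne_zero h2

/-- **Companion fields.** -/
theorem exists_companion {k : IntermediateField ℚ Om} (hk : FiniteDimensional ℚ k)
    (hsol : HasSplitSolutions p (GalRel k)) (T : LocalizedCohomology p (GalRel k))
    (K : IntermediateField ℚ Om) (hK : FiniteDimensional ℚ K) (hkK : k ≤ K)
    (hn : (relSub k K).Normal) (m : ℕ) :
    ∃ (F : IntermediateField ℚ Om) (hF : FiniteDimensional ℚ F), k ≤ F ∧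
      Module.finrank ℚ F = p ^ ((m + 1) * (relSub k K).index) * Module.finrank ℚ k ∧
      IsElemOver p K (F ⊔ K) ((m + 1) * (relSub k K).index) ∧ (relSub k (F ⊔ K)).Normal ∧
      (m + 1) * T.h2 (permRel p k K hK) ≤
        T.h2 (permRel p k F hF) + T.h1 (triv p (GalRel k)) ∧
      (T.h2 (permRel p k K hK) = 0 → T.h2 (permRel p k F hF) = 0) := by
  haveI hfinK := relSub_finiteIndex k K hK
  let W := permRel p k K hK
  let V := W.pow m
  obtain ⟨z, hz, ho, hs⟩ := hsol V
  have hs' : Function.Surjective z := fun v => by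
    obtain ⟨g, _, hg⟩ := hs v
    exact ⟨g, hg⟩
  have hi := index_zeroSub hz hs'
  haveI hfin : (zeroSub hz).FiniteIndex := by
    constructor
    rw [hi]
    exact Nat.card_pos.ne'
  have hH : IsOpen (zeroSub hz : Set (GalRel k)) := ho
  have hle := h2_le_perm T hz ho hs' (zeroSub hz) hH (fun h hh => hh)
  obtain ⟨F, hF, hkF, hFH⟩ := exists_rel hk (zeroSub hz) hH
  have hker : kerAct V = relSub k K := by
    rw [kerAct_pow, kerAct_permRel_eq hK hn]
  have hcardV : Nat.card V.carrier = p ^ ((m + 1) * (relSub k K).index) := by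
    rw [card_pow, card_permRel, ← pow_mul, mul_comm (m + 1)]
  have hfr : Module.finrank (ZMod p) V.carrier = (m + 1) * (relSub k K).index := by
    have h1 := Module.natCard_eq_pow_finrank (K := ZMod p) (V := V.carrier)
    rw [Nat.card_zmod, hcardV] at h1
    exact (Nat.pow_right_injective (Fact.out : p.Prime).two_le h1).symm
  have htriv : ∀ g : GalRel k, g ∈ relSub k K → ∀ v : V.carrier, g • v = v := by
    intro g hg
    rw [← hker] at hg
    exact hg
  have h1 : z 1 = 0 := by
    have := hz 1 1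
    simpa using this
  have hel : IsElemOver p K (F ⊔ K) ((m + 1) * (relSub k K).index) := by
    refine ⟨le_sup_right, ?_⟩
    let e := (Module.finBasisOfFinrankEq (ZMod p) V.carrier hfr).equivFun
    refine ⟨fun g => e (z (relIncl hkK g)), ?_, ?_, ?_⟩
    · intro g g'
      change e (z (relIncl hkK (g * g'))) = e (z (relIncl hkK g)) + e (z (relIncl hkK g'))
      rw [relIncl_mul, hz, htriv _ (relIncl_mem hkK g), map_add]
    · intro v
      obtain ⟨g, hg, hgv⟩ := hs (e.symm v)
      have hgK : g ∈ relSub k K := hker ▸ hg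
      obtain ⟨g', rfl⟩ := exists_relIncl hkK hgK
      refine ⟨g', ?_⟩
      change e (z (relIncl hkK g')) = v
      rw [hgv, LinearEquiv.apply_symm_apply]
    · intro g
      have h2 : g ∈ relSub K (F ⊔ K) ↔ relIncl hkK g ∈ relSub k F := by
        rw [mem_relSub, IntermediateField.fixingSubgroup_sup, Subgroup.mem_inf]
        exact ⟨fun h => h.1, fun h => ⟨h, g.2⟩⟩
      rw [h2, hFH, mem_zeroSub]
      change _ ↔ e (z (relIncl hkK g)) = 0
      rw [LinearEquiv.map_eq_zero_iff]
  refine ⟨F, hF, hkF, ?_, hel, ?_, ?_, ?_⟩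
  · rw [← index_relSub hkF, hFH, hi, hcardV]
  · rw [relSub_sup, hFH]
    constructor
    rintro g ⟨hg1, hg2⟩ x
    have hnn := hn.conj_mem g hg2 x
    refine ⟨?_, hnn⟩
    have hg0 : z g = 0 := hg1
    have hx : z (x * g) = z x := by
      rw [hz, hg0, smul_zero, add_zero]
    have hxx : z (x * g * x⁻¹) = z x + (x * g) • z x⁻¹ := by
      rw [hz, hx]
    have h3 : (x * g) • z x⁻¹ = x • z x⁻¹ := by
      rw [mul_smul]
      congr 1
      exact htriv g hg2 _
    have h4 := hz x x⁻¹
    rw [mul_inv_cancel, h1] at h4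
    change z (x * g * x⁻¹) = 0
    rw [hxx, h3, ← h4]
  · rw [h2_permRel_eq T F hF _ hH hFH, ← h2_pow]
    exact hle
  · intro h0
    exact h2_eq_zero_of_powTriv T (relSub k K) hn (relSub k K) le_rfl (relSub_open k K hK) h0 _
      (powTriv_permRel hF hkK hn hel)

end Pool.Agent.R910.Mu
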