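import Pool.Agent.R910.Mu.Alg

/-!
# Permutation modules and the affine module of a crossed homomorphism
-/

set_option autoImplicit false

namespace Pool.Agent.R910.Mu

variable {p : ℕ} [Fact p.Prime] {G : Type} [Group G] [TopologicalSpace G]

/-! ### Submodules -/

/-- The action on a stable submodule. -/
def subAct (A : GMod p G) (S : Submodule (ZMod p) A.carrier)
    (hS : ∀ (g : G), ∀ a ∈ S, g • a ∈ S) : DistribMulAction G S where
  smul := fun g a => ⟨g • a.1, hS g a.1 a.2⟩
  one_smul := fun a => Subtype.ext (one_smul G a.1)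
  mul_smul := fun g h a => Subtype.ext (mul_smul g h a.1)
  smul_zero := fun g => Subtype.ext (smul_zero g)
  smul_add := fun g a b => Subtype.ext (smul_add g a.1 b.1)

/-- A stable submodule as a module. -/
def GMod.sub (A : GMod p G) (S : Submodule (ZMod p) A.carrier)
    (hS : ∀ (g : G), ∀ a ∈ S, g • a ∈ S) : GMod p G :=
  letI := subAct A S hS
  { carrier := S
    comm := ⟨fun g c a => Subtype.ext (smul_comm g c a.1)⟩
    stab_open := fun v => by
      have : {g : G | g • v = v} = {g : G | g • v.1 = v.1} := by
        ext g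
        simp only [Set.mem_setOf_eq]
        exact Subtype.ext_iff
      rw [this]
      exact A.stab_open v.1 }

/-- The action on the quotient by a stable submodule. -/
def quotAct (A : GMod p G) (S : Submodule (ZMod p) A.carrier)
    (hS : ∀ (g : G), ∀ a ∈ S, g • a ∈ S) : DistribMulAction G (A.carrier ⧸ S) where
  smul := fun g => S.mapQ S (DistribSMul.toLinearMap (ZMod p) A.carrier g) (hS g)
  one_smul := fun a => by
    induction a using Submodule.Quotient.induction_on with
    | H a => exact congrArg Submodule.Quotient.mk (one_smul G a)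
  mul_smul := fun g h a => by
    induction a using Submodule.Quotient.induction_on with
    | H a => exact congrArg Submodule.Quotient.mk (mul_smul g h a)
  smul_zero := fun g => congrArg Submodule.Quotient.mk (smul_zero (A := A.carrier) g)
  smul_add := fun g a b => map_add _ a b

theorem quot_stab_open [IsTopologicalGroup G] (A : GMod p G) (S : Submodule (ZMod p) A.carrier)
    (hS : ∀ (g : G), ∀ a ∈ S, g • a ∈ S) (v : A.carrier ⧸ S) :
    letI := quotAct A S hS
    IsOpen {g : G | g • v = v} := by
  letI := quotAct A S hS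
  induction v using Submodule.Quotient.induction_on with
  | H a =>
    have hst : {g : G | g • (Submodule.Quotient.mk a : A.carrier ⧸ S) = Submodule.Quotient.mk a} =
        (MulAction.stabilizer G (Submodule.Quotient.mk a : A.carrier ⧸ S) : Set G) := by
      ext g
      simp [MulAction.mem_stabilizer_iff]
    rw [hst]
    refine Subgroup.isOpen_of_mem_nhds (g := 1) _ ?_
    refine Filter.mem_of_superset ((A.stab_open a).mem_nhds (one_smul G a)) ?_
    intro g hg
    simp only [SetLike.mem_coe, MulAction.mem_stabilizer_iff]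
    exact congrArg Submodule.Quotient.mk hg

/-- The quotient by a stable submodule. -/
def GMod.quot [IsTopologicalGroup G] (A : GMod p G) (S : Submodule (ZMod p) A.carrier)
    (hS : ∀ (g : G), ∀ a ∈ S, g • a ∈ S) : GMod p G :=
  letI := quotAct A S hS
  { carrier := A.carrier ⧸ S
    fin := Finite.of_surjective _ (Submodule.mkQ_surjective S)
    comm := ⟨fun g c a => by
      induction a using Submodule.Quotient.induction_on with
      | H a => exact congrArg Submodule.Quotient.mk (smul_comm g c a)⟩
    stab_open := quot_stab_open A S hS }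

/-- The inclusion of a stable submodule. -/
def subIncl (A : GMod p G) (S : Submodule (ZMod p) A.carrier)
    (hS : ∀ (g : G), ∀ a ∈ S, g • a ∈ S) : GHom (A.sub S hS) A where
  lin := S.subtype
  equi := fun _ _ => rfl

/-- The projection to the quotient by a stable submodule. -/
def quotProj [IsTopologicalGroup G] (A : GMod p G) (S : Submodule (ZMod p) A.carrier)
    (hS : ∀ (g : G), ∀ a ∈ S, g • a ∈ S) : GHom A (A.quot S hS) where
  lin := S.mkQ
  equi := fun _ _ => rfl

theorem subquot_exact [IsTopologicalGroup G] (A : GMod p G) (S : Submodule (ZMod p) A.carrier)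
    (hS : ∀ (g : G), ∀ a ∈ S, g • a ∈ S) : IsShortExact (subIncl A S hS) (quotProj A S hS) := by
  refine ⟨S.injective_subtype, ?_, S.mkQ_surjective⟩
  intro x
  change Submodule.Quotient.mk x = 0 ↔ x ∈ Set.range S.subtype
  rw [Submodule.Quotient.mk_eq_zero]
  simp

/-- The second cohomology does not increase along surjections of modules. -/
theorem h2_le_of_surjective (T : LocalizedCohomology p G) {A B : GMod p G} (q : GHom A B)
    (hq : Function.Surjective q.lin) : T.h2 B ≤ T.h2 A := by
  have hS : ∀ (g : G), ∀ a ∈ LinearMap.ker q.lin, g • a ∈ LinearMap.ker q.lin := by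
    intro g a ha
    rw [LinearMap.mem_ker] at ha ⊢
    rw [q.equi, ha, smul_zero]
  refine h2_quot_le T (i := subIncl A (LinearMap.ker q.lin) hS) (q := q) ⟨?_, ?_, hq⟩
  · exact Submodule.injective_subtype _
  · intro x
    change q.lin x = 0 ↔ x ∈ Set.range (LinearMap.ker q.lin).subtype
    simp

/-! ### The permutation module maps onto the twisted affine module -/

section

variable [IsTopologicalGroup G] (V : GMod p G) (z : G → V.carrier)
  (hz : ∀ g h : G, z (g * h) = z g + g • z h) (ho : IsOpen {g : G | z g = 0})
  (χ : G →* (ZMod p)ˣ) (hχ : IsOpen (χ.ker : Set G))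
  (H : Subgroup G) [H.FiniteIndex] (hH : IsOpen (H : Set G))

/-- The vector attached to a coset. -/
noncomputable def vec (c : G ⧸ H) : ZMod p × V.carrier :=
  (χ c.out : ZMod p) • (1, z c.out)

variable {V z χ H} in
theorem vec_mk (hz : ∀ g h : G, z (g * h) = z g + g • z h) (h1 : ∀ h ∈ H, χ h = 1)
    (h2 : ∀ h ∈ H, z h = 0) (g : G) :
    vec V z χ H (g : G ⧸ H) = (χ g : ZMod p) • ((1 : ZMod p), z g) := by
  obtain ⟨h, hh⟩ := QuotientGroup.mk_out_eq_mul H g
  unfold vec
  rw [hh, map_mul, h1 h.1 h.2, mul_one, hz, h2 h.1 h.2, smul_zero, add_zero]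

/-- The linear map from the permutation module. -/
noncomputable def permLin [Fintype (G ⧸ H)] :
    (G ⧸ H → ZMod p) →ₗ[ZMod p] (ZMod p × V.carrier) :=
  Fintype.linearCombination (ZMod p) (vec V z χ H)

variable {V z χ H} in
theorem permLin_surjective [Fintype (G ⧸ H)] (hz : ∀ g h : G, z (g * h) = z g + g • z h)
    (h1 : ∀ h ∈ H, χ h = 1) (h2 : ∀ h ∈ H, z h = 0)
    (hs : Function.Surjective z) : Function.Surjective (permLin V z χ H) := by
  classical
  rw [← LinearMap.range_eq_top, permLin, Fintype.range_linearCombination]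
  rw [eq_top_iff]
  have key : ∀ v : V.carrier, ((1 : ZMod p), v) ∈
      Submodule.span (ZMod p) (Set.range (vec V z χ H)) := by
    intro v
    obtain ⟨g, rfl⟩ := hs v
    have : ((1 : ZMod p), z g) = ((χ g)⁻¹ : (ZMod p)ˣ) • vec V z χ H (g : G ⧸ H) := by
      rw [vec_mk hz h1 h2, Units.smul_def, smul_smul, Units.inv_mul, one_smul]
    rw [this, Units.smul_def]
    exact Submodule.smul_mem _ _ (Submodule.subset_span ⟨_, rfl⟩)
  rintro ⟨a, v⟩ -
  have : ((a, v) : ZMod p × V.carrier) = (a - 1) • ((1 : ZMod p), (0 : V.carrier)) +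
      ((1 : ZMod p), v) := by
    simp
  rw [this]
  exact Submodule.add_mem _ (Submodule.smul_mem _ _ (key 0)) (key v)

variable {V z χ H} in
/-- The morphism from the permutation module to the twisted affine module. -/
noncomputable def permToAff [Fintype (G ⧸ H)] (h1 : ∀ h ∈ H, χ h = 1) (h2 : ∀ h ∈ H, z h = 0) :
    GHom (perm p H hH) ((aff V z hz ho).twist χ hχ) where
  lin := permLin V z χ H
  equi := fun g f => by
    have hvec : ∀ c : G ⧸ H, vec V z χ H (g • c) =
        (χ g : ZMod p) • (affAct V z hz).smul g (vec V z χ H c) := by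
      intro c
      induction c using QuotientGroup.induction_on with
      | H x =>
        rw [vec_mk hz h1 h2]
        change vec V z χ H ((g * x : G) : G ⧸ H) = (χ g : ZMod p) •
          (((χ x : ZMod p) • ((1 : ZMod p), z x)).1,
            g • ((χ x : ZMod p) • ((1 : ZMod p), z x)).2 +
              ((χ x : ZMod p) • ((1 : ZMod p), z x)).1 • z g)
        rw [vec_mk hz h1 h2, hz, map_mul]
        simp only [Prod.smul_mk, smul_eq_mul, mul_one, Units.val_mul]
        congr 1
        rw [smul_comm g (χ x : ZMod p), ← smul_add, smul_smul, add_comm]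
    have hlin : permLin V z χ H (fun c => f (g⁻¹ • c)) =
        ∑ c : G ⧸ H, f c • vec V z χ H (g • c) := by
      unfold permLin
      rw [Fintype.linearCombination_apply]
      rw [← Equiv.sum_comp (MulAction.toPerm g : Equiv.Perm (G ⧸ H))]
      refine Finset.sum_congr rfl fun c _ => ?_
      simp
    change permLin V z χ H (fun c => f (g⁻¹ • c)) =
      (χ g : ZMod p) • (affAct V z hz).smul g (permLin V z χ H f)
    rw [hlin]
    letI := affAct V z hz
    letI := aff_comm V z hz
    change _ = (χ g : ZMod p) • (DistribSMul.toLinearMap (ZMod p) (ZMod p × V.carrier) g)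
      (permLin V z χ H f)
    unfold permLin
    rw [Fintype.linearCombination_apply, map_sum, Finset.smul_sum]
    refine Finset.sum_congr rfl fun c _ => ?_
    rw [hvec, map_smul, smul_comm (χ g : ZMod p) (f c)]
    rfl

include hz ho in
/-- **The comparison.** -/
theorem h2_twist_le (T : LocalizedCohomology p G)
    (h1 : ∀ h ∈ H, χ h = 1) (h2 : ∀ h ∈ H, z h = 0) (hs : Function.Surjective z) :
    T.h2 (V.twist χ hχ) ≤ T.h2 (perm p H hH) + T.h1 ((triv p G).twist χ hχ) := by
  haveI : Finite (G ⧸ H) := inferInstance
  letI : Fintype (G ⧸ H) := Fintype.ofFinite _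
  have e1 := h2_sub_le T ((aff_exact V z hz ho).twist χ hχ)
  have e2 := h2_le_of_surjective T (permToAff hz ho hχ hH h1 h2) (permLin_surjective hz h1 h2 hs)
  omega

end

end Pool.Agent.R910.Mu
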