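import Mathlib

/-!
# Numbers of exponent vectors: definitions
-/

set_option autoImplicit false

namespace Pool.Agent.R910.Mu

variable {p : ℕ}

/-- The degree of an exponent vector. -/
def deg {b : ℕ} (α : Fin b → Fin p) : ℕ := ∑ i, (α i : ℕ)

variable (p) in
/-- The number of vectors of length `b` with entries `0, …, p - 1` and sum less than `n`. -/
noncomputable def countLt (b n : ℕ) : ℕ := Nat.card {α : Fin b → Fin p // deg α < n}

variable (p) in
/-- The number of vectors of length `b` with entries `0, …, p - 1` and sum `n`. -/
noncomputable def countEq (b n : ℕ) : ℕ := Nat.card {α : Fin b → Fin p // deg α = n}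

end Pool.Agent.R910.Mu
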