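import Pool.Agent.R910.Mu.Over
import Pool.Agent.R910.Mu.CountDefs

/-!
# The dimensions of the spaces of polynomial functions
-/

set_option autoImplicit false

namespace Pool.Agent.R910.Mu

variable {p : ℕ} [Fact p.Prime]

/-- The reduced monomial functions. -/
def mono {b : ℕ} (α : Fin b → Fin p) : (Fin b → ZMod p) → ZMod p :=
  ∏ i, coord (p := p) i ^ (α i : ℕ)

theorem span_mono_top (b : ℕ) :
    Submodule.span (ZMod p) (Set.range (mono (p := p) (b := b))) = ⊤ := by
  rw [eq_top_iff]
  intro f _
  have htop := MvPolynomial.map_restrict_dom_evalₗ (ZMod p) (Fin b)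
  have hf : f ∈ (MvPolynomial.restrictDegree (Fin b) (ZMod p)
      (Fintype.card (ZMod p) - 1)).map (MvPolynomial.evalₗ (ZMod p) (Fin b)) := by
    rw [htop]
    exact Submodule.mem_top
  obtain ⟨q, hq, rfl⟩ := hf
  have hq' := (MvPolynomial.mem_restrictDegree (Fin b) q _).mp hq
  have hexp : MvPolynomial.evalₗ (ZMod p) (Fin b) q =
      ∑ α ∈ q.support, (q.coeff α) • ∏ i, coord (p := p) i ^ α i := by
    funext x
    rw [MvPolynomial.evalₗ_apply, MvPolynomial.eval_eq']
    simp [Finset.sum_apply, coord, Finset.prod_apply]
  rw [hexp]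
  refine Submodule.sum_mem _ fun α hα => Submodule.smul_mem _ _ (Submodule.subset_span ?_)
  have hp1 : 0 < p := (Fact.out : p.Prime).pos
  have h1 : ∀ i, α i < p := by
    intro i
    have := hq' α hα i
    rw [ZMod.card] at this
    omega
  exact ⟨fun i => ⟨α i, h1 i⟩, rfl⟩

theorem linearIndependent_mono (b : ℕ) :
    LinearIndependent (ZMod p) (mono (p := p) (b := b)) := by
  refine linearIndependent_of_top_le_span_of_card_eq_finrank (span_mono_top b).ge ?_
  rw [Module.finrank_pi]
  simp

theorem coord_mul_mono {b : ℕ} (i : Fin b) (α : Fin b → Fin p) :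
    ∃ β : Fin b → Fin p, coord i * mono α = mono β ∧ deg β ≤ deg α + 1 := by
  have hp2 : 2 ≤ p := (Fact.out : p.Prime).two_le
  -- the new exponent at `i`
  obtain ⟨e, he, hle⟩ : ∃ e : Fin p, coord (p := p) i * coord i ^ (α i : ℕ) = coord i ^ (e : ℕ) ∧
      (e : ℕ) ≤ (α i : ℕ) + 1 := by
    by_cases h : (α i : ℕ) + 1 < p
    · exact ⟨⟨(α i : ℕ) + 1, h⟩, (pow_succ' _ _).symm, le_rfl⟩
    · have hα : (α i : ℕ) + 1 = p := by
        have := (α i).2
        omega
      refine ⟨⟨1, by omega⟩, ?_, by simp⟩
      rw [← pow_succ', hα]
      funext x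
      change x i ^ p = x i ^ 1
      rw [pow_one]
      exact ZMod.pow_card (x i)
  refine ⟨Function.update α i e, ?_, ?_⟩
  · unfold mono
    rw [← Finset.mul_prod_erase Finset.univ (fun j => coord (p := p) j ^ (α j : ℕ))
        (Finset.mem_univ i),
      ← Finset.mul_prod_erase Finset.univ
        (fun j => coord (p := p) j ^ (Function.update α i e j : ℕ)) (Finset.mem_univ i),
      ← mul_assoc, he, Function.update_self]
    congr 1
    refine Finset.prod_congr rfl fun j hj => ?_
    rw [Function.update_of_ne (Finset.ne_of_mem_erase hj)]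
  · unfold deg
    rw [← Finset.add_sum_erase Finset.univ (fun j => (α j : ℕ)) (Finset.mem_univ i),
      ← Finset.add_sum_erase Finset.univ (fun j => (Function.update α i e j : ℕ))
        (Finset.mem_univ i), Function.update_self]
    have h3 : ∑ j ∈ Finset.univ.erase i, (Function.update α i e j : ℕ) =
        ∑ j ∈ Finset.univ.erase i, (α j : ℕ) := by
      refine Finset.sum_congr rfl fun j hj => ?_
      rw [Function.update_of_ne (Finset.ne_of_mem_erase hj)]
    rw [h3]
    omega

theorem polys_eq_span (b n : ℕ) :
    polys p b n = Submodule.span (ZMod p) (mono '' {α : Fin b → Fin p | deg α < n}) := by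
  apply le_antisymm
  · induction n with
    | zero => exact bot_le
    | succ n ih =>
      refine sup_le ?_ (sup_le ?_ ?_)
      · rw [Submodule.span_singleton_le_iff_mem]
        refine Submodule.subset_span ⟨fun _ => ⟨0, (Fact.out : p.Prime).pos⟩, ?_, ?_⟩
        · simp [deg]
        · simp [mono]
      · refine ih.trans (Submodule.span_mono (Set.image_mono fun α hα => ?_))
        exact Nat.lt_succ_of_lt hα
      · refine iSup_le fun i => ?_
        refine (Submodule.map_mono ih).trans ?_
        rw [Submodule.map_span, Submodule.span_le]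
        rintro _ ⟨_, ⟨α, hα, rfl⟩, rfl⟩
        obtain ⟨β, hβ, hdeg⟩ := coord_mul_mono i α
        refine Submodule.subset_span ⟨β, ?_, ?_⟩
        · have : deg α < n := hα
          simp only [Set.mem_setOf_eq]
          omega
        · exact hβ.symm
  · rw [Submodule.span_le]
    rintro _ ⟨α, hα, rfl⟩
    have hα' : deg α < n := hα
    obtain ⟨m, rfl⟩ : ∃ m, n = m + 1 := ⟨n - 1, by omega⟩
    refine monomial_mem b m (fun i => (α i : ℕ)) ?_
    exact Nat.lt_succ_iff.mp hα'

theorem finrank_polys (b n : ℕ) : Module.finrank (ZMod p) (polys p b n) = countLt p b n := by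
  rw [polys_eq_span]
  have h : LinearIndependent (ZMod p)
      (fun α : {α : Fin b → Fin p | deg α < n} => mono (p := p) α.1) :=
    (linearIndependent_mono b).comp _ Subtype.val_injective
  have h2 := finrank_span_eq_card h
  have h3 : Set.range (fun α : {α : Fin b → Fin p | deg α < n} => mono (p := p) α.1) =
      mono '' {α : Fin b → Fin p | deg α < n} := by
    ext f
    simp
  rw [h3] at h2
  rw [h2, countLt, Nat.card_eq_fintype_card]
  rfl

theorem countLt_succ (b n : ℕ) : countLt p b (n + 1) = countLt p b n + countEq p b n := by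
  classical
  unfold countLt countEq
  rw [Nat.card_eq_fintype_card, Nat.card_eq_fintype_card, Nat.card_eq_fintype_card,
    Fintype.card_subtype, Fintype.card_subtype, Fintype.card_subtype,
    ← Finset.card_union_of_disjoint]
  · congr 1
    ext α
    simp only [Finset.mem_filter, Finset.mem_univ, true_and, Finset.mem_union]
    omega
  · rw [Finset.disjoint_left]
    intro α
    simp only [Finset.mem_filter, Finset.mem_univ, true_and]
    omega

/-- The complementary vector. -/
def compl {b : ℕ} (α : Fin b → Fin p) : Fin b → Fin p :=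
  fun i => ⟨p - 1 - (α i : ℕ), by have := (α i).2; omega⟩

theorem deg_compl {b : ℕ} (α : Fin b → Fin p) : deg (compl α) + deg α = b * (p - 1) := by
  unfold deg compl
  rw [← Finset.sum_add_distrib]
  have : ∀ i : Fin b, (p - 1 - (α i : ℕ)) + (α i : ℕ) = p - 1 := by
    intro i
    have := (α i).2
    omega
  simp [this]

theorem compl_compl {b : ℕ} (α : Fin b → Fin p) : compl (compl α) = α := by
  funext i
  apply Fin.ext
  have := (α i).2
  change p - 1 - (p - 1 - (α i : ℕ)) = α i
  omega

theorem countEq_symm (b j : ℕ) (hj : j ≤ b * (p - 1)) :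
    countEq p b (b * (p - 1) - j) = countEq p b j := by
  refine Nat.card_congr
    { toFun := fun α => ⟨compl α.1, ?_⟩
      invFun := fun α => ⟨compl α.1, ?_⟩
      left_inv := fun α => Subtype.ext (compl_compl α.1)
      right_inv := fun α => Subtype.ext (compl_compl α.1) }
  · have := deg_compl α.1
    have := α.2
    omega
  · have := deg_compl α.1
    have := α.2
    omega

theorem countLt_symm (b j : ℕ) (hj : j ≤ b * (p - 1)) :
    countLt p b (b * (p - 1) - j + 1) + countLt p b j = p ^ b := by
  have h1 : countLt p b j = Nat.card {α : Fin b → Fin p // b * (p - 1) - j < deg α} := by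
    refine Nat.card_congr
      { toFun := fun α => ⟨compl α.1, ?_⟩
        invFun := fun α => ⟨compl α.1, ?_⟩
        left_inv := fun α => Subtype.ext (compl_compl α.1)
        right_inv := fun α => Subtype.ext (compl_compl α.1) }
    · have := deg_compl α.1
      have := α.2
      omega
    · have := deg_compl α.1
      have := α.2
      omega
  classical
  rw [h1, countLt, Nat.card_eq_fintype_card, Nat.card_eq_fintype_card, Fintype.card_subtype,
    Fintype.card_subtype, ← Finset.card_union_of_disjoint]
  · have : (Finset.univ.filter fun α : Fin b → Fin p => deg α < b * (p - 1) - j + 1) ∪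
        (Finset.univ.filter fun α : Fin b → Fin p => b * (p - 1) - j < deg α) =
        Finset.univ := by
      ext α
      simp only [Finset.mem_union, Finset.mem_filter, Finset.mem_univ, true_and, iff_true]
      omega
    rw [this]
    simp
  · rw [Finset.disjoint_left]
    intro α
    simp only [Finset.mem_filter, Finset.mem_univ, true_and]
    omega

end Pool.Agent.R910.Mu
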