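import Mathlib

/-!
# Finite Galois modules over the prime field and localized Iwasawa cohomology: definitions
-/

set_option autoImplicit false

namespace Pool.Agent.R910.Mu

variable (p : ℕ) [Fact p.Prime]

/-- A finite module over the prime field of characteristic `p` with an action of the topological
group `G` in which all stabilizers are open. -/
structure GMod (G : Type) [Group G] [TopologicalSpace G] where
  /-- the underlying vector space -/
  carrier : Type
  [grp : AddCommGroup carrier]
  [mod : Module (ZMod p) carrier]
  [fin : Finite carrier]
  [act : DistribMulAction G carrier]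
  [comm : SMulCommClass G (ZMod p) carrier]
  stab_open : ∀ v : carrier, IsOpen {g : G | g • v = v}

attribute [instance] GMod.grp GMod.mod GMod.fin GMod.act GMod.comm

variable {p} {G : Type} [Group G] [TopologicalSpace G]

/-- A morphism of finite modules: a linear map which commutes with the group. -/
structure GHom (A B : GMod p G) where
  /-- the linear map -/
  lin : A.carrier →ₗ[ZMod p] B.carrier
  equi : ∀ (g : G) (a : A.carrier), lin (g • a) = g • lin a

/-- The identity. -/
def GHom.id (A : GMod p G) : GHom A A := ⟨LinearMap.id, fun _ _ => rfl⟩

/-- Composition. -/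
def GHom.comp {A B C : GMod p G} (q : GHom B C) (i : GHom A B) : GHom A C :=
  ⟨q.lin.comp i.lin, fun g a => by simp [i.equi, q.equi]⟩

/-- `0 → A → B → C → 0` is exact. -/
def IsShortExact {A B C : GMod p G} (i : GHom A B) (q : GHom B C) : Prop :=
  Function.Injective i.lin ∧ Function.Exact i.lin q.lin ∧ Function.Surjective q.lin

variable (p G) in
/-- The trivial action on the prime field. -/
def trivAct : DistribMulAction G (ZMod p) where
  smul := fun _ a => a
  one_smul := fun _ => rfl
  mul_smul := fun _ _ _ => rfl
  smul_zero := fun _ => rfl
  smul_add := fun _ _ _ => rfl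

variable (p G) in
/-- The one-dimensional trivial module. -/
def triv : GMod p G :=
  letI := trivAct p G
  { carrier := ZMod p
    comm := ⟨fun _ _ _ => rfl⟩
    stab_open := fun v => by
      have : {g : G | (g • v : ZMod p) = v} = Set.univ := by
        ext g
        exact ⟨fun _ => trivial, fun _ => rfl⟩
      rw [this]
      exact isOpen_univ }

variable (p G) in
/-- **Localized cohomology.** Two functors `H1`, `H2` from finite modules to finite-dimensional
vector spaces over the field of Laurent series over the prime field, with the last four terms
`H1 C → H2 A → H2 B → H2 C → 0` of the long exact sequence of every short exact sequence.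
The example in mind: `G` the Galois group of a number field `K`, and `Hi A` the Iwasawa cohomology
`lim H^i(O_n[1/S], A)` over the layers of the cyclotomic `Z_p`-extension of `K` (or of a twist of
`A`), a finitely generated `F_p[[T]]`-module, tensored with `F_p((T))`; this does not depend on the
finite set `S` containing the primes over `p` and those where `A` is ramified, and the third
cohomology vanishes for `p` odd. -/
structure LocalizedCohomology where
  /-- the first cohomology -/
  H1 : GMod p G → ModuleCat.{0} (LaurentSeries (ZMod p))
  /-- the second cohomology -/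
  H2 : GMod p G → ModuleCat.{0} (LaurentSeries (ZMod p))
  /-- functoriality -/
  map : ∀ {A B : GMod p G}, GHom A B → (H2 A →ₗ[LaurentSeries (ZMod p)] H2 B)
  map_id : ∀ A : GMod p G, map (GHom.id A) = LinearMap.id
  map_comp : ∀ {A B C : GMod p G} (q : GHom B C) (i : GHom A B),
    map (q.comp i) = (map q).comp (map i)
  finite_one : ∀ A : GMod p G, Module.Finite (LaurentSeries (ZMod p)) (H1 A)
  finite_two : ∀ A : GMod p G, Module.Finite (LaurentSeries (ZMod p)) (H2 A)
  long_exact : ∀ {A B C : GMod p G} (i : GHom A B) (q : GHom B C), IsShortExact i q →
    ∃ d : H1 C →ₗ[LaurentSeries (ZMod p)] H2 A,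
      Function.Exact d (map i) ∧ Function.Exact (map i) (map q) ∧ Function.Surjective (map q)

/-- The dimension of the first cohomology. -/
noncomputable def LocalizedCohomology.h1 (T : LocalizedCohomology p G) (A : GMod p G) : ℕ :=
  Module.finrank (LaurentSeries (ZMod p)) (T.H1 A)

/-- The dimension of the second cohomology. -/
noncomputable def LocalizedCohomology.h2 (T : LocalizedCohomology p G) (A : GMod p G) : ℕ :=
  Module.finrank (LaurentSeries (ZMod p)) (T.H2 A)

variable (p) in
/-- The action on functions on cosets. -/
def permAct (H : Subgroup G) : DistribMulAction G (G ⧸ H → ZMod p) where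
  smul := fun g f c => f (g⁻¹ • c)
  one_smul := fun f => by funext c; change f ((1 : G)⁻¹ • c) = f c; simp
  mul_smul := fun g h f => by
    funext c
    change f ((g * h)⁻¹ • c) = f (h⁻¹ • (g⁻¹ • c))
    rw [mul_inv_rev, mul_smul]
  smul_zero := fun _ => rfl
  smul_add := fun _ _ _ => rfl

theorem perm_stab_open [IsTopologicalGroup G] (H : Subgroup G) [H.FiniteIndex]
    (hH : IsOpen (H : Set G)) (f : G ⧸ H → ZMod p) :
    letI := permAct p H
    IsOpen {g : G | g • f = f} := by
  letI := permAct p H
  have hstab : {g : G | g • f = f} = (MulAction.stabilizer G f : Set G) := by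
    ext g
    simp [MulAction.mem_stabilizer_iff]
  rw [hstab]
  refine Subgroup.isOpen_of_mem_nhds (g := 1) _ ?_
  have hU : IsOpen (⋂ c : G ⧸ H, {g : G | g⁻¹ • c = c}) := by
    refine isOpen_iInter_of_finite fun c => ?_
    induction c using QuotientGroup.induction_on with
    | H x =>
      have : {g : G | g⁻¹ • (x : G ⧸ H) = x} = (fun g : G => x⁻¹ * g * x) ⁻¹' (H : Set G) := by
        ext g
        simp only [Set.mem_setOf_eq, Set.mem_preimage, SetLike.mem_coe]
        change ((g⁻¹ * x : G) : G ⧸ H) = x ↔ _
        rw [QuotientGroup.eq]
        simp [mul_assoc]
      rw [this]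
      exact hH.preimage (by fun_prop)
  refine Filter.mem_of_superset (hU.mem_nhds ?_) ?_
  · simp
  · intro g hg
    simp only [Set.mem_iInter, Set.mem_setOf_eq] at hg
    simp only [SetLike.mem_coe, MulAction.mem_stabilizer_iff]
    funext c
    change f (g⁻¹ • c) = f c
    rw [hg c]

variable (p) in
/-- The functions on the cosets of an open subgroup of finite index, with `G` acting by
translation: the permutation module of `G` modulo `H`. -/
def perm [IsTopologicalGroup G] (H : Subgroup G) [H.FiniteIndex] (hH : IsOpen (H : Set G)) :
    GMod p G :=
  letI := permAct p H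
  { carrier := G ⧸ H → ZMod p
    comm := ⟨fun _ _ _ => rfl⟩
    stab_open := perm_stab_open H hH }

variable (p G) in
/-- **Proper solutions of split embedding problems with elementary abelian kernel.** For every
finite module `V` there is a crossed homomorphism `z : G → V` with open kernel which maps the
elements acting trivially on `V` onto `V`. Equivalently, `g ↦ (z g, g)` is a surjection from `G`
onto the semidirect product of `V` and the image of `G` in the automorphisms of `V`. -/
def HasSplitSolutions : Prop :=
  ∀ V : GMod p G, ∃ z : G → V.carrier, (∀ g h : G, z (g * h) = z g + g • z h) ∧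
    IsOpen {g : G | z g = 0} ∧ ∀ v : V.carrier, ∃ g : G, (∀ w : V.carrier, g • w = w) ∧ z g = v

end Pool.Agent.R910.Mu
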