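import Pool.Agent.R910.Mu.Full

/-!
# Functions on an elementary abelian quotient, filtered by degree
-/

set_option autoImplicit false

namespace Pool.Agent.R910.Mu

variable {p : ℕ} [Fact p.Prime] {G : Type} [Group G] [TopologicalSpace G]

/-- The subgroup `K` acts trivially on the module. -/
def ActsVia (K : Subgroup G) (A : GMod p G) : Prop := ∀ g ∈ K, ∀ a : A.carrier, g • a = a

section chain

variable [IsTopologicalGroup G]

theorem h2_sub_le_of_euler (T : FullCohomology p G) (K : Subgroup G)
    (heul : ∀ A : GMod p G, ActsVia K A → T.h1 A = T.h2 A) (A : GMod p G) (hA : ActsVia K A)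
    (S : Submodule (ZMod p) A.carrier) (hS : ∀ (g : G), ∀ a ∈ S, g • a ∈ S) :
    T.h2 (A.sub S hS) ≤ T.h2 A := by
  have h1 : ActsVia K (A.sub S hS) := fun g hg a => Subtype.ext (hA g hg a.1)
  rw [← heul _ h1, ← heul _ hA]
  exact T.h1_sub_le (subquot_exact A S hS)

/-- A layer with trivial action. -/
theorem layer_le (T : FullCohomology p G) (K : Subgroup G)
    (heul : ∀ A : GMod p G, ActsVia K A → T.h1 A = T.h2 A) (A : GMod p G) (hA : ActsVia K A)
    (S S' : Submodule (ZMod p) A.carrier) (hle : S ≤ S')
    (hS : ∀ (g : G), ∀ a ∈ S, g • a ∈ S) (hS' : ∀ (g : G), ∀ a ∈ S', g • a ∈ S')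
    (htriv : ∀ (g : G), ∀ a ∈ S', g • a - a ∈ S) :
    Module.finrank (ZMod p) S' * T.h2 (triv p G) ≤
      Module.finrank (ZMod p) S * T.h2 (triv p G) + T.h2 A := by
  have hR : ∀ (g : G) (a : (A.sub S' hS').carrier),
      a ∈ (S.comap S'.subtype : Submodule (ZMod p) S') →
      g • a ∈ (S.comap S'.subtype : Submodule (ZMod p) S') := by
    intro g a ha
    exact hS g _ ha
  have hC : ∀ (g : G) (c : ((A.sub S' hS').quot (S.comap S'.subtype) hR).carrier),
      g • c = c := by
    intro g c
    obtain ⟨a, rfl⟩ := Submodule.mkQ_surjective (S.comap S'.subtype : Submodule (ZMod p) S') c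
    refine (Submodule.Quotient.eq (S.comap S'.subtype : Submodule (ZMod p) S')).mpr ?_
    exact htriv g a.1 a.2
  have e1 := finrank_mul_le T.toLocalizedCohomology _ hC
  have e2 := h2_quot_le T.toLocalizedCohomology
    (subquot_exact (A.sub S' hS') (S.comap S'.subtype) hR)
  have e3 := h2_sub_le_of_euler T K heul A hA S' hS'
  have e4 : Module.finrank (ZMod p) ((A.sub S' hS').quot (S.comap S'.subtype) hR).carrier +
      Module.finrank (ZMod p) S = Module.finrank (ZMod p) S' := by
    have h5 := Submodule.finrank_quotient_add_finrank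
      (R := ZMod p) (S.comap S'.subtype : Submodule (ZMod p) S')
    have h6 : Module.finrank (ZMod p) (S.comap S'.subtype : Submodule (ZMod p) S') =
        Module.finrank (ZMod p) S := (Submodule.submoduleOfEquivOfLe hle).finrank_eq
    rw [h6] at h5
    exact h5
  rw [← e4, add_mul, add_comm]
  exact Nat.add_le_add_left (e1.trans (e2.trans e3)) _

/-- **Chains with trivial quotients.** -/
theorem chain_le (T : FullCohomology p G) (K : Subgroup G)
    (heul : ∀ A : GMod p G, ActsVia K A → T.h1 A = T.h2 A) (A : GMod p G) (hA : ActsVia K A)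
    (S : ℕ → Submodule (ZMod p) A.carrier) (hS : ∀ i, S i ≤ S (i + 1)) (h0 : S 0 = ⊥)
    (htriv : ∀ i, ∀ (g : G), ∀ a ∈ S (i + 1), g • a - a ∈ S i) (n : ℕ) :
    Module.finrank (ZMod p) (S n) * T.h2 (triv p G) ≤ n * T.h2 A := by
  have hst : ∀ i, ∀ (g : G), ∀ a ∈ S i, g • a ∈ S i := by
    intro i
    induction i with
    | zero =>
      intro g a ha
      rw [h0, Submodule.mem_bot] at ha ⊢
      rw [ha, smul_zero]
    | succ i _ =>
      intro g a ha
      have h1 := hS i (htriv i g a ha)
      have h2 := (S (i + 1)).add_mem h1 ha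
      rwa [sub_add_cancel] at h2
  have key : ∀ i, Module.finrank (ZMod p) (S (i + 1)) * T.h2 (triv p G) ≤
      Module.finrank (ZMod p) (S i) * T.h2 (triv p G) + T.h2 A := fun i =>
    layer_le T K heul A hA (S i) (S (i + 1)) (hS i) (hst i) (hst (i + 1)) (htriv i)
  induction n with
  | zero =>
    have : Module.finrank (ZMod p) (S 0) = 0 := by
      rw [h0]
      exact finrank_bot _ _
    rw [this]
    simp
  | succ n ih =>
    have := key n
    calc Module.finrank (ZMod p) (S (n + 1)) * T.h2 (triv p G)
        ≤ Module.finrank (ZMod p) (S n) * T.h2 (triv p G) + T.h2 A := key n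
      _ ≤ n * T.h2 A + T.h2 A := Nat.add_le_add_right ih _
      _ = (n + 1) * T.h2 A := by ring

end chain

/-! ### Polynomial functions -/

/-- The coordinate functions. -/
def coord {b : ℕ} (i : Fin b) : (Fin b → ZMod p) → ZMod p := fun x => x i

variable (p) in
/-- The polynomial functions of degree less than `n` on the coordinate space. -/
def polys (b : ℕ) : ℕ → Submodule (ZMod p) ((Fin b → ZMod p) → ZMod p)
  | 0 => ⊥
  | n + 1 => Submodule.span (ZMod p) {1} ⊔
      (polys b n ⊔ ⨆ i : Fin b, (polys b n).map (LinearMap.mulLeft (ZMod p) (coord i)))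

theorem polys_le (b n : ℕ) : polys p b n ≤ polys p b (n + 1) :=
  le_sup_of_le_right le_sup_left

theorem one_mem_polys (b n : ℕ) : (1 : (Fin b → ZMod p) → ZMod p) ∈ polys p b (n + 1) :=
  Submodule.mem_sup_left (Submodule.mem_span_singleton_self _)

theorem coord_mul_mem (b n : ℕ) (i : Fin b) {f : (Fin b → ZMod p) → ZMod p}
    (hf : f ∈ polys p b n) : coord i * f ∈ polys p b (n + 1) := by
  refine Submodule.mem_sup_right (Submodule.mem_sup_right ?_)
  exact Submodule.mem_iSup_of_mem i ⟨f, hf, rfl⟩

/-- The translate of a function. -/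
def trans {b : ℕ} (y : Fin b → ZMod p) :
    ((Fin b → ZMod p) → ZMod p) →ₗ[ZMod p] ((Fin b → ZMod p) → ZMod p) where
  toFun f := fun x => f (x - y)
  map_add' _ _ := rfl
  map_smul' _ _ := rfl

/-- The difference operator. -/
def delta {b : ℕ} (y : Fin b → ZMod p) :
    ((Fin b → ZMod p) → ZMod p) →ₗ[ZMod p] ((Fin b → ZMod p) → ZMod p) :=
  trans y - LinearMap.id

theorem delta_apply {b : ℕ} (y : Fin b → ZMod p) (f : (Fin b → ZMod p) → ZMod p) :
    delta y f = trans y f - f := rfl

theorem trans_sub_mem (b n : ℕ) (y : Fin b → ZMod p) :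
    ∀ f ∈ polys p b (n + 1), trans y f - f ∈ polys p b n := by
  induction n with
  | zero =>
    intro f hf
    have hle : polys p b (0 + 1) ≤ LinearMap.ker (delta (p := p) y) := by
      refine sup_le ?_ (sup_le ?_ ?_)
      · rw [Submodule.span_singleton_le_iff_mem, LinearMap.mem_ker]
        funext x
        simp [delta, trans]
      · exact bot_le
      · refine iSup_le fun i => ?_
        change (⊥ : Submodule _ _).map _ ≤ _
        rw [Submodule.map_bot]
        exact bot_le
    have := hle hf
    rw [LinearMap.mem_ker] at this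
    change trans y f - f = 0 at this
    rw [this]
    exact Submodule.zero_mem _
  | succ n ih =>
    intro f hf
    have hle : polys p b (n + 1 + 1) ≤ (polys p b (n + 1)).comap (delta (p := p) y) := by
      refine sup_le ?_ (sup_le ?_ ?_)
      · rw [Submodule.span_singleton_le_iff_mem, Submodule.mem_comap]
        have : delta (p := p) y 1 = (0 : (Fin b → ZMod p) → ZMod p) := by
          funext x
          simp [delta, trans]
        rw [this]
        exact Submodule.zero_mem _
      · intro g hg
        rw [Submodule.mem_comap]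
        exact polys_le b n (ih g hg)
      · refine iSup_le fun i => ?_
        rintro _ ⟨g, hg, rfl⟩
        rw [Submodule.mem_comap]
        have h1 := ih g hg
        have h2 : delta y (LinearMap.mulLeft (ZMod p) (coord i) g) =
            coord i * (trans y g - g) - (y i) • ((trans y g - g) + g) := by
          funext x
          simp only [delta, trans, coord, LinearMap.sub_apply, LinearMap.coe_mk, AddHom.coe_mk,
            LinearMap.mulLeft_apply, LinearMap.id_apply, Pi.sub_apply, Pi.mul_apply,
            Pi.smul_apply, Pi.add_apply, smul_eq_mul]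
          ring
        rw [h2]
        refine Submodule.sub_mem _ (coord_mul_mem b n i h1) (Submodule.smul_mem _ _ ?_)
        exact Submodule.add_mem _ (polys_le b n h1) hg
    exact hle hf

theorem monomial_mem (b : ℕ) : ∀ (n : ℕ) (α : Fin b → ℕ), ∑ i, α i ≤ n →
    (∏ i, coord (p := p) i ^ α i) ∈ polys p b (n + 1) := by
  intro n
  induction n with
  | zero =>
    intro α hα
    have h : ∀ i, α i = 0 := by
      intro i
      have := Finset.single_le_sum (f := α) (fun _ _ => Nat.zero_le _) (Finset.mem_univ i)
      omega
    simp only [h, pow_zero, Finset.prod_const_one]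
    exact one_mem_polys b 0
  | succ n ih =>
    intro α hα
    by_cases h : ∀ i, α i = 0
    · simp only [h, pow_zero, Finset.prod_const_one]
      exact one_mem_polys b (n + 1)
    · push Not at h
      obtain ⟨i, hi⟩ := h
      let β : Fin b → ℕ := Function.update α i (α i - 1)
      have hprod : (∏ j, coord (p := p) j ^ α j) = coord i * ∏ j, coord (p := p) j ^ β j := by
        rw [← Finset.mul_prod_erase Finset.univ _ (Finset.mem_univ i),
          ← Finset.mul_prod_erase Finset.univ (fun j => coord (p := p) j ^ β j)
            (Finset.mem_univ i), ← mul_assoc]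
        congr 1
        · change coord i ^ α i = coord i * coord i ^ (Function.update α i (α i - 1)) i
          rw [Function.update_self, ← pow_succ']
          congr 1
          omega
        · refine Finset.prod_congr rfl fun j hj => ?_
          change coord j ^ α j = coord j ^ (Function.update α i (α i - 1)) j
          rw [Function.update_of_ne (Finset.ne_of_mem_erase hj)]
      have hsum : ∑ j, β j ≤ n := by
        have h1 := Finset.add_sum_erase Finset.univ α (Finset.mem_univ i)
        have h2 := Finset.add_sum_erase Finset.univ β (Finset.mem_univ i)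
        have h3 : ∑ j ∈ Finset.univ.erase i, β j = ∑ j ∈ Finset.univ.erase i, α j := by
          refine Finset.sum_congr rfl fun j hj => ?_
          change (Function.update α i (α i - 1)) j = α j
          rw [Function.update_of_ne (Finset.ne_of_mem_erase hj)]
        have h4 : β i = α i - 1 := Function.update_self _ _ _
        omega
      rw [hprod]
      exact coord_mul_mem b (n + 1) i (ih β hsum)

theorem polys_top (b : ℕ) : polys p b (b * (p - 1) + 1) = ⊤ := by
  rw [eq_top_iff]
  intro f _
  have htop := MvPolynomial.map_restrict_dom_evalₗ (ZMod p) (Fin b)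
  have hf : f ∈ (MvPolynomial.restrictDegree (Fin b) (ZMod p)
      (Fintype.card (ZMod p) - 1)).map (MvPolynomial.evalₗ (ZMod p) (Fin b)) := by
    rw [htop]
    exact Submodule.mem_top
  obtain ⟨q, hq, rfl⟩ := hf
  have hq' := (MvPolynomial.mem_restrictDegree (Fin b) q _).mp hq
  have hexp : MvPolynomial.evalₗ (ZMod p) (Fin b) q =
      ∑ α ∈ q.support, (q.coeff α) • ∏ i, coord (p := p) i ^ α i := by
    funext x
    rw [MvPolynomial.evalₗ_apply, MvPolynomial.eval_eq']
    simp [Finset.sum_apply, coord, Finset.prod_apply]
  rw [hexp]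
  refine Submodule.sum_mem _ fun α hα => Submodule.smul_mem _ _ ?_
  refine monomial_mem b _ _ ?_
  have h1 : ∀ i, α i ≤ p - 1 := by
    intro i
    have := hq' α hα i
    rwa [ZMod.card] at this
  calc ∑ i, α i ≤ ∑ _i : Fin b, (p - 1) := Finset.sum_le_sum fun i _ => h1 i
    _ = b * (p - 1) := by simp

end Pool.Agent.R910.Mu
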