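import Pool.Agent.R910.Mu.Rel

/-!
# Complex conjugations and even modules: definitions
-/

set_option autoImplicit false

namespace Pool.Agent.R910.Mu

/-- All automorphisms of the algebraic closure in the Galois group of `F` which are induced by the
complex conjugation under some embedding in the complex numbers act trivially on `A`. -/
def IsEvenRel {p : ℕ} [Fact p.Prime] {F : IntermediateField ℚ Om} (A : GMod p (GalRel F)) : Prop :=
  ∀ c : GalRel F, (∃ σ : Om →+* ℂ, ∀ x : Om, σ (c.aut x) = starRingEnd ℂ (σ x)) →
    ∀ a : A.carrier, c • a = a

end Pool.Agent.R910.Mu
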