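import Pool.Agent.R910.Mu.Core

/-!
# From modules to number fields
-/

set_option autoImplicit false

namespace Pool.Agent.R910.Mu

variable {p : ℕ} [Fact p.Prime]

section group

variable {G : Type} [Group G] [TopologicalSpace G]

/-- The zeros of a crossed homomorphism. -/
def zeroSub {V : GMod p G} {z : G → V.carrier} (hz : ∀ g h : G, z (g * h) = z g + g • z h) :
    Subgroup G where
  carrier := {g | z g = 0}
  mul_mem' := by
    intro a b ha hb
    simp only [Set.mem_setOf_eq] at ha hb ⊢
    rw [hz, ha, hb, smul_zero, add_zero]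
  one_mem' := by
    have := hz 1 1
    simpa using this
  inv_mem' := by
    intro a ha
    simp only [Set.mem_setOf_eq] at ha ⊢
    have h1 : z 1 = 0 := by
      have := hz 1 1
      simpa using this
    have h := hz a⁻¹ a
    rw [inv_mul_cancel, h1, ha, smul_zero, add_zero] at h
    exact h.symm

theorem mem_zeroSub {V : GMod p G} {z : G → V.carrier}
    (hz : ∀ g h : G, z (g * h) = z g + g • z h) (g : G) : g ∈ zeroSub hz ↔ z g = 0 := Iff.rfl

theorem index_zeroSub {V : GMod p G} {z : G → V.carrier}
    (hz : ∀ g h : G, z (g * h) = z g + g • z h) (hs : Function.Surjective z) :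
    (zeroSub hz).index = Nat.card V.carrier := by
  have key : ∀ a b : G, a⁻¹ * b ∈ zeroSub hz ↔ z a = z b := by
    intro a b
    have h1 : z 1 = 0 := by
      have := hz 1 1
      simpa using this
    have h2 : z (a⁻¹ * b) = a⁻¹ • (z b - z a) := by
      have h := hz a⁻¹ a
      rw [inv_mul_cancel, h1] at h
      rw [hz, smul_sub, eq_neg_of_add_eq_zero_left h.symm]
      abel
    rw [mem_zeroSub, h2, smul_eq_zero_iff_eq, sub_eq_zero]
    exact eq_comm
  let f : G ⧸ zeroSub hz → V.carrier := Quotient.lift z (by
    intro a b hab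
    exact (key a b).mp (QuotientGroup.leftRel_apply.mp hab))
  have hf : ∀ g : G, f (g : G ⧸ zeroSub hz) = z g := fun g => rfl
  refine Nat.card_congr (Equiv.ofBijective f ⟨?_, ?_⟩)
  · intro a b hab
    induction a using QuotientGroup.induction_on with
    | H a =>
      induction b using QuotientGroup.induction_on with
      | H b =>
        rw [hf, hf] at hab
        exact QuotientGroup.eq.mpr ((key a b).mpr hab)
  · intro v
    obtain ⟨g, rfl⟩ := hs v
    exact ⟨g, rfl⟩

/-- The trivial twist can be removed. -/
def untwistOne [IsTopologicalGroup G] (A : GMod p G)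
    (h : IsOpen ((1 : G →* (ZMod p)ˣ).ker : Set G)) : GHom (A.twist 1 h) A where
  lin := LinearMap.id
  equi := fun g a => by
    have h : ((1 : (ZMod p)ˣ) : ZMod p) • A.act.smul g a = A.act.smul g a := by simp
    exact h

/-- **The inequality without a twist.** -/
theorem h2_le_perm [IsTopologicalGroup G] (T : LocalizedCohomology p G) {V : GMod p G}
    {z : G → V.carrier} (hz : ∀ g h : G, z (g * h) = z g + g • z h)
    (ho : IsOpen {g : G | z g = 0}) (hs : Function.Surjective z)
    (H : Subgroup G) [H.FiniteIndex] (hH : IsOpen (H : Set G)) (h2 : ∀ h ∈ H, z h = 0) :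
    T.h2 V ≤ T.h2 (perm p H hH) + T.h1 (triv p G) := by
  haveI : Finite (G ⧸ H) := inferInstance
  letI : Fintype (G ⧸ H) := Fintype.ofFinite _
  have hχ : IsOpen ((1 : G →* (ZMod p)ˣ).ker : Set G) := by
    rw [MonoidHom.ker_one]
    exact isOpen_univ
  have e1 := h2_sub_le T (aff_exact V z hz ho)
  have e2 := h2_le_of_surjective T
    ((untwistOne (aff V z hz ho) hχ).comp
      (permToAff (χ := 1) (V := V) (z := z) hz ho hχ hH (fun _ _ => rfl) h2))
    (Function.surjective_id.comp (permLin_surjective (χ := 1) hz (fun _ _ => rfl) h2 hs))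
  omega

/-- **The growth law for modules.** -/
theorem exists_subgroup [IsTopologicalGroup G] (hsol : HasSplitSolutions p G)
    (T : LocalizedCohomology p G) (W : GMod p G) (m : ℕ) :
    ∃ (H : Subgroup G) (_ : H.FiniteIndex) (hH : IsOpen (H : Set G)),
      H.index = Nat.card W.carrier ^ (m + 1) ∧
      (m + 1) * T.h2 W ≤ T.h2 (perm p H hH) + T.h1 (triv p G) := by
  obtain ⟨z, hz, ho, hs⟩ := hsol (W.pow m)
  have hs' : Function.Surjective z := fun v => by
    obtain ⟨g, _, hg⟩ := hs v
    exact ⟨g, hg⟩
  have hi := index_zeroSub hz hs'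
  rw [card_pow] at hi
  have hfin : (zeroSub hz).FiniteIndex := by
    constructor
    rw [hi]
    exact pow_ne_zero _ Nat.card_pos.ne'
  refine ⟨zeroSub hz, hfin, ho, hi, ?_⟩
  rw [← h2_pow]
  exact h2_le_perm T hz ho hs' (zeroSub hz) ho (fun h hh => hh)

end group

/-! ### Number fields inside the algebraic closure of the rational numbers -/

/-- The algebraic closure of the rational numbers. -/
abbrev Om : Type := AlgebraicClosure ℚ

/-- The absolute Galois group of the rational numbers. -/
abbrev Gal : Type := Om ≃ₐ[ℚ] Om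

instance isAlgClosure_Om : IsAlgClosure ℚ Om := by
  have h : @IsAlgClosure ℚ (AlgebraicClosure ℚ) _ _ (AlgebraicClosure.instAlgebra ℚ) _ :=
    inferInstance
  have e : (DivisionRing.toRatAlgebra : Algebra ℚ (AlgebraicClosure ℚ)) =
    AlgebraicClosure.instAlgebra ℚ := Subsingleton.elim _ _
  exact e ▸ h

instance isGalois_Om : IsGalois ℚ Om := IsAlgClosure.isGalois ℚ Om

theorem finiteIndex_fixing (F : IntermediateField ℚ Om) (hF : FiniteDimensional ℚ F) :
    F.fixingSubgroup.FiniteIndex := by
  constructor
  rw [← IntermediateField.finrank_eq_fixingSubgroup_index]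
  exact Module.finrank_pos.ne'

variable (p) in
/-- The permutation module of a number field `F`: the functions on the cosets of its Galois
group. -/
noncomputable def fieldMod (F : IntermediateField ℚ Om) (hF : FiniteDimensional ℚ F) :
    GMod p Gal :=
  haveI := finiteIndex_fixing F hF
  perm p F.fixingSubgroup (IntermediateField.fixingSubgroup_isOpen F)

theorem card_fieldMod (F : IntermediateField ℚ Om) (hF : FiniteDimensional ℚ F) :
    Nat.card (fieldMod p F hF).carrier = p ^ Module.finrank ℚ F := by
  haveI := finiteIndex_fixing F hF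
  change Nat.card (Gal ⧸ F.fixingSubgroup → ZMod p) = _
  haveI : Finite (Gal ⧸ F.fixingSubgroup) := inferInstance
  rw [Nat.card_fun, Nat.card_zmod, IntermediateField.finrank_eq_fixingSubgroup_index]
  rfl

/-- The field of an open subgroup. -/
theorem exists_field (H : Subgroup Gal) (hH : IsOpen (H : Set Gal)) :
    (IntermediateField.fixedField H).fixingSubgroup = H := by
  have := InfiniteGalois.fixingSubgroup_fixedField (k := ℚ) (K := Om)
    ⟨H, Subgroup.isClosed_of_isOpen H hH⟩
  exact this

theorem finite_fixedField (H : Subgroup Gal) (hH : IsOpen (H : Set Gal)) :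
    FiniteDimensional ℚ (IntermediateField.fixedField H) := by
  rw [← InfiniteGalois.isOpen_iff_finite]
  rw [exists_field H hH]
  exact hH

theorem h2_fieldMod_fixedField (T : LocalizedCohomology p Gal) (H : Subgroup Gal)
    [H.FiniteIndex] (hH : IsOpen (H : Set Gal)) :
    T.h2 (fieldMod p (IntermediateField.fixedField H) (finite_fixedField H hH)) =
      T.h2 (perm p H hH) := by
  unfold fieldMod
  congr 1
  have h := exists_field H hH
  simp only [h]

end Pool.Agent.R910.Mu
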