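import Pool.Agent.R910.Mu.Fields

/-!
# Cohomology theories with the full long exact sequence, and chains with trivial quotients
-/

set_option autoImplicit false

namespace Pool.Agent.R910.Mu

variable (p : ℕ) [Fact p.Prime] (G : Type) [Group G] [TopologicalSpace G]

/-- A localized cohomology theory in which also the first cohomology is a functor, injective on
submodules: for Iwasawa cohomology tensored with `F_p((T))` this holds because the zeroth
cohomology vanishes. -/
structure FullCohomology extends LocalizedCohomology p G where
  /-- functoriality of the first cohomology -/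
  map1 : ∀ {A B : GMod p G}, GHom A B → (H1 A →ₗ[LaurentSeries (ZMod p)] H1 B)
  map1_injective : ∀ {A B C : GMod p G} (i : GHom A B) (q : GHom B C), IsShortExact i q →
    Function.Injective (map1 i)

variable {p G}

theorem FullCohomology.h1_sub_le (T : FullCohomology p G) {A B C : GMod p G} {i : GHom A B}
    {q : GHom B C} (h : IsShortExact i q) : T.h1 A ≤ T.h1 B := by
  have := T.finite_one A
  have := T.finite_one B
  exact LinearMap.finrank_le_finrank_of_injective (T.map1_injective i q h)

variable (p G) in
/-- The trivial action on the coordinate space. -/
def trivPowAct (d : ℕ) : DistribMulAction G (Fin d → ZMod p) where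
  smul := fun _ a => a
  one_smul := fun _ => rfl
  mul_smul := fun _ _ _ => rfl
  smul_zero := fun _ => rfl
  smul_add := fun _ _ _ => rfl

variable (p G) in
/-- The coordinate space with trivial action. -/
def trivPow (d : ℕ) : GMod p G :=
  letI := trivPowAct p G d
  { carrier := Fin d → ZMod p
    comm := ⟨fun _ _ _ => rfl⟩
    stab_open := fun v => by
      have : {g : G | (g • v : Fin d → ZMod p) = v} = Set.univ := by
        ext g
        exact ⟨fun _ => trivial, fun _ => rfl⟩
      rw [this]
      exact isOpen_univ }

theorem h2_trivPow (T : LocalizedCohomology p G) (d : ℕ) :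
    T.h2 (trivPow p G d) = d * T.h2 (triv p G) := by
  induction d with
  | zero =>
    have : Subsingleton (trivPow p G 0).carrier := by
      change Subsingleton (Fin 0 → ZMod p)
      infer_instance
    have hs : IsShortExact (GHom.id (trivPow p G 0)) (GHom.id (trivPow p G 0)) :=
      ⟨Function.injective_of_subsingleton _,
        fun x => ⟨fun _ => ⟨x, rfl⟩, fun _ => Subsingleton.elim _ _⟩, fun y => ⟨y, rfl⟩⟩
    have := h2_split T hs (GHom.id _) rfl
    omega
  | succ d ih =>
    let i : GHom (triv p G) (trivPow p G (d + 1)) :=
      { lin := LinearMap.single (ZMod p) (fun _ : Fin (d + 1) => ZMod p) 0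
        equi := fun _ _ => rfl }
    let q : GHom (trivPow p G (d + 1)) (trivPow p G d) :=
      { lin := LinearMap.funLeft (ZMod p) (ZMod p) Fin.succ
        equi := fun _ _ => rfl }
    let r : GHom (trivPow p G (d + 1)) (triv p G) :=
      { lin := LinearMap.proj (R := ZMod p) (φ := fun _ : Fin (d + 1) => ZMod p) 0
        equi := fun _ _ => rfl }
    have hs : IsShortExact i q := by
      refine ⟨?_, ?_, ?_⟩
      · intro a b h
        have h' : (Pi.single 0 a : Fin (d + 1) → ZMod p) 0 =
          (Pi.single 0 b : Fin (d + 1) → ZMod p) 0 := congrFun h 0
        rw [Pi.single_eq_same, Pi.single_eq_same] at h'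
        exact h'
      · intro f
        constructor
        · intro h
          refine ⟨f 0, ?_⟩
          have h' : ∀ j : Fin d, (f : Fin (d + 1) → ZMod p) j.succ = 0 := fun j => congrFun h j
          change (Pi.single 0 ((f : Fin (d + 1) → ZMod p) 0) : Fin (d + 1) → ZMod p) = f
          funext j
          refine Fin.cases ?_ (fun j => ?_) j
          · simp
          · rw [h' j, Pi.single_eq_of_ne (Fin.succ_ne_zero j)]
        · rintro ⟨a, rfl⟩
          funext j
          change (Pi.single 0 a : Fin (d + 1) → ZMod p) j.succ = 0
          exact Pi.single_eq_of_ne (Fin.succ_ne_zero j) _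
      · intro f
        refine ⟨(Fin.cons 0 f : Fin (d + 1) → ZMod p), ?_⟩
        funext j
        change (Fin.cons 0 f : Fin (d + 1) → ZMod p) j.succ = f j
        simp
    have hr : r.comp i = GHom.id _ := by
      have : (r.comp i).lin = LinearMap.id := by
        ext
        change (Pi.single 0 (1 : ZMod p) : Fin (d + 1) → ZMod p) 0 = 1
        simp
      unfold GHom.id
      cases h : r.comp i with
      | mk l e =>
        rw [h] at this
        simp only at this
        subst this
        rfl
    rw [h2_split T hs r hr, ih]
    ring

/-- A module with trivial action has at least the cohomology of the coordinate space. -/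
theorem finrank_mul_le (T : LocalizedCohomology p G) (B : GMod p G)
    (hB : ∀ (g : G) (b : B.carrier), g • b = b) :
    Module.finrank (ZMod p) B.carrier * T.h2 (triv p G) ≤ T.h2 B := by
  rw [← h2_trivPow]
  let e := (Module.finBasis (ZMod p) B.carrier).equivFun
  let q : GHom B (trivPow p G (Module.finrank (ZMod p) B.carrier)) :=
    { lin := e.toLinearMap
      equi := fun g b => by
        rw [hB]
        rfl }
  exact h2_le_of_surjective T q e.surjective

end Pool.Agent.R910.Mu
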