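import Pool.Agent.R910.Mu.Elem

/-!
# Growth of the second cohomology in elementary abelian extensions
-/

set_option autoImplicit false

namespace Pool.Agent.R910.Mu

variable {p : ℕ} [Fact p.Prime] {G : Type} [Group G] [TopologicalSpace G]

/-- The action by translations on functions on the coordinate space. -/
def funAct {b : ℕ} (z : G → Fin b → ZMod p) (hz : ∀ g h : G, z (g * h) = z g + z h) :
    DistribMulAction G ((Fin b → ZMod p) → ZMod p) where
  smul := fun g f x => f (x - z g)
  one_smul := fun f => by
    have h1 : z 1 = 0 := by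
      have := hz 1 1
      simpa using this
    funext x
    change f (x - z 1) = f x
    rw [h1, sub_zero]
  mul_smul := fun g h f => by
    funext x
    change f (x - z (g * h)) = f (x - z g - z h)
    rw [hz, sub_sub]
  smul_zero := fun _ => rfl
  smul_add := fun _ _ _ => rfl

/-- Functions on the coordinate space, `G` acting by translations through `z`. -/
def funMod [IsTopologicalGroup G] {b : ℕ} (z : G → Fin b → ZMod p)
    (hz : ∀ g h : G, z (g * h) = z g + z h) (ho : IsOpen {g : G | z g = 0}) : GMod p G :=
  letI := funAct z hz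
  { carrier := (Fin b → ZMod p) → ZMod p
    comm := ⟨fun _ _ _ => rfl⟩
    stab_open := fun f => by
      have hst : {g : G | g • f = f} = (MulAction.stabilizer G f : Set G) := by
        ext g
        simp [MulAction.mem_stabilizer_iff]
      rw [hst]
      refine Subgroup.isOpen_of_mem_nhds (g := 1) _ ?_
      have h1 : z 1 = 0 := by
        have := hz 1 1
        simpa using this
      refine Filter.mem_of_superset (ho.mem_nhds h1) ?_
      intro g hg
      simp only [SetLike.mem_coe, MulAction.mem_stabilizer_iff]
      funext x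
      change f (x - z g) = f x
      rw [show z g = 0 from hg, sub_zero] }

/-- The permutation module maps onto the module of functions. -/
theorem h2_funMod_le [IsTopologicalGroup G] (T : LocalizedCohomology p G) {b : ℕ}
    (z : G → Fin b → ZMod p) (hz : ∀ g h : G, z (g * h) = z g + z h)
    (ho : IsOpen {g : G | z g = 0}) (hs : Function.Surjective z)
    (K : Subgroup G) [K.FiniteIndex] (hK : IsOpen (K : Set G)) (hk : ∀ g : G, g ∈ K ↔ z g = 0) :
    T.h2 (funMod z hz ho) ≤ T.h2 (perm p K hK) := by
  have h1 : z 1 = 0 := by
    have := hz 1 1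
    simpa using this
  have hinv : ∀ g : G, z g⁻¹ = - z g := by
    intro g
    have := hz g⁻¹ g
    rw [inv_mul_cancel, h1] at this
    exact eq_neg_of_add_eq_zero_left this.symm
  have hcoset : ∀ g h : G, (g : G ⧸ K) = h ↔ z g = z h := by
    intro g h
    rw [QuotientGroup.eq, hk, hz, hinv, neg_add_eq_zero]
  choose s hsz using hs
  let q : GHom (perm p K hK) (funMod z hz ho) :=
    { lin :=
        { toFun := fun f x => f ((s x : G) : G ⧸ K)
          map_add' := fun _ _ => rfl
          map_smul' := fun _ _ => rfl }
      equi := fun g f => by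
        funext x
        change f (g⁻¹ • ((s x : G) : G ⧸ K)) = f ((s (x - z g) : G) : G ⧸ K)
        congr 1
        change ((g⁻¹ * s x : G) : G ⧸ K) = _
        rw [hcoset, hz, hinv, hsz, hsz, neg_add_eq_sub] }
  refine h2_le_of_surjective T q ?_
  intro f
  refine ⟨fun c => f (z c.out), ?_⟩
  funext x
  change f (z ((s x : G) : G ⧸ K).out) = f x
  have : z ((s x : G) : G ⧸ K).out = z (s x) := by
    rw [← hcoset]
    exact QuotientGroup.out_eq' _
  rw [this, hsz]

/-- **Growth in elementary abelian extensions.** -/
theorem elementary_growth [IsTopologicalGroup G] (T : FullCohomology p G) {b : ℕ}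
    (z : G → Fin b → ZMod p) (hz : ∀ g h : G, z (g * h) = z g + z h)
    (ho : IsOpen {g : G | z g = 0}) (hs : Function.Surjective z)
    (K : Subgroup G) [K.FiniteIndex] (hK : IsOpen (K : Set G)) (hk : ∀ g : G, g ∈ K ↔ z g = 0)
    (heul : ∀ A : GMod p G, ActsVia K A → T.h1 A = T.h2 A) :
    p ^ b * T.h2 (triv p G) ≤ (b * (p - 1) + 1) * T.h2 (perm p K hK) := by
  have hA : ActsVia K (funMod z hz ho) := by
    intro g hg f
    funext x
    change (f : (Fin b → ZMod p) → ZMod p) (x - z g) = f x
    rw [(hk g).mp hg, sub_zero]
  have h := chain_le T K heul (funMod z hz ho) hA (polys p b) (polys_le b) rfl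
    (fun i g f hf => trans_sub_mem b i (z g) f hf) (b * (p - 1) + 1)
  rw [polys_top] at h
  have hdim : Module.finrank (ZMod p)
      ((⊤ : Submodule (ZMod p) ((Fin b → ZMod p) → ZMod p))) = p ^ b := by
    rw [finrank_top, Module.finrank_pi]
    simp
  have h' : p ^ b * T.h2 (triv p G) ≤ (b * (p - 1) + 1) * T.h2 (funMod z hz ho) := by
    rw [← hdim]
    exact h
  exact h'.trans (Nat.mul_le_mul_left _ (h2_funMod_le T.toLocalizedCohomology z hz ho hs K hK hk))

end Pool.Agent.R910.Mu
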