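import Pool.Agent.R910.Mu.Rel

/-!
# Abelian and special extensions of a number field: definitions
-/

set_option autoImplicit false

namespace Pool.Agent.R910.Mu

/-- The field `K` is an abelian extension of `k`. -/
def IsAbelianOver (k K : IntermediateField ℚ Om) : Prop :=
  k ≤ K ∧ ∀ g h : GalRel k, g * h * g⁻¹ * h⁻¹ ∈ relSub k K

/-- The field `K` is a cyclic extension of degree `d` of `k`: its Galois group is the kernel of a
surjective homomorphism from that of `k` to the cyclic group of order `d`. -/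
def IsCyclicOver (k K : IntermediateField ℚ Om) (d : ℕ) : Prop :=
  k ≤ K ∧ ∃ ψ : GalRel k →* Multiplicative (ZMod d), Function.Surjective ψ ∧
    ∀ g, ψ g = 1 ↔ g ∈ relSub k K

/-- The field `M` is a Galois extension of `K` with group isomorphic to `(Z/p) ^ b`. -/
def IsElemOver (p : ℕ) (K M : IntermediateField ℚ Om) (b : ℕ) : Prop :=
  K ≤ M ∧ ∃ z : GalRel K → (Fin b → ZMod p), (∀ g h, z (g * h) = z g + z h) ∧
    Function.Surjective z ∧ ∀ g, g ∈ relSub K M ↔ z g = 0

/-- The field `F` is an extension of `k` of degree `p ^ (2 n)`, and for some cyclic extension `L`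
of `k` inside `K`, of a degree `d ≥ n` dividing `p ^ n - 1`, the field `F L` is Galois over `k` and
Galois over `L` with group `(Z/p) ^ (2 n)`. -/
def IsSpecial (p : ℕ) (k K F : IntermediateField ℚ Om) : Prop :=
  ∃ (n d : ℕ) (L : IntermediateField ℚ Om), 0 < n ∧ n ≤ d ∧ d ∣ p ^ n - 1 ∧ L ≤ K ∧
    IsCyclicOver k L d ∧ k ≤ F ∧
    Module.finrank ℚ F = p ^ (2 * n) * Module.finrank ℚ k ∧
    IsElemOver p L (F ⊔ L) (2 * n) ∧ (relSub k (F ⊔ L)).Normal

end Pool.Agent.R910.Mu
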