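import Pool.Agent.R910.Mu.Abel
import Pool.Agent.R910.Mu.RelDefs

/-!
# Abelian extensions of a number field and fields of `p`-power degree over it
-/

set_option autoImplicit false

namespace Pool.Agent.R910.Mu

variable {p : ℕ} [Fact p.Prime]

/-- The inclusion of Galois groups. -/
def relIncl {k K : IntermediateField ℚ Om} (h : k ≤ K) (g : GalRel K) : GalRel k :=
  ⟨g.aut, IntermediateField.fixingSubgroup_le h g.2⟩

theorem relIncl_mul {k K : IntermediateField ℚ Om} (h : k ≤ K) (g g' : GalRel K) :
    relIncl h (g * g') = relIncl h g * relIncl h g' := rfl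

theorem relIncl_mem {k K : IntermediateField ℚ Om} (h : k ≤ K) (g : GalRel K) :
    relIncl h g ∈ relSub k K := g.2

theorem exists_relIncl {k K : IntermediateField ℚ Om} (h : k ≤ K) {g : GalRel k}
    (hg : g ∈ relSub k K) : ∃ g' : GalRel K, relIncl h g' = g := ⟨⟨g.aut, hg⟩, rfl⟩

theorem relSub_sup (k F K : IntermediateField ℚ Om) :
    relSub k (F ⊔ K) = relSub k F ⊓ relSub k K := by
  ext g
  rw [Subgroup.mem_inf, mem_relSub, mem_relSub, mem_relSub,
    IntermediateField.fixingSubgroup_sup, Subgroup.mem_inf]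

theorem le_of_relSub {k K L : IntermediateField ℚ Om} (hkK : k ≤ K)
    (h : relSub k K ≤ relSub k L) : L ≤ K := by
  have h1 : K.fixingSubgroup ≤ L.fixingSubgroup := by
    intro g hg
    have h2 : (⟨g, IntermediateField.fixingSubgroup_le hkK hg⟩ : GalRel k) ∈ relSub k K := hg
    exact h h2
  have h3 := IntermediateField.fixedField_antitone h1
  have hL : IntermediateField.fixedField L.fixingSubgroup = L :=
    InfiniteGalois.fixedField_fixingSubgroup L
  have hK : IntermediateField.fixedField K.fixingSubgroup = K :=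
    InfiniteGalois.fixedField_fixingSubgroup K
  rwa [hL, hK] at h3

/-- An irreducible module with abelian action is controlled by a special field. -/
theorem exists_special {k : IntermediateField ℚ Om} (hk : FiniteDimensional ℚ k)
    (hsol : HasSplitSolutions p (GalRel k)) (T : LocalizedCohomology p (GalRel k))
    (W : GMod p (GalRel k)) (hW : IsIrred W) (hc : ActsComm W) (K : IntermediateField ℚ Om)
    (hkK : k ≤ K)
    (hKW : relSub k K ≤ kerAct W) :
    ∃ (F : IntermediateField ℚ Om) (hF : FiniteDimensional ℚ F), IsSpecial p k K F ∧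
      2 * T.h2 W ≤ T.h2 (permRel p k F hF) + T.h1 (triv p (GalRel k)) := by
  haveI hnt := hW.1
  obtain ⟨z, hz, ho, hs⟩ := hsol (W.prod W)
  have hs' : Function.Surjective z := fun v => by
    obtain ⟨g, _, hg⟩ := hs v
    exact ⟨g, hg⟩
  have hi := index_zeroSub hz hs'
  haveI hfin : (zeroSub hz).FiniteIndex := by
    constructor
    rw [hi]
    exact Nat.card_pos.ne'
  have hH : IsOpen (zeroSub hz : Set (GalRel k)) := ho
  have hle := h2_le_perm T hz ho hs' (zeroSub hz) hH (fun h hh => hh)
  rw [h2_prod] at hle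
  obtain ⟨F, hF, hkF, hFH⟩ := exists_rel hk (zeroSub hz) hH
  obtain ⟨L, hL, hkL, hLC⟩ := exists_rel hk (kerAct W) (kerAct_open W)
  have hLK : relSub k K ≤ relSub k L := hLC ▸ hKW
  obtain ⟨d, hd, ψ, hψs, hψk⟩ := exists_cyclic hW hc
  let n := Module.finrank (ZMod p) W.carrier
  have hcard : Nat.card W.carrier = p ^ n := by
    have := Module.natCard_eq_pow_finrank (K := ZMod p) (V := W.carrier)
    rwa [Nat.card_zmod] at this
  have hcard2 : Nat.card (W.prod W).carrier = p ^ (2 * n) := by
    change Nat.card (W.carrier × W.carrier) = _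
    rw [Nat.card_prod, hcard, ← pow_add, two_mul]
  have hfr : Module.finrank (ZMod p) (W.prod W).carrier = 2 * n := by
    change Module.finrank (ZMod p) (W.carrier × W.carrier) = _
    rw [Module.finrank_prod, two_mul]
  have htriv : ∀ g : GalRel k, g ∈ relSub k L → ∀ v : (W.prod W).carrier, g • v = v := by
    intro g hg v
    rw [hLC] at hg
    exact Prod.ext (hg v.1) (hg v.2)
  have h1 : z 1 = 0 := by
    have := hz 1 1
    simpa using this
  have hd0 : d ≠ 0 := by
    rintro rfl
    rw [zero_dvd_iff, hcard] at hd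
    have h3 : 1 < p ^ n := Nat.one_lt_pow Module.finrank_pos.ne' (Fact.out : p.Prime).one_lt
    omega
  have hnd : n ≤ d := finrank_le_of_cyclic hW hd0 ψ hψs hψk
  refine ⟨F, hF, ⟨n, d, L, Module.finrank_pos, hnd, ?_, ?_, ⟨hkL, ψ, hψs, fun g => ?_⟩, hkF, ?_, ?_,
    ?_⟩, ?_⟩
  · rw [← hcard]
    exact hd
  · exact le_of_relSub hkK hLK
  · rw [hLC]
    exact hψk g
  · rw [← index_relSub hkF, hFH, hi, hcard2]
  · refine ⟨le_sup_right, ?_⟩
    let e := (Module.finBasisOfFinrankEq (ZMod p) (W.prod W).carrier hfr).equivFun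
    refine ⟨fun g => e (z (relIncl hkL g)), ?_, ?_, ?_⟩
    · intro g g'
      change e (z (relIncl hkL (g * g'))) = e (z (relIncl hkL g)) + e (z (relIncl hkL g'))
      rw [relIncl_mul, hz, htriv _ (relIncl_mem hkL g), map_add]
    · intro v
      obtain ⟨g, hg, hgv⟩ := hs (e.symm v)
      have hgL : g ∈ relSub k L := by
        rw [hLC]
        intro w
        exact congrArg Prod.fst (hg (w, (0 : W.carrier)))
      obtain ⟨g', rfl⟩ := exists_relIncl hkL hgL
      refine ⟨g', ?_⟩
      change e (z (relIncl hkL g')) = v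
      rw [hgv, LinearEquiv.apply_symm_apply]
    · intro g
      have h2 : g ∈ relSub L (F ⊔ L) ↔ relIncl hkL g ∈ relSub k F := by
        rw [mem_relSub, IntermediateField.fixingSubgroup_sup, Subgroup.mem_inf]
        exact ⟨fun h => h.1, fun h => ⟨h, g.2⟩⟩
      rw [h2, hFH, mem_zeroSub]
      change _ ↔ e (z (relIncl hkL g)) = 0
      rw [LinearEquiv.map_eq_zero_iff]
  · rw [relSub_sup, hFH, hLC]
    constructor
    rintro g ⟨hg1, hg2⟩ x
    have hn := (kerAct_normal W).conj_mem g hg2 x
    refine ⟨?_, hn⟩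
    have hg0 : z g = 0 := hg1
    have hx : z (x * g) = z x := by
      rw [hz, hg0, smul_zero, add_zero]
    have hxx : z (x * g * x⁻¹) = z x + (x * g) • z x⁻¹ := by
      rw [hz, hx]
    have h3 : (x * g) • z x⁻¹ = x • z x⁻¹ := by
      rw [mul_smul]
      congr 1
      exact Prod.ext (hg2 _) (hg2 _)
    have h4 := hz x x⁻¹
    rw [mul_inv_cancel, h1] at h4
    change z (x * g * x⁻¹) = 0
    rw [hxx, h3, ← h4]
  · rw [h2_permRel_eq T F hF _ hH hFH]
    omega

theorem actsComm_permRel {k K : IntermediateField ℚ Om} (hK : FiniteDimensional ℚ K)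
    (hab : IsAbelianOver k K) : ActsComm (permRel p k K hK) := by
  intro g h f
  change (fun c : GalRel k ⧸ relSub k K => (f : GalRel k ⧸ relSub k K → ZMod p) ((g * h)⁻¹ • c)) =
    fun c : GalRel k ⧸ relSub k K => (f : GalRel k ⧸ relSub k K → ZMod p) ((h * g)⁻¹ • c)
  funext c
  congr 1
  induction c using QuotientGroup.induction_on with
  | H x =>
    change (((g * h)⁻¹ * x : GalRel k) : GalRel k ⧸ relSub k K) =
      (((h * g)⁻¹ * x : GalRel k) : GalRel k ⧸ relSub k K)
    rw [QuotientGroup.eq]
    have := hab.2 (x⁻¹ * g * x) (x⁻¹ * h * x)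
    have e : ((g * h)⁻¹ * x)⁻¹ * ((h * g)⁻¹ * x) =
        x⁻¹ * g * x * (x⁻¹ * h * x) * (x⁻¹ * g * x)⁻¹ * (x⁻¹ * h * x)⁻¹ := by group
    rw [e]
    exact this

theorem IsCyclicOver.isAbelianOver {k K : IntermediateField ℚ Om} {d : ℕ}
    (h : IsCyclicOver k K d) : IsAbelianOver k K := by
  obtain ⟨hkK, ψ, _, hψ⟩ := h
  refine ⟨hkK, fun g h => (hψ _).mp ?_⟩
  rw [map_mul, map_mul, map_mul, map_inv, map_inv]
  rw [mul_comm (ψ g) (ψ h), mul_assoc (ψ h), mul_inv_cancel, mul_one, mul_inv_cancel]

theorem powTriv_permRel {k F : IntermediateField ℚ Om} (hF : FiniteDimensional ℚ F)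
    {K : IntermediateField ℚ Om} (hkK : k ≤ K) (hn : (relSub k K).Normal) {b : ℕ}
    (hel : IsElemOver p K (F ⊔ K) b) : PowTriv (relSub k K) (permRel p k F hF) := by
  obtain ⟨_, z, hz, _, hk⟩ := hel
  intro g hg f
  change (fun c : GalRel k ⧸ relSub k F => (f : GalRel k ⧸ relSub k F → ZMod p) ((g ^ p)⁻¹ • c)) =
    f
  funext c
  congr 1
  induction c using QuotientGroup.induction_on with
  | H x =>
    change (((g ^ p)⁻¹ * x : GalRel k) : GalRel k ⧸ relSub k F) = x
    rw [QuotientGroup.eq]
    have hy : x⁻¹ * g * x ∈ relSub k K := by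
      have := hn.conj_mem g hg x⁻¹
      rwa [inv_inv] at this
    obtain ⟨y, hyy⟩ := exists_relIncl hkK hy
    have hpow : ∀ m : ℕ, z (y ^ m) = m • z y := by
      intro m
      induction m with
      | zero =>
        have := hz 1 1
        simpa using this
      | succ m ih => rw [pow_succ, hz, ih, succ_nsmul]
    have hzero : z (y ^ p) = 0 := by
      rw [hpow]
      funext i
      change p • (z y i) = 0
      simp
    have hmem := (hk (y ^ p)).mpr hzero
    rw [mem_relSub, IntermediateField.fixingSubgroup_sup, Subgroup.mem_inf] at hmem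
    have hincl : ∀ m : ℕ, relIncl hkK (y ^ m) = (relIncl hkK y) ^ m := by
      intro m
      induction m with
      | zero => rfl
      | succ m ih => rw [pow_succ, relIncl_mul, ih, pow_succ]
    have hmem2 : relIncl hkK (y ^ p) ∈ relSub k F := hmem.1
    rw [hincl, hyy] at hmem2
    have e : (x⁻¹ * g * x) ^ p = ((g ^ p)⁻¹ * x)⁻¹ * x := by
      have : ∀ m : ℕ, (x⁻¹ * g * x) ^ m = x⁻¹ * g ^ m * x := by
        intro m
        induction m with
        | zero => simp
        | succ m ih => rw [pow_succ, ih, pow_succ]; group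
      rw [this]
      group
    rw [← e]
    exact hmem2

theorem kerAct_permRel {k K : IntermediateField ℚ Om} (hK : FiniteDimensional ℚ K)
    (hn : (relSub k K).Normal) : relSub k K ≤ kerAct (permRel p k K hK) := by
  intro g hg f
  change (fun c : GalRel k ⧸ relSub k K => (f : GalRel k ⧸ relSub k K → ZMod p) (g⁻¹ • c)) = f
  funext c
  congr 1
  induction c using QuotientGroup.induction_on with
  | H x =>
    change ((g⁻¹ * x : GalRel k) : GalRel k ⧸ relSub k K) = x
    rw [QuotientGroup.eq]
    have := hn.conj_mem g hg x⁻¹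
    simpa [mul_assoc] using this

theorem IsAbelianOver.normal {k K : IntermediateField ℚ Om} (h : IsAbelianOver k K) :
    (relSub k K).Normal := by
  constructor
  intro g hg x
  have h1 := h.2 x g
  have h2 := (relSub k K).mul_mem h1 hg
  have e : x * g * x⁻¹ * g⁻¹ * g = x * g * x⁻¹ := by group
  rwa [e] at h2

/-- **Abelian extensions and special fields.** -/
theorem abelian_iff_special {k : IntermediateField ℚ Om} (hk : FiniteDimensional ℚ k)
    (hsol : HasSplitSolutions p (GalRel k)) (T : LocalizedCohomology p (GalRel k))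
    (h1 : T.h1 (triv p (GalRel k)) = 1)
    (K : IntermediateField ℚ Om) (hK : FiniteDimensional ℚ K) (hab : IsAbelianOver k K) :
    T.h2 (permRel p k K hK) = 0 ↔
    ∀ (F : IntermediateField ℚ Om) (hF : FiniteDimensional ℚ F), IsSpecial p k K F →
      T.h2 (permRel p k F hF) = 0 := by
  constructor
  · rintro h0 F hF ⟨n, d, L, _, _, _, hLK, hcyc, _, _, hel, _⟩
    have hn : (relSub k L).Normal := hcyc.isAbelianOver.normal
    haveI := relSub_finiteIndex k K hK
    refine h2_eq_zero_of_powTriv T (relSub k L) hn (relSub k K) ?_ (relSub_open k K hK) h0 _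
      (powTriv_permRel hF hcyc.1 hn hel)
    intro g hg
    exact IntermediateField.fixingSubgroup_le hLK hg
  · intro h
    refine h2_eq_zero_of_irred_of T (fun W => ActsComm W ∧ relSub k K ≤ kerAct W)
      (fun W S hS hW => ?_) _ ?_ (permRel p k K hK)
      ⟨actsComm_permRel hK hab, kerAct_permRel hK hab.normal⟩ le_rfl
    · have h1 := actsComm_sub_quot W S hS hW.1
      have h2 := kerAct_sub_quot (relSub k K) W S hS hW.2
      exact ⟨⟨h1.1, h2.1⟩, ⟨h1.2, h2.2⟩⟩
    · intro V hV hirr _
      obtain ⟨F, hF, hsp, hle⟩ := exists_special hk hsol T V hirr hV.1 K hab.1 hV.2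
      rw [h F hF hsp, h1] at hle
      omega

end Pool.Agent.R910.Mu
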