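import Pool.Agent.R910.Mu.Quad

/-!
# Lattices with Galois action
-/

set_option autoImplicit false

namespace Pool.Agent.R910.Mu

variable (p : ℕ) [Fact p.Prime]

/-- A finitely generated free module over the `p`-adic integers with a continuous action of `G`,
together with its reduction modulo `p`. -/
structure Lattice (G : Type) [Group G] [TopologicalSpace G] where
  /-- the underlying module -/
  carrier : Type
  [grp : AddCommGroup carrier]
  [mod : Module ℤ_[p] carrier]
  [free : Module.Free ℤ_[p] carrier]
  [fin : Module.Finite ℤ_[p] carrier]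
  [act : DistribMulAction G carrier]
  [comm : SMulCommClass G ℤ_[p] carrier]
  cont : ∀ (n : ℕ) (v : carrier), IsOpen {g : G | ∃ y : carrier, g • v - v = (p : ℤ_[p]) ^ n • y}
  /-- the reduction modulo `p` -/
  red : GMod p G
  /-- the projection to the reduction -/
  proj : carrier →+ red.carrier
  proj_surjective : Function.Surjective proj
  proj_eq_zero : ∀ x : carrier, proj x = 0 ↔ ∃ y : carrier, x = (p : ℤ_[p]) • y
  proj_smul : ∀ (g : G) (x : carrier), proj (g • x) = g • proj x

attribute [instance] Lattice.grp Lattice.mod Lattice.free Lattice.fin Lattice.act Lattice.comm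

variable {p} {G : Type} [Group G] [TopologicalSpace G] [IsTopologicalGroup G]

variable (p) in
/-- The action on `p`-adic functions on cosets. -/
def permLatAct (H : Subgroup G) : DistribMulAction G (G ⧸ H → ℤ_[p]) where
  smul := fun g f c => f (g⁻¹ • c)
  one_smul := fun f => by funext c; change f ((1 : G)⁻¹ • c) = f c; simp
  mul_smul := fun g h f => by
    funext c
    change f ((g * h)⁻¹ • c) = f (h⁻¹ • (g⁻¹ • c))
    rw [mul_inv_rev, mul_smul]
  smul_zero := fun _ => rfl
  smul_add := fun _ _ _ => rfl

theorem permLat_cont (H : Subgroup G) [H.FiniteIndex] (hH : IsOpen (H : Set G)) (n : ℕ)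
    (v : G ⧸ H → ℤ_[p]) :
    letI := permLatAct p H
    IsOpen {g : G | ∃ y : G ⧸ H → ℤ_[p], g • v - v = (p : ℤ_[p]) ^ n • y} := by
  letI := permLatAct p H
  have hU : IsOpen (⋂ c : G ⧸ H, {g : G | g⁻¹ • c = c}) := by
    refine isOpen_iInter_of_finite fun c => ?_
    induction c using QuotientGroup.induction_on with
    | H x =>
      have : {g : G | g⁻¹ • (x : G ⧸ H) = x} = (fun g : G => x⁻¹ * g * x) ⁻¹' (H : Set G) := by
        ext g
        simp only [Set.mem_setOf_eq, Set.mem_preimage, SetLike.mem_coe]
        change ((g⁻¹ * x : G) : G ⧸ H) = x ↔ _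
        rw [QuotientGroup.eq]
        simp [mul_assoc]
      rw [this]
      exact hH.preimage (by fun_prop)
  have hkey : ∀ g : G, ∀ u : G, (∀ c : G ⧸ H, u⁻¹ • c = c) →
      (u * g) • v = g • v := by
    intro g u hu
    funext c
    change v ((u * g)⁻¹ • c) = v (g⁻¹ • c)
    rw [mul_inv_rev, mul_smul, hu c]
  rw [isOpen_iff_mem_nhds]
  rintro g ⟨y, hy⟩
  have h1 : IsOpen ((fun x : G => x * g⁻¹) ⁻¹' (⋂ c : G ⧸ H, {g : G | g⁻¹ • c = c})) :=
    hU.preimage (by fun_prop)
  refine Filter.mem_of_superset (h1.mem_nhds ?_) ?_
  · simp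
  · intro x hx
    simp only [Set.mem_preimage, Set.mem_iInter, Set.mem_setOf_eq] at hx
    refine ⟨y, ?_⟩
    have := hkey g (x * g⁻¹) hx
    rw [inv_mul_cancel_right] at this
    rw [this, hy]

variable (p) in
/-- The permutation lattice of `G` modulo `H`. -/
noncomputable def permLat (H : Subgroup G) [H.FiniteIndex] (hH : IsOpen (H : Set G)) :
    Lattice p G :=
  letI := permLatAct p H
  haveI : Finite (G ⧸ H) := inferInstance
  { carrier := G ⧸ H → ℤ_[p]
    comm := ⟨fun _ _ _ => rfl⟩
    cont := permLat_cont H hH
    red := perm p H hH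
    proj :=
      { toFun := fun f c => PadicInt.toZMod (f c)
        map_zero' := by funext c; exact map_zero _
        map_add' := fun f g => by funext c; exact map_add _ _ _ }
    proj_surjective := fun f => by
      refine ⟨fun c => ((f c : ZMod p).val : ℤ_[p]), ?_⟩
      funext c
      change PadicInt.toZMod (((f c : ZMod p).val : ℕ) : ℤ_[p]) = f c
      rw [map_natCast, ZMod.natCast_zmod_val]
    proj_eq_zero := fun f => by
      constructor
      · intro h
        have : ∀ c, ∃ y : ℤ_[p], f c = (p : ℤ_[p]) * y := by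
          intro c
          have hc : PadicInt.toZMod (f c) = 0 := congrFun h c
          have hm : f c ∈ RingHom.ker (PadicInt.toZMod (p := p)) := hc
          rw [PadicInt.ker_toZMod, PadicInt.maximalIdeal_eq_span_p,
            Ideal.mem_span_singleton] at hm
          exact hm
        choose y hy using this
        exact ⟨y, funext hy⟩
      · rintro ⟨y, rfl⟩
        funext c
        change PadicInt.toZMod ((p : ℤ_[p]) * y c) = 0
        rw [map_mul, map_natCast, CharP.cast_eq_zero, zero_mul]
    proj_smul := fun _ _ => rfl }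

variable (p) in
/-- The permutation lattice of a number field. -/
noncomputable def fieldLat (F : IntermediateField ℚ Om) (hF : FiniteDimensional ℚ F) :
    Lattice p Gal :=
  haveI := finiteIndex_fixing F hF
  permLat p F.fixingSubgroup (IntermediateField.fixingSubgroup_isOpen F)

theorem fieldLat_red (F : IntermediateField ℚ Om) (hF : FiniteDimensional ℚ F) :
    (fieldLat p F hF).red = fieldMod p F hF := rfl

/-- **All modules, from primitive fields of `p`-power degree.** -/
theorem h2_eq_zero_of_primitive (hsol : HasSplitSolutions p Gal)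
    (T : LocalizedCohomology p Gal) (h1 : T.h1 (triv p Gal) = 0) (A : GMod p Gal)
    (h : ∀ (F' : IntermediateField ℚ Om) (hF' : FiniteDimensional ℚ F'), IsPrimitive F' →
      (∃ n : ℕ, Module.finrank ℚ F' = p ^ n) → Module.finrank ℚ F' ≤ Nat.card A.carrier →
      muRank T F' hF' = 0) :
    T.h2 A = 0 := by
  refine h2_eq_zero_of_irred T (Nat.card A.carrier) ?_ A le_rfl
  intro W hW hcard
  obtain ⟨z, hz, ho, hs⟩ := hsol W
  have hs' : Function.Surjective z := fun v => by
    obtain ⟨g, _, hg⟩ := hs v
    exact ⟨g, hg⟩
  have hi := index_zeroSub hz hs'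
  haveI hfin : (zeroSub hz).FiniteIndex := by
    constructor
    rw [hi]
    exact Nat.card_pos.ne'
  have hH : IsOpen (zeroSub hz : Set Gal) := ho
  have hle := h2_le_perm T hz ho hs' (zeroSub hz) hH (fun h hh => hh)
  obtain ⟨n, hn⟩ : ∃ n : ℕ, Nat.card W.carrier = p ^ n := by
    refine ⟨Module.finrank (ZMod p) W.carrier, ?_⟩
    have := Module.natCard_eq_pow_finrank (K := ZMod p) (V := W.carrier)
    rwa [Nat.card_zmod] at this
  have hfix := exists_field (zeroSub hz) hH
  have hdeg : Module.finrank ℚ (IntermediateField.fixedField (zeroSub hz)) =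
      Nat.card W.carrier := by
    rw [IntermediateField.finrank_eq_fixingSubgroup_index, hfix, hi]
  have hzero := h (IntermediateField.fixedField (zeroSub hz)) (finite_fixedField _ hH)
    (isPrimitive_fixedField hH (isCoatom_zeroSub hW hz hs)) ⟨n, hdeg.trans hn⟩
    (hdeg.trans_le hcard)
  unfold muRank at hzero
  rw [h2_fieldMod_fixedField T _ hH] at hzero
  omega

end Pool.Agent.R910.Mu
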