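import Pool.Agent.R910.Mu.Ratio

/-!
# Layers of the functions on an elementary abelian quotient, for a general Euler formula
-/

set_option autoImplicit false

namespace Pool.Agent.R910.Mu

variable {p : ℕ} [Fact p.Prime] {G : Type} [Group G] [TopologicalSpace G]

section layer

variable [IsTopologicalGroup G]

theorem h2_sub_le_of_euler' (T : FullCohomology p G) (K : Subgroup G) (R : ℕ)
    (heul : ∀ A : GMod p G, ActsVia K A →
      T.h1 A = T.h2 A + R * Module.finrank (ZMod p) A.carrier)
    (A : GMod p G) (hA : ActsVia K A)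
    (S : Submodule (ZMod p) A.carrier) (hS : ∀ (g : G), ∀ a ∈ S, g • a ∈ S) :
    T.h2 (A.sub S hS) + R * Module.finrank (ZMod p) S ≤
      T.h2 A + R * Module.finrank (ZMod p) A.carrier := by
  have h1 : ActsVia K (A.sub S hS) := fun g hg a => Subtype.ext (hA g hg a.1)
  have h2 := heul _ h1
  have h3 := heul _ hA
  have h4 := T.h1_sub_le (subquot_exact A S hS)
  have h5 : Module.finrank (ZMod p) (A.sub S hS).carrier = Module.finrank (ZMod p) S := rfl
  rw [h5] at h2
  rw [← h2, ← h3]
  exact h4

/-- A layer with trivial action. -/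
theorem layer_le' (T : FullCohomology p G) (K : Subgroup G) (R : ℕ)
    (heul : ∀ A : GMod p G, ActsVia K A →
      T.h1 A = T.h2 A + R * Module.finrank (ZMod p) A.carrier)
    (A : GMod p G) (hA : ActsVia K A)
    (S S' : Submodule (ZMod p) A.carrier) (hle : S ≤ S')
    (hS : ∀ (g : G), ∀ a ∈ S, g • a ∈ S) (hS' : ∀ (g : G), ∀ a ∈ S', g • a ∈ S')
    (htriv : ∀ (g : G), ∀ a ∈ S', g • a - a ∈ S) (d c : ℕ)
    (hd : Module.finrank (ZMod p) S' = Module.finrank (ZMod p) S + d)
    (hc : Module.finrank (ZMod p) S' + c = Module.finrank (ZMod p) A.carrier) :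
    d * T.h2 (triv p G) ≤ T.h2 A + R * c := by
  have hR : ∀ (g : G) (a : (A.sub S' hS').carrier),
      a ∈ (S.comap S'.subtype : Submodule (ZMod p) S') →
      g • a ∈ (S.comap S'.subtype : Submodule (ZMod p) S') := by
    intro g a ha
    exact hS g _ ha
  have hC : ∀ (g : G) (c : ((A.sub S' hS').quot (S.comap S'.subtype) hR).carrier),
      g • c = c := by
    intro g c
    obtain ⟨a, rfl⟩ := Submodule.mkQ_surjective (S.comap S'.subtype : Submodule (ZMod p) S') c
    refine (Submodule.Quotient.eq (S.comap S'.subtype : Submodule (ZMod p) S')).mpr ?_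
    exact htriv g a.1 a.2
  have e1 := finrank_mul_le T.toLocalizedCohomology _ hC
  have e2 := h2_quot_le T.toLocalizedCohomology
    (subquot_exact (A.sub S' hS') (S.comap S'.subtype) hR)
  have e3 := h2_sub_le_of_euler' T K R heul A hA S' hS'
  have e4 : Module.finrank (ZMod p) ((A.sub S' hS').quot (S.comap S'.subtype) hR).carrier +
      Module.finrank (ZMod p) S = Module.finrank (ZMod p) S' := by
    have h5 := Submodule.finrank_quotient_add_finrank
      (R := ZMod p) (S.comap S'.subtype : Submodule (ZMod p) S')
    have h6 : Module.finrank (ZMod p) (S.comap S'.subtype : Submodule (ZMod p) S') =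
        Module.finrank (ZMod p) S := (Submodule.submoduleOfEquivOfLe hle).finrank_eq
    rw [h6] at h5
    exact h5
  have e5 : Module.finrank (ZMod p) ((A.sub S' hS').quot (S.comap S'.subtype) hR).carrier = d := by
    omega
  rw [e5] at e1
  have e6 : R * Module.finrank (ZMod p) A.carrier =
      R * Module.finrank (ZMod p) S' + R * c := by rw [← hc, mul_add]
  have e7 := e1.trans e2
  omega

/-- **The layers of the functions on an elementary abelian quotient.** -/
theorem elementary_layers (T : FullCohomology p G) (R : ℕ) {b : ℕ}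
    (z : G → Fin b → ZMod p) (hz : ∀ g h : G, z (g * h) = z g + z h)
    (ho : IsOpen {g : G | z g = 0}) (hs : Function.Surjective z)
    (K : Subgroup G) [K.FiniteIndex] (hK : IsOpen (K : Set G)) (hk : ∀ g : G, g ∈ K ↔ z g = 0)
    (heul : ∀ A : GMod p G, ActsVia K A →
      T.h1 A = T.h2 A + R * Module.finrank (ZMod p) A.carrier)
    (j : ℕ) (hj : j ≤ b * (p - 1)) :
    countEq p b j * T.h2 (triv p G) ≤ T.h2 (perm p K hK) + R * countLt p b j := by
  have h0 := polys_le (p := p) b
  have hA : ActsVia K (funMod z hz ho) := by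
    intro g hg f
    funext x
    change (f : (Fin b → ZMod p) → ZMod p) (x - z g) = f x
    rw [(hk g).mp hg, sub_zero]
  have hst : ∀ i, ∀ (g : G), ∀ a ∈ polys p b i, trans (z g) a ∈ polys p b i := by
    intro i
    induction i with
    | zero =>
      intro g a ha
      have : a = 0 := (Submodule.mem_bot (ZMod p)).mp ha
      rw [this, map_zero]
      exact Submodule.zero_mem _
    | succ i _ =>
      intro g a ha
      have h1 := h0 i (trans_sub_mem b i (z g) a ha)
      have h2 := (polys p b (i + 1)).add_mem h1 ha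
      rwa [sub_add_cancel] at h2
  have h := layer_le' T K R heul (funMod z hz ho) hA (polys p b (b * (p - 1) - j))
    (polys p b (b * (p - 1) - j + 1)) (h0 _) (hst _) (hst _)
    (fun g a ha => trans_sub_mem b _ (z g) a ha) (countEq p b j) (countLt p b j) ?_ ?_
  · exact h.trans (Nat.add_le_add_right
      (h2_funMod_le T.toLocalizedCohomology z hz ho hs K hK hk) _)
  · have e1 := finrank_polys (p := p) b (b * (p - 1) - j + 1)
    have e2 := finrank_polys (p := p) b (b * (p - 1) - j)
    refine e1.trans (Eq.trans ?_ (congrArg (fun x => x + countEq p b j) e2.symm))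
    change countLt p b (b * (p - 1) - j + 1) = countLt p b (b * (p - 1) - j) + countEq p b j
    rw [countLt_succ, countEq_symm b j hj]
  · have e1 := finrank_polys (p := p) b (b * (p - 1) - j + 1)
    have h1 : Module.finrank (ZMod p) (funMod z hz ho).carrier = p ^ b := by
      change Module.finrank (ZMod p) ((Fin b → ZMod p) → ZMod p) = p ^ b
      rw [Module.finrank_pi]
      simp
    exact (congrArg (fun x => x + countLt p b j) e1).trans ((countLt_symm b j hj).trans h1.symm)

end layer

/-- **Growth over number fields.** -/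
theorem layers_over {p : ℕ} [Fact p.Prime] (hp : p ≠ 2) (F : IntermediateField ℚ Om)
    (T : FullCohomology p (GalOver F)) (R : ℕ)
    (hT : ∀ A : GMod p (GalOver F), IsEvenOver A →
      T.h1 A = T.h2 A + R * Module.finrank (ZMod p) A.carrier) (b : ℕ)
    (M : IntermediateField ℚ Om) (hM : FiniteDimensional ℚ M) (hel : IsElementary p F M b)
    (j : ℕ) (hj : j ≤ b * (p - 1)) :
    countEq p b j * T.h2 (triv p (GalOver F)) ≤
      T.h2 (permOver p F M hM) + R * countLt p b j := by
  obtain ⟨_, z, hz, hs, hk⟩ := hel
  haveI hfi := subOver_finiteIndex F M hM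
  have h1 : z 1 = 0 := by
    have := hz 1 1
    simpa using this
  have ho' := subOver_open F M hM
  have ho : IsOpen {g : GalOver F | z g = 0} := by
    have : {g : GalOver F | z g = 0} = (subOver F M : Set (GalOver F)) := by
      ext g
      exact (hk g).symm
    rw [this]
    exact ho'
  have heul : ∀ A : GMod p (GalOver F), ActsVia (subOver F M) A →
      T.h1 A = T.h2 A + R * Module.finrank (ZMod p) A.carrier := by
    intro A hA
    refine hT A fun c hc a => hA c ?_ a
    refine (hk c).mpr ?_
    have hcc : c * c = 1 := Subtype.ext hc.sq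
    have h2 : (2 : ZMod p) • z c = 0 := by
      have := hz c c
      rw [hcc, h1] at this
      rw [two_smul]
      exact this.symm
    have h3 : (2 : ZMod p) ≠ 0 := by
      intro h0
      have : ((2 : ℕ) : ZMod p) = 0 := by exact_mod_cast h0
      rw [ZMod.natCast_eq_zero_iff] at this
      exact hp ((Nat.prime_dvd_prime_iff_eq Fact.out Nat.prime_two).mp this)
    exact (smul_eq_zero.mp h2).resolve_left h3
  exact elementary_layers T R z hz ho hs (subOver F M) ho' hk heul j hj

/-- Exponential growth in the rank. -/
theorem exponential_over {p : ℕ} [Fact p.Prime] (hp : p ≠ 2) (F : IntermediateField ℚ Om)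
    (T : FullCohomology p (GalOver F)) (R : ℕ)
    (hT : ∀ A : GMod p (GalOver F), IsEvenOver A →
      T.h1 A = T.h2 A + R * Module.finrank (ZMod p) A.carrier) (b : ℕ)
    (M : IntermediateField ℚ Om) (hM : FiniteDimensional ℚ M) (hel : IsElementary p F M b)
    (hF : T.h2 (triv p (GalOver F)) ≠ 0) (j : ℕ) (hj : (R + 3) * j ≤ b) :
    (R + 2) ^ j ≤ (R + 1) * T.h2 (permOver p F M hM) := by
  have hp2 : 2 ≤ p := (Fact.out : p.Prime).two_le
  have hj' : j ≤ b * (p - 1) := by
    have h1 : j ≤ (R + 3) * j := Nat.le_mul_of_pos_left _ (by omega)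
    have h2 : b ≤ b * (p - 1) := Nat.le_mul_of_pos_right _ (by omega)
    omega
  have h := layers_over hp F T R hT b M hM hel j hj'
  obtain ⟨h1, h2⟩ := countEq_growth (p := p) b j R hj j le_rfl
  have h3 : countEq p b j ≤ countEq p b j * T.h2 (triv p (GalOver F)) :=
    Nat.le_mul_of_pos_right _ (Nat.pos_of_ne_zero hF)
  have h4 : countEq p b j ≤ T.h2 (permOver p F M hM) + R * countLt p b j := h3.trans h
  have h5 : (R + 1) * countEq p b j ≤
      (R + 1) * T.h2 (permOver p F M hM) + R * countEq p b j := by
    calc (R + 1) * countEq p b j ≤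
        (R + 1) * (T.h2 (permOver p F M hM) + R * countLt p b j) := Nat.mul_le_mul_left _ h4
      _ = (R + 1) * T.h2 (permOver p F M hM) + R * ((R + 1) * countLt p b j) := by ring
      _ ≤ _ := Nat.add_le_add_left (Nat.mul_le_mul_left _ h2) _
  have h6 : (R + 1) * countEq p b j = R * countEq p b j + countEq p b j := by ring
  omega

end Pool.Agent.R910.Mu
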