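import Pool.Agent.R910.Mu.Fields

/-!
# The growth law for number fields
-/

set_option autoImplicit false

namespace Pool.Agent.R910.Mu

variable {p : ℕ} [Fact p.Prime]

/-- The mu-rank of a number field with respect to a cohomology theory: the dimension of the second
cohomology of its permutation module. -/
noncomputable def muRank (T : LocalizedCohomology p Gal) (F : IntermediateField ℚ Om)
    (hF : FiniteDimensional ℚ F) : ℕ :=
  T.h2 (fieldMod p F hF)

/-- **The growth law.** -/
theorem exists_field_growth (hsol : HasSplitSolutions p Gal) (T : LocalizedCohomology p Gal)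
    (F : IntermediateField ℚ Om) (hF : FiniteDimensional ℚ F) (m : ℕ) :
    ∃ (F' : IntermediateField ℚ Om) (hF' : FiniteDimensional ℚ F'),
      Module.finrank ℚ F' = p ^ ((m + 1) * Module.finrank ℚ F) ∧
      (m + 1) * muRank T F hF ≤ muRank T F' hF' + T.h1 (triv p Gal) := by
  obtain ⟨H, hfin, hH, hi, hle⟩ := exists_subgroup hsol T (fieldMod p F hF) m
  refine ⟨IntermediateField.fixedField H, finite_fixedField H hH, ?_, ?_⟩
  · rw [IntermediateField.finrank_eq_fixingSubgroup_index, exists_field H hH, hi,
      card_fieldMod, ← pow_mul, mul_comm]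
  · unfold muRank
    rw [h2_fieldMod_fixedField T H hH]
    exact hle

end Pool.Agent.R910.Mu
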