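import Pool.Agent.R910.Mu.Growth
import Pool.Agent.R910.Mu.Real

/-!
# The Galois group of a number field, and permutation modules of its extensions
-/

set_option autoImplicit false

namespace Pool.Agent.R910.Mu

/-- The absolute Galois group of a number field `F` inside the algebraic closure of `ℚ`. -/
def GalOver (F : IntermediateField ℚ Om) : Type := F.fixingSubgroup

noncomputable instance groupOver (F : IntermediateField ℚ Om) : Group (GalOver F) :=
  inferInstanceAs (Group F.fixingSubgroup)

instance topOver (F : IntermediateField ℚ Om) : TopologicalSpace (GalOver F) :=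
  inferInstanceAs (TopologicalSpace F.fixingSubgroup)

instance topGroupOver (F : IntermediateField ℚ Om) : IsTopologicalGroup (GalOver F) :=
  inferInstanceAs (IsTopologicalGroup F.fixingSubgroup)

/-- The automorphism of the algebraic closure given by an element of the Galois group of `F`. -/
def GalOver.aut {F : IntermediateField ℚ Om} (g : GalOver F) : Gal := Subtype.val g

/-- The Galois group of `M` in that of `F`. -/
noncomputable def subOver (F M : IntermediateField ℚ Om) : Subgroup (GalOver F) :=
  (M.fixingSubgroup.subgroupOf F.fixingSubgroup : Subgroup F.fixingSubgroup)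

theorem mem_subOver (F M : IntermediateField ℚ Om) (g : GalOver F) :
    g ∈ subOver F M ↔ g.aut ∈ M.fixingSubgroup := Iff.rfl

theorem subOver_open (F M : IntermediateField ℚ Om) (hM : FiniteDimensional ℚ M) :
    IsOpen (subOver F M : Set (GalOver F)) :=
  (IntermediateField.fixingSubgroup_isOpen M).preimage continuous_subtype_val

theorem subOver_finiteIndex (F M : IntermediateField ℚ Om) (hM : FiniteDimensional ℚ M) :
    (subOver F M).FiniteIndex := by
  haveI := finiteIndex_fixing M hM
  exact inferInstanceAs
    ((M.fixingSubgroup.subgroupOf F.fixingSubgroup : Subgroup F.fixingSubgroup).FiniteIndex)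

/-- The permutation module of the extension `M` of `F`. -/
noncomputable def permOver (p : ℕ) [Fact p.Prime] (F M : IntermediateField ℚ Om)
    (hM : FiniteDimensional ℚ M) : GMod p (GalOver F) :=
  haveI := subOver_finiteIndex F M hM
  perm p (subOver F M) (subOver_open F M hM)

/-- All complex conjugations act trivially on the module `A` over the number field `F`. -/
def IsEvenOver {p : ℕ} [Fact p.Prime] {F : IntermediateField ℚ Om} (A : GMod p (GalOver F)) :
    Prop :=
  ∀ c : GalOver F, IsConj c.aut → ∀ a : A.carrier, c • a = a

/-- The field `M` is a Galois extension of `F` with group isomorphic to `(Z/p) ^ b`: its Galois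
group is the kernel of a surjective homomorphism from that of `F` to `(Z/p) ^ b`. -/
def IsElementary (p : ℕ) (F M : IntermediateField ℚ Om) (b : ℕ) : Prop :=
  F ≤ M ∧ ∃ z : GalOver F → (Fin b → ZMod p), (∀ g h, z (g * h) = z g + z h) ∧
    Function.Surjective z ∧ ∀ g : GalOver F, g ∈ subOver F M ↔ z g = 0

/-- **Growth over totally real fields.** -/
theorem growth_over {p : ℕ} [Fact p.Prime] (hp : p ≠ 2) (F : IntermediateField ℚ Om)
    (T : FullCohomology p (GalOver F))
    (hT : ∀ A : GMod p (GalOver F), IsEvenOver A → T.h1 A = T.h2 A) (b : ℕ)
    (M : IntermediateField ℚ Om) (hM : FiniteDimensional ℚ M) (hel : IsElementary p F M b) :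
    p ^ b * T.h2 (triv p (GalOver F)) ≤ (b * (p - 1) + 1) * T.h2 (permOver p F M hM) := by
  obtain ⟨_, z, hz, hs, hk⟩ := hel
  haveI hfi := subOver_finiteIndex F M hM
  have h1 : z 1 = 0 := by
    have := hz 1 1
    simpa using this
  have ho' := subOver_open F M hM
  have ho : IsOpen {g : GalOver F | z g = 0} := by
    have : {g : GalOver F | z g = 0} = (subOver F M : Set (GalOver F)) := by
      ext g
      exact (hk g).symm
    rw [this]
    exact ho'
  have heul : ∀ A : GMod p (GalOver F), ActsVia (subOver F M) A → T.h1 A = T.h2 A := by
    intro A hA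
    refine hT A fun c hc a => hA c ?_ a
    refine (hk c).mpr ?_
    have hcc : c * c = 1 := Subtype.ext hc.sq
    have h2 : (2 : ZMod p) • z c = 0 := by
      have := hz c c
      rw [hcc, h1] at this
      rw [two_smul]
      exact this.symm
    have h3 : (2 : ZMod p) ≠ 0 := by
      intro h0
      have : ((2 : ℕ) : ZMod p) = 0 := by exact_mod_cast h0
      rw [ZMod.natCast_eq_zero_iff] at this
      exact hp ((Nat.prime_dvd_prime_iff_eq Fact.out Nat.prime_two).mp this)
    exact (smul_eq_zero.mp h2).resolve_left h3
  exact elementary_growth T z hz ho hs (subOver F M) ho' hk heul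

end Pool.Agent.R910.Mu
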