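import Pool.Agent.R910.Mu.Main

/-!
# Irreducible modules, primitive fields and odd quadratic twists
-/

set_option autoImplicit false

namespace Pool.Agent.R910.Mu

variable {p : ℕ} [Fact p.Prime]

section group

variable {G : Type} [Group G] [TopologicalSpace G]

/-- A module is irreducible if it is nonzero and has no other stable submodules. -/
def IsIrred (V : GMod p G) : Prop :=
  Nontrivial V.carrier ∧ ∀ S : Submodule (ZMod p) V.carrier,
    (∀ (g : G), ∀ a ∈ S, g • a ∈ S) → S = ⊥ ∨ S = ⊤

theorem h2_subsingleton (T : LocalizedCohomology p G) (W : GMod p G)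
    (h : Subsingleton W.carrier) : T.h2 W = 0 := by
  have hs : IsShortExact (GHom.id W) (GHom.id W) := by
    refine ⟨Function.injective_of_subsingleton _, ?_, fun y => ⟨y, rfl⟩⟩
    intro x
    exact ⟨fun _ => ⟨x, rfl⟩, fun _ => Subsingleton.elim _ _⟩
  have := h2_split T hs (GHom.id W) rfl
  omega

/-- **Devissage.** A statement on the second cohomology of modules of bounded size follows from the
irreducible ones. -/
theorem h2_eq_zero_of_irred [IsTopologicalGroup G] (T : LocalizedCohomology p G) (N : ℕ)
    (h : ∀ V : GMod p G, IsIrred V → Nat.card V.carrier ≤ N → T.h2 V = 0) :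
    ∀ W : GMod p G, Nat.card W.carrier ≤ N → T.h2 W = 0 := by
  have key : ∀ n : ℕ, ∀ W : GMod p G, Nat.card W.carrier ≤ n → Nat.card W.carrier ≤ N →
      T.h2 W = 0 := by
    intro n
    induction n with
    | zero =>
      intro W hW _
      exact absurd hW (by have := Nat.card_pos (α := W.carrier); omega)
    | succ n ih =>
      intro W hW hN
      rcases subsingleton_or_nontrivial W.carrier with h0 | h0
      · exact h2_subsingleton T W h0
      · by_cases hirr : IsIrred W
        · exact h W hirr hN
        · have : ∃ S : Submodule (ZMod p) W.carrier, (∀ (g : G), ∀ a ∈ S, g • a ∈ S) ∧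
              S ≠ ⊥ ∧ S ≠ ⊤ := by
            by_contra hcon
            push Not at hcon
            refine hirr ⟨h0, fun S hS => ?_⟩
            by_cases hb : S = ⊥
            · exact Or.inl hb
            · exact Or.inr (hcon S hS hb)
          obtain ⟨S, hS, hb, ht⟩ := this
          have hc : Nat.card W.carrier = Nat.card S * Nat.card (W.carrier ⧸ S) :=
            Submodule.card_eq_card_quotient_mul_card S
          have hS1 : 1 < Nat.card S := by
            haveI : Nontrivial S := (Submodule.nontrivial_iff_ne_bot).mpr hb
            exact Finite.one_lt_card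
          have hQ1 : 1 < Nat.card (W.carrier ⧸ S) := by
            haveI : Nontrivial (W.carrier ⧸ S) := Submodule.Quotient.nontrivial_iff.mpr ht
            haveI : Finite (W.carrier ⧸ S) := Finite.of_surjective _ (Submodule.mkQ_surjective S)
            exact Finite.one_lt_card
          have e1 : Nat.card S < Nat.card W.carrier := by
            rw [hc]; nlinarith
          have e2 : Nat.card (W.carrier ⧸ S) < Nat.card W.carrier := by
            rw [hc]; nlinarith
          have h1 := ih (W.sub S hS) (by change Nat.card S ≤ n; omega)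
            (by change Nat.card S ≤ N; omega)
          have h2 := ih (W.quot S hS) (by change Nat.card (W.carrier ⧸ S) ≤ n; omega)
            (by change Nat.card (W.carrier ⧸ S) ≤ N; omega)
          have := h2_le_add T (subquot_exact W S hS)
          omega
  exact fun W hW => key _ W le_rfl hW

/-- The zeros of a crossed homomorphism which maps the elements acting trivially onto an
irreducible module form a maximal subgroup. -/
theorem isCoatom_zeroSub {V : GMod p G} (hV : IsIrred V) {z : G → V.carrier}
    (hz : ∀ g h : G, z (g * h) = z g + g • z h)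
    (hs : ∀ v : V.carrier, ∃ g : G, (∀ w : V.carrier, g • w = w) ∧ z g = v) :
    IsCoatom (zeroSub hz) := by
  have h1 : z 1 = 0 := by
    have := hz 1 1
    simpa using this
  constructor
  · intro htop
    obtain ⟨a, b, hab⟩ := hV.1
    have hz0 : ∀ v : V.carrier, v = 0 := by
      intro v
      obtain ⟨g, _, rfl⟩ := hs v
      have : g ∈ zeroSub hz := htop ▸ Subgroup.mem_top g
      exact this
    exact hab ((hz0 a).trans (hz0 b).symm)
  · intro K hK
    have hle : zeroSub hz ≤ K := hK.le
    -- elements of K acting trivially
    have hlift : ∀ k ∈ K, ∃ n ∈ K, (∀ w : V.carrier, n • w = w) ∧ z n = z k := by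
      intro k hk
      obtain ⟨n, hn, hzn⟩ := hs (z k)
      refine ⟨n, ?_, hn, hzn⟩
      have : n⁻¹ * k ∈ zeroSub hz := by
        rw [mem_zeroSub, hz]
        have e := hz n⁻¹ n
        rw [inv_mul_cancel, h1] at e
        rw [eq_neg_of_add_eq_zero_left e.symm, hzn]
        exact neg_add_cancel _
      have h2 := K.mul_mem hk (K.inv_mem (hle this))
      have h3 : k * (n⁻¹ * k)⁻¹ = n := by group
      rwa [h3] at h2
    let S : Submodule (ZMod p) V.carrier :=
      { carrier := z '' K
        add_mem' := by
          rintro _ _ ⟨a, ha, rfl⟩ ⟨b, hb, rfl⟩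
          obtain ⟨n, hn, hn1, hn2⟩ := hlift a ha
          refine ⟨n * b, K.mul_mem hn hb, ?_⟩
          rw [hz, hn1, hn2]
        zero_mem' := ⟨1, K.one_mem, h1⟩
        smul_mem' := by
          intro c x hx
          obtain ⟨n, rfl⟩ := ZMod.natCast_zmod_surjective (n := p) c |>.imp fun _ h => h
          induction n with
          | zero => simpa using (⟨1, K.one_mem, h1⟩ : (0 : V.carrier) ∈ z '' K)
          | succ n ih =>
            obtain ⟨a, ha, hax⟩ := ih
            obtain ⟨b, hb, rfl⟩ := hx
            obtain ⟨n', hn', hn1, hn2⟩ := hlift a ha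
            refine ⟨n' * b, K.mul_mem hn' hb, ?_⟩
            rw [hz, hn1, hn2, hax]
            push_cast
            rw [add_smul, one_smul] }
    have hS : ∀ (g : G), ∀ a ∈ S, g • a ∈ S := by
      rintro g _ ⟨k, hk, rfl⟩
      obtain ⟨n, hn, hn1, hn2⟩ := hlift k hk
      obtain ⟨m, hm, hzm⟩ := hs (z g)
      -- g = m h with h in the zero subgroup
      have hh : m⁻¹ * g ∈ zeroSub hz := by
        rw [mem_zeroSub, hz]
        have e := hz m⁻¹ m
        rw [inv_mul_cancel, h1] at e
        rw [eq_neg_of_add_eq_zero_left e.symm, hzm]
        exact neg_add_cancel _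
      set h := m⁻¹ * g with hdef
      have hzh : z h = 0 := hh
      have hzh' : z h⁻¹ = 0 := (zeroSub hz).inv_mem hh
      refine ⟨h * n, K.mul_mem (hle hh) hn, ?_⟩
      rw [hz, hzh, zero_add, hn2, hdef, mul_smul]
      have : ∀ w : V.carrier, m⁻¹ • w = w := fun w => by
        rw [inv_smul_eq_iff, hm]
      rw [this]
    rcases hV.2 S hS with hbot | htop
    · exfalso
      refine hK.not_ge fun k hk => ?_
      have : z k ∈ S := ⟨k, hk, rfl⟩
      rw [hbot] at this
      exact this
    · rw [eq_top_iff]
      intro g _
      have : z g ∈ S := htop ▸ Submodule.mem_top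
      obtain ⟨k, hk, hkg⟩ := this
      have hkg' : k⁻¹ * g ∈ zeroSub hz := by
        rw [mem_zeroSub, hz]
        have e := hz k⁻¹ k
        rw [inv_mul_cancel, h1] at e
        rw [eq_neg_of_add_eq_zero_left e.symm, ← hkg]
        exact neg_add_cancel _
      have := K.mul_mem hk (hle hkg')
      rwa [mul_inv_cancel_left] at this

end group

end Pool.Agent.R910.Mu
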