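import Pool.Agent.R910.Mu.Prim

/-!
# Composita of primitive fields with a quadratic field
-/

set_option autoImplicit false

namespace Pool.Agent.R910.Mu

variable (p : ℕ) [Fact p.Prime]

open Classical in
/-- The quadratic character of a quadratic field, with values in the units of the prime field. -/
noncomputable def quadChar (k : IntermediateField ℚ Om) (hk : Module.finrank ℚ k = 2) :
    Gal →* (ZMod p)ˣ where
  toFun g := if g ∈ k.fixingSubgroup then 1 else -1
  map_one' := by simp [Subgroup.one_mem]
  map_mul' := fun g h => by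
    have hi : k.fixingSubgroup.index = 2 := by
      rw [← IntermediateField.finrank_eq_fixingSubgroup_index, hk]
    have := Subgroup.mul_mem_iff_of_index_two hi (a := g) (b := h)
    by_cases hg : g ∈ k.fixingSubgroup <;> by_cases hh : h ∈ k.fixingSubgroup <;>
      simp [this, hg, hh]

variable {p}

theorem quadChar_apply_of_mem {k : IntermediateField ℚ Om} (hk : Module.finrank ℚ k = 2)
    {g : Gal} (hg : g ∈ k.fixingSubgroup) : quadChar p k hk g = 1 := by
  simp [quadChar, hg]

theorem quadChar_sq (k : IntermediateField ℚ Om) (hk : Module.finrank ℚ k = 2) (g : Gal) :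
    quadChar p k hk g * quadChar p k hk g = 1 := by
  by_cases hg : g ∈ k.fixingSubgroup <;> simp [quadChar, hg]

theorem quadChar_open (k : IntermediateField ℚ Om) (hk : Module.finrank ℚ k = 2) :
    IsOpen ((quadChar p k hk).ker : Set Gal) := by
  haveI : FiniteDimensional ℚ k := Module.finite_of_finrank_pos (by omega)
  refine Subgroup.isOpen_mono (H₁ := k.fixingSubgroup) ?_
    (IntermediateField.fixingSubgroup_isOpen k)
  intro g hg
  exact quadChar_apply_of_mem hk hg

/-- A field is primitive if it is not the base field and has no proper intermediate fields. -/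
def IsPrimitive (F : IntermediateField ℚ Om) : Prop :=
  F ≠ ⊥ ∧ ∀ E : IntermediateField ℚ Om, E ≤ F → E = ⊥ ∨ E = F

theorem isPrimitive_fixedField {H : Subgroup Gal} (hH : IsOpen (H : Set Gal))
    (hm : IsCoatom H) : IsPrimitive (IntermediateField.fixedField H) := by
  have hfix := exists_field H hH
  constructor
  · intro h
    rw [h] at hfix
    refine hm.1 ?_
    rw [← hfix]
    exact IntermediateField.fixingSubgroup_bot
  · intro E hE
    have hle : H ≤ E.fixingSubgroup := by
      rw [← hfix]
      exact IntermediateField.fixingSubgroup_le hE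
    have hEE : IntermediateField.fixedField E.fixingSubgroup = E :=
      InfiniteGalois.fixedField_fixingSubgroup E
    rcases hle.lt_or_eq with hlt | heq
    · left
      have := hm.2 _ hlt
      rw [this] at hEE
      rw [← hEE]
      have hb : (⊥ : IntermediateField ℚ Om).fixingSubgroup = ⊤ :=
        IntermediateField.fixingSubgroup_bot
      rw [← hb]
      exact InfiniteGalois.fixedField_fixingSubgroup ⊥
    · right
      rw [← hEE, ← heq]

section twist

variable {G : Type} [Group G] [TopologicalSpace G] [IsTopologicalGroup G]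

theorem IsIrred.twist {W : GMod p G} (hW : IsIrred W) (χ : G →* (ZMod p)ˣ)
    (hχ : IsOpen (χ.ker : Set G)) : IsIrred (W.twist χ hχ) := by
  refine ⟨hW.1, fun S hS => hW.2 S fun g a ha => ?_⟩
  have h1 : (χ g : ZMod p) • W.act.smul g a ∈ S := hS g a ha
  have h2 := S.smul_mem ((χ g)⁻¹ : (ZMod p)ˣ).val h1
  have h3 : ((χ g)⁻¹ : (ZMod p)ˣ).val • ((χ g : ZMod p) • W.act.smul g a) =
      W.act.smul g a := by
    rw [← mul_smul, Units.inv_mul, one_smul]
  have h4 : ((χ g)⁻¹ : (ZMod p)ˣ).val • ((χ g : ZMod p) • W.act.smul g a) ∈ S := h2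
  rw [h3] at h4
  exact h4

/-- Twisting twice by a quadratic character does nothing. -/
def untwistTwice (W : GMod p G) (χ : G →* (ZMod p)ˣ) (hχ : IsOpen (χ.ker : Set G))
    (h2 : ∀ g, χ g * χ g = 1) : GHom ((W.twist χ hχ).twist χ hχ) W where
  lin := LinearMap.id
  equi := fun g a => by
    have h : (χ g : ZMod p) • ((χ g : ZMod p) • W.act.smul g a) = W.act.smul g a := by
      rw [← mul_smul, ← Units.val_mul, h2, Units.val_one, one_smul]
    exact h

/-- An irreducible module is controlled by a maximal subgroup. -/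
theorem irred_h2_le (hsol : HasSplitSolutions p G) (T : LocalizedCohomology p G)
    (W : GMod p G) (hW : IsIrred W) (χ : G →* (ZMod p)ˣ) (hχ : IsOpen (χ.ker : Set G))
    (hχ2 : ∀ g, χ g * χ g = 1) :
    ∃ H : Subgroup G, IsOpen (H : Set G) ∧ IsCoatom H ∧ H.index = Nat.card W.carrier ∧
      ∀ (K : Subgroup G) (_ : K.FiniteIndex) (hK : IsOpen (K : Set G)),
        K ≤ H → (∀ g ∈ K, χ g = 1) →
        T.h2 W ≤ T.h2 (perm p K hK) + T.h1 ((triv p G).twist χ hχ) := by
  obtain ⟨z, hz, ho, hs⟩ := hsol (W.twist χ hχ)
  have hs' : Function.Surjective z := fun v => by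
    obtain ⟨g, _, hg⟩ := hs v
    exact ⟨g, hg⟩
  refine ⟨zeroSub hz, ho, isCoatom_zeroSub (hW.twist χ hχ) hz hs, index_zeroSub hz hs', ?_⟩
  intro K hKf hK hKH hKχ
  have e1 := h2_twist_le (W.twist χ hχ) z hz ho χ hχ K hK T hKχ (fun h hh => hKH hh) hs'
  have e2 := h2_le_of_surjective T (untwistTwice W χ hχ hχ2) Function.surjective_id
  omega

end twist

theorem h2_fieldMod_eq (T : LocalizedCohomology p Gal) (F : IntermediateField ℚ Om)
    (hF : FiniteDimensional ℚ F) (H : Subgroup Gal) [H.FiniteIndex]
    (hH : IsOpen (H : Set Gal)) (h : F.fixingSubgroup = H) :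
    T.h2 (fieldMod p F hF) = T.h2 (perm p H hH) := by
  subst h
  rfl

/-- **Primitive fields of `p`-power degree, composed with a quadratic field, suffice.** -/
theorem muRank_eq_zero_of_primitive (hsol : HasSplitSolutions p Gal)
    (T : LocalizedCohomology p Gal) (k : IntermediateField ℚ Om)
    (hk : Module.finrank ℚ k = 2)
    (h1 : T.h1 ((triv p Gal).twist (quadChar p k hk) (quadChar_open k hk)) = 0)
    (F : IntermediateField ℚ Om) (hF : FiniteDimensional ℚ F)
    (h : ∀ (F' : IntermediateField ℚ Om) (_ : FiniteDimensional ℚ F')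
      (hFk : FiniteDimensional ℚ ↥(F' ⊔ k)) (n : ℕ), IsPrimitive F' →
      Module.finrank ℚ F' = p ^ n → n ≤ Module.finrank ℚ F → muRank T (F' ⊔ k) hFk = 0) :
    muRank T F hF = 0 := by
  have hp1 : 1 < p := (Fact.out : p.Prime).one_lt
  refine h2_eq_zero_of_irred T (p ^ Module.finrank ℚ F) ?_ (fieldMod p F hF)
    (card_fieldMod F hF).le
  intro W hW hcard
  obtain ⟨H, hH, hcoat, hind, hle⟩ :=
    irred_h2_le hsol T W hW (quadChar p k hk) (quadChar_open k hk) (quadChar_sq k hk)
  have hkf : FiniteDimensional ℚ k := Module.finite_of_finrank_pos (by omega)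
  have hF' := finite_fixedField H hH
  have hfix := exists_field H hH
  haveI := hkf
  haveI := hF'
  have hFk : FiniteDimensional ℚ ↥(IntermediateField.fixedField H ⊔ k) := inferInstance
  have hKfix : (IntermediateField.fixedField H ⊔ k).fixingSubgroup = H ⊓ k.fixingSubgroup := by
    rw [IntermediateField.fixingSubgroup_sup, hfix]
  haveI hKfin : (H ⊓ k.fixingSubgroup).FiniteIndex := by
    rw [← hKfix]
    exact finiteIndex_fixing _ hFk
  have hKo : IsOpen ((H ⊓ k.fixingSubgroup : Subgroup Gal) : Set Gal) := by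
    rw [Subgroup.coe_inf]
    exact hH.inter (IntermediateField.fixingSubgroup_isOpen k)
  have e := hle (H ⊓ k.fixingSubgroup) hKfin hKo inf_le_left
    (fun g hg => quadChar_apply_of_mem hk hg.2)
  obtain ⟨n, hn⟩ : ∃ n : ℕ, Nat.card W.carrier = p ^ n := by
    refine ⟨Module.finrank (ZMod p) W.carrier, ?_⟩
    have := Module.natCard_eq_pow_finrank (K := ZMod p) (V := W.carrier)
    rwa [Nat.card_zmod] at this
  have hnle : n ≤ Module.finrank ℚ F := by
    rw [hn] at hcard
    exact (Nat.pow_le_pow_iff_right hp1).mp hcard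
  have hdeg : Module.finrank ℚ (IntermediateField.fixedField H) = p ^ n := by
    rw [IntermediateField.finrank_eq_fixingSubgroup_index, hfix, hind, hn]
  have hz := h (IntermediateField.fixedField H) hF' hFk n (isPrimitive_fixedField hH hcoat)
    hdeg hnle
  unfold muRank at hz
  rw [h2_fieldMod_eq T _ hFk _ hKo hKfix] at hz
  rw [hz, h1] at e
  omega

end Pool.Agent.R910.Mu
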