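import Pool.Agent.R910.Mu.Count

/-!
# Ratios of the numbers of exponent vectors
-/

set_option autoImplicit false

namespace Pool.Agent.R910.Mu

variable {p : ℕ} [Fact p.Prime]

open Classical in
/-- Increasing one entry: a double count. -/
theorem countEq_ratio (b j : ℕ) :
    countEq p b j * (b - j) ≤ countEq p b (j + 1) * (j + 1) := by
  have hp2 : 2 ≤ p := (Fact.out : p.Prime).two_le
  unfold countEq
  rw [Nat.card_eq_fintype_card, Nat.card_eq_fintype_card, Fintype.card_subtype,
    Fintype.card_subtype]
  refine Finset.card_mul_le_card_mul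
    (fun (α β : Fin b → Fin p) => ∃ i, (β i : ℕ) = (α i : ℕ) + 1 ∧ ∀ l, l ≠ i → β l = α l) ?_ ?_
  · intro α hα
    have hα' : deg α = j := by simpa using hα
    -- the entries which are zero can be increased
    have hzero : b - j ≤ (Finset.univ.filter fun i : Fin b => (α i : ℕ) = 0).card := by
      have h1 : (Finset.univ.filter fun i : Fin b => ¬ (α i : ℕ) = 0).card ≤ j := by
        rw [← hα']
        unfold deg
        calc (Finset.univ.filter fun i : Fin b => ¬ (α i : ℕ) = 0).card
            = ∑ _i ∈ Finset.univ.filter (fun i : Fin b => ¬ (α i : ℕ) = 0), 1 := by simp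
          _ ≤ ∑ i ∈ Finset.univ.filter (fun i : Fin b => ¬ (α i : ℕ) = 0), (α i : ℕ) :=
              Finset.sum_le_sum fun i hi => by
                have := (Finset.mem_filter.mp hi).2
                omega
          _ ≤ ∑ i, (α i : ℕ) := Finset.sum_le_sum_of_subset (Finset.filter_subset _ _)
      have h2 := Finset.card_filter_add_card_filter_not (s := (Finset.univ : Finset (Fin b)))
        (fun i : Fin b => (α i : ℕ) = 0)
      rw [Finset.card_univ, Fintype.card_fin] at h2
      omega
    refine hzero.trans ?_
    refine Finset.card_le_card_of_injOn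
      (fun i => Function.update α i ⟨1, by omega⟩) ?_ ?_
    · intro i hi
      have hi' : (α i : ℕ) = 0 := by simpa using hi
      simp only [Finset.coe_bipartiteAbove, Set.mem_sep_iff, Finset.mem_coe, Finset.mem_filter,
        Finset.mem_univ, true_and]
      refine ⟨?_, i, ?_, ?_⟩
      · unfold deg
        rw [← Finset.add_sum_erase Finset.univ
          (fun l => (Function.update α i (⟨1, by omega⟩ : Fin p) l : ℕ)) (Finset.mem_univ i),
          Function.update_self]
        have h3 : ∑ l ∈ Finset.univ.erase i,
            (Function.update α i (⟨1, by omega⟩ : Fin p) l : ℕ) =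
            ∑ l ∈ Finset.univ.erase i, (α l : ℕ) := by
          refine Finset.sum_congr rfl fun l hl => ?_
          rw [Function.update_of_ne (Finset.ne_of_mem_erase hl)]
        rw [h3]
        have h4 := Finset.add_sum_erase Finset.univ (fun l => (α l : ℕ)) (Finset.mem_univ i)
        unfold deg at hα'
        simp only at h4 ⊢
        omega
      · rw [Function.update_self, hi']
      · intro l hl
        exact Function.update_of_ne hl _ _
    · intro i hi i' hi' h
      by_contra hne
      have hi0 : (α i : ℕ) = 0 := by simpa using hi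
      have h5 := congrFun h i
      simp only [Function.update_self] at h5
      rw [Function.update_of_ne hne] at h5
      rw [← h5] at hi0
      simp at hi0
  · intro β hβ
    have hβ' : deg β = j + 1 := by simpa using hβ
    have hpos : (Finset.univ.filter fun i : Fin b => ¬ (β i : ℕ) = 0).card ≤ j + 1 := by
      rw [← hβ']
      unfold deg
      calc (Finset.univ.filter fun i : Fin b => ¬ (β i : ℕ) = 0).card
          = ∑ _i ∈ Finset.univ.filter (fun i : Fin b => ¬ (β i : ℕ) = 0), 1 := by simp
        _ ≤ ∑ i ∈ Finset.univ.filter (fun i : Fin b => ¬ (β i : ℕ) = 0), (β i : ℕ) :=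
            Finset.sum_le_sum fun i hi => by
              have := (Finset.mem_filter.mp hi).2
              omega
        _ ≤ ∑ i, (β i : ℕ) := Finset.sum_le_sum_of_subset (Finset.filter_subset _ _)
    refine le_trans ?_ hpos
    let dec : Fin b → (Fin b → Fin p) := fun i =>
      Function.update β i ⟨(β i : ℕ) - 1, by have := (β i).2; omega⟩
    refine (Finset.card_le_card (t := (Finset.univ.filter fun i : Fin b =>
      ¬ (β i : ℕ) = 0).image dec) ?_).trans Finset.card_image_le
    intro α hα
    have hα2 : ∃ i, (β i : ℕ) = (α i : ℕ) + 1 ∧ ∀ l, l ≠ i → β l = α l := by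
      have := (Finset.mem_filter.mp hα).2
      simpa using this
    obtain ⟨i, h1, h2⟩ := hα2
    rw [Finset.mem_image]
    refine ⟨i, ?_, ?_⟩
    · simp only [Finset.mem_filter, Finset.mem_univ, true_and]
      omega
    · funext l
      by_cases hl : l = i
      · subst hl
        apply Fin.ext
        change ((Function.update β l _ l : Fin p) : ℕ) = _
        rw [Function.update_self]
        simp only
        omega
      · change Function.update β i _ l = α l
        rw [Function.update_of_ne hl, h2 l hl]

theorem countLt_zero (b : ℕ) : countLt p b 0 = 0 := by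
  unfold countLt
  simp

theorem countEq_zero (b : ℕ) : countEq p b 0 = 1 := by
  unfold countEq
  rw [Nat.card_eq_one_iff_unique]
  have hp := (Fact.out : p.Prime).pos
  refine ⟨⟨fun x y => ?_⟩, ⟨⟨fun _ => ⟨0, hp⟩, by simp [deg]⟩⟩⟩
  have h : ∀ x : {α : Fin b → Fin p // deg α = 0}, ∀ i, (x.1 i : ℕ) = 0 := by
    intro x i
    have h1 := x.2
    unfold deg at h1
    exact Finset.sum_eq_zero_iff.mp h1 i (Finset.mem_univ i)
  refine Subtype.ext (funext fun i => Fin.ext ?_)
  rw [h x i, h y i]

/-- The numbers of vectors grow geometrically in the beginning. -/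
theorem countEq_growth (b j R : ℕ) (hb : (R + 3) * j ≤ b) :
    ∀ i, i ≤ j → (R + 2) ^ i ≤ countEq p b i ∧ (R + 1) * countLt p b i ≤ countEq p b i := by
  intro i
  induction i with
  | zero =>
    intro _
    rw [countEq_zero, countLt_zero]
    simp
  | succ i ih =>
    intro hi
    obtain ⟨h1, h2⟩ := ih (by omega)
    have h3 := countEq_ratio (p := p) b i
    have h4 : (R + 2) * (i + 1) ≤ b - i := by
      have : (R + 3) * (i + 1) ≤ b := (Nat.mul_le_mul_left _ hi).trans hb
      have h5 : (R + 3) * (i + 1) = (R + 2) * (i + 1) + (i + 1) := by ring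
      omega
    have h6 : (R + 2) * countEq p b i ≤ countEq p b (i + 1) := by
      refine Nat.le_of_mul_le_mul_right ?_ (Nat.succ_pos i)
      calc (R + 2) * countEq p b i * (i + 1) = countEq p b i * ((R + 2) * (i + 1)) := by ring
        _ ≤ countEq p b i * (b - i) := Nat.mul_le_mul_left _ h4
        _ ≤ countEq p b (i + 1) * (i + 1) := h3
    refine ⟨?_, ?_⟩
    · calc (R + 2) ^ (i + 1) = (R + 2) * (R + 2) ^ i := by ring
        _ ≤ (R + 2) * countEq p b i := Nat.mul_le_mul_left _ h1
        _ ≤ _ := h6
    · rw [countLt_succ]
      calc (R + 1) * (countLt p b i + countEq p b i)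
          = (R + 1) * countLt p b i + (R + 1) * countEq p b i := by ring
        _ ≤ countEq p b i + (R + 1) * countEq p b i := Nat.add_le_add_right h2 _
        _ = (R + 2) * countEq p b i := by ring
        _ ≤ _ := h6

end Pool.Agent.R910.Mu
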