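import Pool.Agent.R910.Mu.Defs
import Pool.Agent.R910.Mu.Fields

/-!
# The Galois group of a number field: a second version, and its subgroups
-/

set_option autoImplicit false

namespace Pool.Agent.R910.Mu

/-- The absolute Galois group of a number field `k` inside the algebraic closure of `ℚ`. -/
def GalRel (k : IntermediateField ℚ Om) : Type := k.fixingSubgroup

noncomputable instance relGroup (k : IntermediateField ℚ Om) : Group (GalRel k) :=
  Subgroup.toGroup k.fixingSubgroup

noncomputable instance relTop (k : IntermediateField ℚ Om) : TopologicalSpace (GalRel k) :=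
  instTopologicalSpaceSubtype

instance relTopGroup (k : IntermediateField ℚ Om) : IsTopologicalGroup (GalRel k) :=
  inferInstanceAs (IsTopologicalGroup k.fixingSubgroup)

/-- The automorphism of the algebraic closure given by an element of the Galois group of `k`. -/
def GalRel.aut {k : IntermediateField ℚ Om} (g : GalRel k) : Gal := Subtype.val g

/-- The Galois group of `M` in that of `k`. -/
noncomputable def relSub (k M : IntermediateField ℚ Om) : Subgroup (GalRel k) :=
  (M.fixingSubgroup.subgroupOf k.fixingSubgroup : Subgroup k.fixingSubgroup)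

theorem mem_relSub (k M : IntermediateField ℚ Om) (g : GalRel k) :
    g ∈ relSub k M ↔ g.aut ∈ M.fixingSubgroup := Iff.rfl

theorem relSub_open (k M : IntermediateField ℚ Om) (hM : FiniteDimensional ℚ M) :
    IsOpen (relSub k M : Set (GalRel k)) :=
  (IntermediateField.fixingSubgroup_isOpen M).preimage continuous_subtype_val

theorem relSub_finiteIndex (k M : IntermediateField ℚ Om) (hM : FiniteDimensional ℚ M) :
    (relSub k M).FiniteIndex := by
  haveI := finiteIndex_fixing M hM
  exact inferInstanceAs
    ((M.fixingSubgroup.subgroupOf k.fixingSubgroup : Subgroup k.fixingSubgroup).FiniteIndex)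

/-- The permutation module of the extension `M` of `k`. -/
noncomputable def permRel (p : ℕ) [Fact p.Prime] (k M : IntermediateField ℚ Om)
    (hM : FiniteDimensional ℚ M) : GMod p (GalRel k) :=
  haveI := relSub_finiteIndex k M hM
  perm p (relSub k M) (relSub_open k M hM)

theorem index_relSub {k M : IntermediateField ℚ Om} (h : k ≤ M) :
    (relSub k M).index * Module.finrank ℚ k = Module.finrank ℚ M := by
  rw [IntermediateField.finrank_eq_fixingSubgroup_index,
    IntermediateField.finrank_eq_fixingSubgroup_index]
  exact Subgroup.relIndex_mul_index (IntermediateField.fixingSubgroup_le h)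

/-- Every open subgroup is the Galois group of a finite extension. -/
theorem exists_rel {k : IntermediateField ℚ Om} (hk : FiniteDimensional ℚ k)
    (H : Subgroup (GalRel k)) (hH : IsOpen (H : Set (GalRel k))) :
    ∃ M : IntermediateField ℚ Om, FiniteDimensional ℚ M ∧ k ≤ M ∧ relSub k M = H := by
  let H' : Subgroup k.fixingSubgroup := H
  let J : Subgroup Gal := H'.map k.fixingSubgroup.subtype
  have hko : IsOpen (k.fixingSubgroup : Set Gal) := IntermediateField.fixingSubgroup_isOpen k
  have hJ : IsOpen (J : Set Gal) := by
    have h1 : (J : Set Gal) = Subtype.val '' (H' : Set k.fixingSubgroup) := rfl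
    rw [h1]
    exact hko.isOpenMap_subtype_val _ hH
  have hJfix := exists_field J hJ
  refine ⟨IntermediateField.fixedField J, finite_fixedField J hJ, ?_, ?_⟩
  · have hkk : IntermediateField.fixedField k.fixingSubgroup = k :=
      InfiniteGalois.fixedField_fixingSubgroup k
    rw [← hkk]
    refine IntermediateField.fixedField_antitone ?_
    rintro _ ⟨g, _, rfl⟩
    exact g.2
  · ext g
    rw [mem_relSub, hJfix]
    constructor
    · rintro ⟨g', hg', hgg⟩
      have : g' = g := Subtype.ext hgg
      exact this ▸ hg'
    · intro hg
      exact ⟨g, hg, rfl⟩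

theorem h2_permRel_eq {p : ℕ} [Fact p.Prime] {k : IntermediateField ℚ Om}
    (T : LocalizedCohomology p (GalRel k)) (M : IntermediateField ℚ Om)
    (hM : FiniteDimensional ℚ M) (H : Subgroup (GalRel k)) [H.FiniteIndex]
    (hH : IsOpen (H : Set (GalRel k))) (h : relSub k M = H) :
    T.h2 (permRel p k M hM) = T.h2 (perm p H hH) := by
  subst h
  rfl

end Pool.Agent.R910.Mu
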