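import Pool.Agent.R910.Mu.ImQuad

/-!
# The growth law over a base field
-/

set_option autoImplicit false

namespace Pool.Agent.R910.Mu

variable {p : ℕ} [Fact p.Prime]

theorem card_permRel {k M : IntermediateField ℚ Om} (hM : FiniteDimensional ℚ M) :
    Nat.card (permRel p k M hM).carrier = p ^ (relSub k M).index := by
  haveI := relSub_finiteIndex k M hM
  change Nat.card (GalRel k ⧸ relSub k M → ZMod p) = _
  haveI : Finite (GalRel k ⧸ relSub k M) := inferInstance
  rw [Nat.card_fun, Nat.card_zmod]
  rfl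

/-- **The growth law over a base field.** -/
theorem exists_growth_rel {k : IntermediateField ℚ Om} (hk : FiniteDimensional ℚ k)
    (hsol : HasSplitSolutions p (GalRel k)) (T : LocalizedCohomology p (GalRel k))
    (F : IntermediateField ℚ Om) (hF : FiniteDimensional ℚ F) (m : ℕ) :
    ∃ (F' : IntermediateField ℚ Om) (hF' : FiniteDimensional ℚ F'), k ≤ F' ∧
      Module.finrank ℚ F' = p ^ ((m + 1) * (relSub k F).index) * Module.finrank ℚ k ∧
      (m + 1) * T.h2 (permRel p k F hF) ≤
        T.h2 (permRel p k F' hF') + T.h1 (triv p (GalRel k)) := by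
  obtain ⟨H, hfin, hH, hi, hle⟩ := exists_subgroup hsol T (permRel p k F hF) m
  obtain ⟨F', hF', hkF', hFH⟩ := exists_rel hk H hH
  refine ⟨F', hF', hkF', ?_, ?_⟩
  · rw [← index_relSub hkF', hFH, hi, card_permRel, ← pow_mul, mul_comm (m + 1)]
  · rw [h2_permRel_eq T F' hF' H hH hFH]
    exact hle

end Pool.Agent.R910.Mu
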