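import Pool.Agent.R910.Mu.Layers
import Pool.Agent.R910.Mu.RelDefs
import Pool.Agent.R910.Mu.EvenDefs

/-!
# The growth laws, for the second version of the Galois group of a number field
-/

set_option autoImplicit false

namespace Pool.Agent.R910.Mu

variable {p : ℕ} [Fact p.Prime]

/-- The layers. -/
theorem layers_rel (F : IntermediateField ℚ Om) (T : FullCohomology p (GalRel F)) (R : ℕ) (b : ℕ)
    (M : IntermediateField ℚ Om) (hM : FiniteDimensional ℚ M) (hel : IsElemOver p F M b)
    (hT : ∀ A : GMod p (GalRel F), ActsVia (relSub F M) A →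
      T.h1 A = T.h2 A + R * Module.finrank (ZMod p) A.carrier)
    (j : ℕ) (hj : j ≤ b * (p - 1)) :
    countEq p b j * T.h2 (triv p (GalRel F)) ≤
      T.h2 (permRel p F M hM) + R * countLt p b j := by
  obtain ⟨_, z, hz, hs, hk⟩ := hel
  haveI hfi := relSub_finiteIndex F M hM
  have ho' := relSub_open F M hM
  have ho : IsOpen {g : GalRel F | z g = 0} := by
    have : {g : GalRel F | z g = 0} = (relSub F M : Set (GalRel F)) := by
      ext g
      exact (hk g).symm
    rw [this]
    exact ho'
  exact elementary_layers T R z hz ho hs (relSub F M) ho' hk hT j hj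

/-- Exponential growth. -/
theorem exponential_rel (F : IntermediateField ℚ Om) (T : FullCohomology p (GalRel F)) (R : ℕ)
    (b : ℕ) (M : IntermediateField ℚ Om) (hM : FiniteDimensional ℚ M) (hel : IsElemOver p F M b)
    (hT : ∀ A : GMod p (GalRel F), ActsVia (relSub F M) A →
      T.h1 A = T.h2 A + R * Module.finrank (ZMod p) A.carrier)
    (hF : T.h2 (triv p (GalRel F)) ≠ 0) (j : ℕ) (hj : (R + 3) * j ≤ b) :
    (R + 2) ^ j ≤ (R + 1) * T.h2 (permRel p F M hM) := by
  have hp2 : 2 ≤ p := (Fact.out : p.Prime).two_le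
  have hj' : j ≤ b * (p - 1) := by
    have h1 : j ≤ (R + 3) * j := Nat.le_mul_of_pos_left _ (by omega)
    have h2 : b ≤ b * (p - 1) := Nat.le_mul_of_pos_right _ (by omega)
    omega
  have h := layers_rel F T R b M hM hel hT j hj'
  obtain ⟨h1, h2⟩ := countEq_growth (p := p) b j R hj j le_rfl
  have h3 : countEq p b j ≤ countEq p b j * T.h2 (triv p (GalRel F)) :=
    Nat.le_mul_of_pos_right _ (Nat.pos_of_ne_zero hF)
  have h4 : countEq p b j ≤ T.h2 (permRel p F M hM) + R * countLt p b j := h3.trans h
  have h5 : (R + 1) * countEq p b j ≤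
      (R + 1) * T.h2 (permRel p F M hM) + R * countEq p b j := by
    calc (R + 1) * countEq p b j ≤
        (R + 1) * (T.h2 (permRel p F M hM) + R * countLt p b j) := Nat.mul_le_mul_left _ h4
      _ = (R + 1) * T.h2 (permRel p F M hM) + R * ((R + 1) * countLt p b j) := by ring
      _ ≤ _ := Nat.add_le_add_left (Nat.mul_le_mul_left _ h2) _
  have h6 : (R + 1) * countEq p b j = R * countEq p b j + countEq p b j := by ring
  omega

/-- For odd `p` the modules which factor through an elementary abelian quotient are even. -/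
theorem even_of_actsVia (hp : p ≠ 2) {F M : IntermediateField ℚ Om} {b : ℕ}
    (hel : IsElemOver p F M b) (A : GMod p (GalRel F)) (hA : ActsVia (relSub F M) A) :
    IsEvenRel A := by
  obtain ⟨_, z, hz, _, hk⟩ := hel
  intro c hc a
  refine hA c ?_ a
  have h1 : z 1 = 0 := by
    have := hz 1 1
    simpa using this
  have hcc : c * c = 1 := Subtype.ext (IsConj.sq hc)
  have h2 : (2 : ZMod p) • z c = 0 := by
    have := hz c c
    rw [hcc, h1] at this
    rw [two_smul]
    exact this.symm
  have h3 : (2 : ZMod p) ≠ 0 := by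
    intro h0
    have : ((2 : ℕ) : ZMod p) = 0 := by exact_mod_cast h0
    rw [ZMod.natCast_eq_zero_iff] at this
    exact hp ((Nat.prime_dvd_prime_iff_eq Fact.out Nat.prime_two).mp this)
  exact (hk c).mpr ((smul_eq_zero.mp h2).resolve_left h3)

end Pool.Agent.R910.Mu
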